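import Pool.Agent.N802.Int
import Pool.Agent.W198.TC.DM

/-!
# Weighted sums over the zeros in a block
-/

open Complex Filter Topology Set MeasureTheory

namespace Pool.Agent.N802

open TC

lemma DP_eq (α : ℕ → ℝ) (N : ℕ) (t : ℝ) :
    DP α N t = RP (Finset.Icc 2 N) (fun n => (α n : ℂ)) t := by
  unfold DP RP TP mn
  refine Finset.sum_congr rfl fun n _ => ?_
  congr 2
  rw [Nat.cast_one, Real.log_one, zero_sub, mul_neg]

lemma RP_split (S : Finset ℕ) (α : ℕ → ℂ) (q : ℕ → Prop) [DecidablePred q] (t : ℝ) :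
    RP S α t = RP (S.filter q) α t + RP (S.filter fun n => ¬ q n) α t := by
  unfold RP TP
  rw [Finset.sum_filter_add_sum_filter_not]

lemma RP_norm (S : Finset ℕ) (α : ℕ → ℂ) (t : ℝ) : ‖RP S α t‖ ≤ n1 S α := TP_norm_le _ _ _ _ _

lemma RP_cont (S : Finset ℕ) (α : ℕ → ℂ) : Continuous (RP S α) := TP_cont _ _ _ _

section

variable {C T : ℝ} {Z : Finset ℝ} {m : ℝ → ℕ} {τ H dd Y G e0 y K0 : ℝ} {N X : ℕ}
    {S : Finset ℕ}

lemma pow_le6 {T x e0 : ℝ} (hT : 1 ≤ T) (hx : 0 ≤ x) (h : T ^ 6 * x ≤ e0) {k : ℕ} (hk : k ≤ 6) :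
    T ^ k * x ≤ e0 :=
  (mul_le_mul_of_nonneg_right (pow_le_pow_right₀ hT hk) hx).trans h

lemma Cx.ell (h : Cx C T Z m τ H dd Y G e0 y K0 N X S) : Real.log T ≤ T := by
  have := Real.log_le_sub_one_of_pos (by linarith [h.hT] : 0 < T)
  linarith

lemma Cx.enn (h : Cx C T Z m τ H dd Y G e0 y K0 N X S) : 0 ≤ e0 := by
  have h1 := h.E1
  have h2 := h.hT
  have : 0 ≤ T ^ 6 * Real.exp (-(H ^ 2) / (8 * Y ^ 2)) := by positivity
  linarith

lemma Cx.summ (h : Cx C T Z m τ H dd Y G e0 y K0 N X S) : ∑ g ∈ Z, (m g : ℝ) ≤ C * T ^ 2 := by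
  have h1 := h.hE.tot
  have h2 := h.ell
  have h3 := h.hT
  have h4 := h.hC
  have : C * T * Real.log T ≤ C * T * T := mul_le_mul_of_nonneg_left h2 (by positivity)
  linarith [this, sq T]

/-- the tail factor of `core` -/
lemma Cx.tail (h : Cx C T Z m τ H dd Y G e0 y K0 N X S) {K w : ℝ} (hw : 0 ≤ w) (hK0 : 0 ≤ K) (k : ℕ)
    (hk : k + 3 ≤ 6) {c : ℝ} (hc : 0 ≤ c) (hK : K ≤ c * T ^ k * w) :
    (C * (Real.log T) ^ 2 + Real.log T + ∑ n ∈ Finset.Icc 2 X, |qf (Real.log T) n|) *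
        K * Real.exp (-(dd ^ 2) / (4 * H ^ 2)) * (Real.sqrt (2 * Real.pi) * (Real.sqrt 2 * H)) ≤
      Real.sqrt (2 * Real.pi) * H * w * (2 * (C + 3) * c * e0) := by
  have hT := h.hT
  have hC := h.hC
  have hl0 : 0 ≤ Real.log T := by linarith [h.h4]
  have hH := h.hH
  have hell := h.ell
  have hQ := sum_qf_abs hl0 X
  have hQ0 : 0 ≤ ∑ n ∈ Finset.Icc 2 X, |qf (Real.log T) n| :=
    Finset.sum_nonneg fun _ _ => abs_nonneg _
  have hXT := h.hXT
  have h1 : C * (Real.log T) ^ 2 + Real.log T + ∑ n ∈ Finset.Icc 2 X, |qf (Real.log T) n| ≤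
      (C + 3) * T ^ 3 := by
    have a1 : (Real.log T) ^ 2 ≤ T ^ 3 := by
      calc (Real.log T) ^ 2 ≤ T ^ 2 := pow_le_pow_left₀ hl0 hell 2
        _ ≤ T ^ 3 := pow_le_pow_right₀ hT (by norm_num)
    have a2 : Real.log T ≤ T ^ 3 := hell.trans (le_self_pow₀ hT (by norm_num))
    nlinarith
  have hs2 : Real.sqrt 2 ≤ 2 := by
    rw [Real.sqrt_le_left (by norm_num)]
    norm_num
  have hsp : 0 ≤ Real.sqrt (2 * Real.pi) := Real.sqrt_nonneg _
  set κ := Real.exp (-(dd ^ 2) / (4 * H ^ 2)) with hκ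
  have hκ0 : 0 < κ := Real.exp_pos _
  have h2 : T ^ (k + 3) * κ ≤ e0 := pow_le6 hT hκ0.le h.E2 hk
  calc (C * (Real.log T) ^ 2 + Real.log T + ∑ n ∈ Finset.Icc 2 X, |qf (Real.log T) n|) *
        K * κ * (Real.sqrt (2 * Real.pi) * (Real.sqrt 2 * H)) ≤
      ((C + 3) * T ^ 3) * (c * T ^ k * w) * κ * (Real.sqrt (2 * Real.pi) * (2 * H)) := by
        gcongr
    _ = Real.sqrt (2 * Real.pi) * H * w * (2 * (C + 3) * c * (T ^ (k + 3) * κ)) := by
        rw [pow_add]; ring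
    _ ≤ _ := by gcongr

lemma om_int_ofReal (τ H : ℝ) (f : ℝ → ℝ) :
    ∫ t, (om τ H t : ℂ) * ((f t : ℝ) : ℂ) = ((∫ t, om τ H t * f t : ℝ) : ℂ) := by
  rw [← integral_complex_ofReal]
  congr 1
  funext t
  push_cast
  ring

/-- **the mass of the zeros** -/
lemma Cx.mass (h : Cx C T Z m τ H dd Y G e0 y K0 N X S) (r : ℕ → ℂ) :
    |(∑ g ∈ Z, (m g : ℝ) * (om τ H g * ‖RP S r g‖ ^ 2)) -
      Real.log T / (2 * Real.pi) * (Real.sqrt (2 * Real.pi) * H * w1 S r)| ≤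
      Real.sqrt (2 * Real.pi) * H * w1 S r * ((2 * C + 1) + 48 * Real.sqrt y +
        e0 * (6 * C + 10 + 48 * Real.sqrt y)) := by
  have hT := h.hT
  have hC := h.hC
  have hH := h.hH
  have hH0 : 0 < H := by linarith
  have hW1 := h.W1
  have hw := w1_nonneg S r
  have hl0 : 0 ≤ Real.log T := by linarith [h.h4]
  have hell := h.ell
  have he0 := h.enn
  have hpi := Real.pi_pos
  have hpi3 := Real.pi_gt_three
  set ℓ := Real.log T with hℓ
  set w := w1 S r with hwdef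
  set WW := Real.sqrt (2 * Real.pi) * H with hWW
  set e1 := Real.exp (-(H ^ 2) / (8 * Y ^ 2)) with he1
  have he1p : 0 < e1 := Real.exp_pos _
  have hE1 := h.E1
  have hsm := h.summ
  have hS0 : ∀ k ∈ S, 0 < k := fun k hk => (h.hS k hk).1
  have hN' : (1 : ℝ) ≤ N := by exact_mod_cast h.hN1
  have hK1 := h.hK1
  have hn1 := h.n1sqT r
  have hn10 : 0 ≤ n1 S r ^ 2 := sq_nonneg _
  -- reproducing kernel
  have hrk := rk_TP (S ×ˢ S) (uc r) (fun x => x.1) (fun x => x.2) Z m τ H ℓ G hH h.hG hl0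
    (fun x hx => by
      rw [Finset.mem_product] at hx
      have a1 := h.hS _ hx.1
      have a2 := h.hS _ hx.2
      have b1 : (1 : ℝ) ≤ x.1 := by exact_mod_cast a1.1
      have b2 : (1 : ℝ) ≤ x.2 := by exact_mod_cast a2.1
      have hKN1 : K0 ≤ K0 * N := le_mul_of_one_le_right (by linarith) hN'
      have c1 : Real.log x.1 ≤ Real.log (K0 * N) :=
        Real.log_le_log (by linarith) (a1.2.1.trans hKN1)
      have c2 : Real.log x.2 ≤ Real.log (K0 * N) :=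
        Real.log_le_log (by linarith) (a2.2.1.trans hKN1)
      have c3 := Real.log_nonneg b1
      have c4 := Real.log_nonneg b2
      have c5 : |Real.log x.2 - Real.log x.1| ≤ Real.log (K0 * N) := by
        rw [abs_le]; constructor <;> linarith
      linarith [h.hKG])
  rw [n1_uc] at hrk
  -- the function `U`
  have hU : ∀ t, TP (S ×ˢ S) (uc r) (fun x => x.1) (fun x => x.2) t =
      ((‖RP S r t‖ ^ 2 : ℝ) : ℂ) := fun t => (U_eq S r hS0 t).symm
  have hcore := core h.hE hC h.h4 (TP (S ×ˢ S) (uc r) (fun x => x.1) (fun x => x.2))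
    (TP_cont _ _ _ _) (n1 S r ^ 2) (fun t => by
      have := TP_norm_le (S ×ˢ S) (uc r) (fun x => x.1) (fun x => x.2) t
      rwa [n1_uc] at this) τ H dd hH0 h.hd h.h1 h.h2 X h.hX
  have htail := h.tail hw hn10 1 (by norm_num) zero_le_one (K := n1 S r ^ 2) (by
    rw [one_mul, pow_one]; exact hn1)
  simp_rw [hU] at hrk hcore
  have hi0 := h.int0 r
  set I0 := ∫ t, om τ H t * ‖RP S r t‖ ^ 2 with hI0
  have hnormU : ∫ t : ℝ, om τ H t * ‖((‖RP S r t‖ ^ 2 : ℝ) : ℂ)‖ = I0 := by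
    rw [hI0]
    congr 1
    funext t
    rw [Complex.norm_real, Real.norm_of_nonneg (sq_nonneg _)]
  rw [hnormU] at hcore
  -- the main integral
  have hbU : ∀ t, |‖RP S r t‖ ^ 2| ≤ n1 S r ^ 2 := fun t => by
    rw [abs_of_nonneg (sq_nonneg _)]
    exact pow_le_pow_left₀ (norm_nonneg _) (RP_norm S r t) 2
  have hcU : Continuous fun t => ‖RP S r t‖ ^ 2 := (RP_cont S r).norm.pow 2
  have iU : Integrable fun t => om τ H t * ‖RP S r t‖ ^ 2 := om_mul_integrable hH0 hcU hbU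
  set Qr := RP ((Finset.Icc 2 X).filter fun n => ¬ ((n.minFac : ℝ) ≤ y))
    (fun n => (qf ℓ n : ℂ)) with hQr
  set Qs := RP ((Finset.Icc 2 X).filter fun n => (n.minFac : ℝ) ≤ y)
    (fun n => (qf ℓ n : ℂ)) with hQs
  have hQ : ∀ t, DP (qf ℓ) X t = Qs t + Qr t := fun t => by
    rw [DP_eq, RP_split _ _ (fun n => (n.minFac : ℝ) ≤ y)]
  have hQsb : ∀ t, |(Qs t).re| ≤ 48 * Real.sqrt y := by
    intro t
    refine (Complex.abs_re_le_norm _).trans ((RP_norm _ _ t).trans ?_)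
    refine le_trans ?_ (smooth_sum X y (by linarith [h.hy]))
    unfold n1
    apply Finset.sum_le_sum
    intro n _
    rw [Complex.norm_real, Real.norm_eq_abs]
    exact qf_abs hl0 n
  have hn1q : n1 ((Finset.Icc 2 X).filter fun n => ¬ ((n.minFac : ℝ) ≤ y))
      (fun n => (qf ℓ n : ℂ)) ≤ 2 * T ^ 3 := by
    have a1 : n1 ((Finset.Icc 2 X).filter fun n => ¬ ((n.minFac : ℝ) ≤ y))
      (fun n => (qf ℓ n : ℂ)) ≤ ∑ n ∈ Finset.Icc 2 X, |qf ℓ n| := by
      unfold n1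
      have : ∀ n, ‖(qf ℓ n : ℂ)‖ = |qf ℓ n| := fun n => by
        rw [Complex.norm_real, Real.norm_eq_abs]
      simp_rw [this]
      exact Finset.sum_le_sum_of_subset_of_nonneg (Finset.filter_subset _ _)
        fun _ _ _ => abs_nonneg _
    have a2 := sum_qf_abs hl0 X
    have a3 := h.hXT
    linarith
  have hi1 := h.int1 r ((Finset.Icc 2 X).filter fun n => ¬ ((n.minFac : ℝ) ≤ y))
    (fun n => (qf ℓ n : ℂ)) (fun n hn => by
      rw [Finset.mem_filter, Finset.mem_Icc, not_le] at hn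
      exact ⟨hn.1.1, hn.2⟩)
  rw [← hQr] at hi1
  have hsplit : ∫ t : ℝ, ((om τ H t : ℂ) * ((‖RP S r t‖ ^ 2 : ℝ) : ℂ)) *
        ((ℓ / 2 - (DP (qf ℓ) X t).re : ℝ) : ℂ) =
      ((ℓ / 2 * I0 - (∫ t, om τ H t * (‖RP S r t‖ ^ 2 * (Qs t).re)) -
        (∫ t, om τ H t * (‖RP S r t‖ ^ 2 * (Qr t).re)) : ℝ) : ℂ) := by
    have i1 : Integrable fun t => om τ H t * (‖RP S r t‖ ^ 2 * (Qs t).re) := by
      refine om_mul_integrable (K := n1 S r ^ 2 * (48 * Real.sqrt y)) hH0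
        (hcU.mul (Complex.continuous_re.comp (RP_cont _ _))) fun t => ?_
      rw [abs_mul]
      exact mul_le_mul (hbU t) (hQsb t) (abs_nonneg _) hn10
    have i2 : Integrable fun t => om τ H t * (‖RP S r t‖ ^ 2 * (Qr t).re) := by
      refine om_mul_integrable (K := n1 S r ^ 2 * (2 * T ^ 3)) hH0
        (hcU.mul (Complex.continuous_re.comp (RP_cont _ _))) fun t => ?_
      rw [abs_mul]
      exact mul_le_mul (hbU t) ((Complex.abs_re_le_norm _).trans ((RP_norm _ _ t).trans hn1q))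
        (abs_nonneg _) hn10
    have i3 : Integrable fun t => ℓ / 2 * (om τ H t * ‖RP S r t‖ ^ 2) -
        om τ H t * (‖RP S r t‖ ^ 2 * (Qs t).re) := (iU.const_mul _).sub i1
    rw [hI0, ← integral_const_mul, ← integral_sub (iU.const_mul _) i1,
      ← integral_sub i3 i2, ← integral_complex_ofReal]
    congr 1
    funext t
    rw [hQ t, Complex.add_re]
    push_cast
    ring
  rw [hsplit] at hcore
  have hA1 : |∫ t, om τ H t * (‖RP S r t‖ ^ 2 * (Qs t).re)| ≤ 48 * Real.sqrt y * I0 := by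
    rw [← Real.norm_eq_abs, hI0, ← integral_const_mul]
    apply norm_integral_le_of_norm_le (iU.const_mul _)
    refine Eventually.of_forall fun t => ?_
    rw [Real.norm_eq_abs, abs_mul, abs_mul, abs_of_pos (om_pos τ H t),
      abs_of_nonneg (sq_nonneg ‖RP S r t‖)]
    have := hQsb t
    have h0 : 0 ≤ om τ H t * ‖RP S r t‖ ^ 2 := mul_nonneg (om_pos τ H t).le (sq_nonneg _)
    calc om τ H t * (‖RP S r t‖ ^ 2 * |(Qs t).re|) = (om τ H t * ‖RP S r t‖ ^ 2) * |(Qs t).re| := by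
          ring
      _ ≤ (om τ H t * ‖RP S r t‖ ^ 2) * (48 * Real.sqrt y) := mul_le_mul_of_nonneg_left this h0
      _ = _ := by ring
  have hA2 : |∫ t, om τ H t * (‖RP S r t‖ ^ 2 * (Qr t).re)| ≤
      ‖∫ t, (om τ H t : ℂ) * (((‖RP S r t‖ ^ 2 : ℝ) : ℂ) * Qr t)‖ := by
    have i3 : Integrable fun t => (om τ H t : ℂ) * (((‖RP S r t‖ ^ 2 : ℝ) : ℂ) * Qr t) := by
      have i0 := (om_integrable τ H hH0).mul_const (n1 S r ^ 2 * (2 * T ^ 3))
      refine i0.mono' ?_ (Eventually.of_forall fun t => ?_)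
      · exact ((Complex.continuous_ofReal.comp (om_cont τ H)).mul
          ((Complex.continuous_ofReal.comp hcU).mul (RP_cont _ _))).aestronglyMeasurable
      · rw [norm_mul, norm_mul, Complex.norm_real, Complex.norm_real, Real.norm_eq_abs,
          Real.norm_eq_abs, abs_of_pos (om_pos τ H t)]
        apply mul_le_mul_of_nonneg_left _ (om_pos τ H t).le
        exact mul_le_mul (hbU t) ((RP_norm _ _ t).trans hn1q) (norm_nonneg _) hn10
    have e : ∫ t, om τ H t * (‖RP S r t‖ ^ 2 * (Qr t).re) =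
        (∫ t, (om τ H t : ℂ) * (((‖RP S r t‖ ^ 2 : ℝ) : ℂ) * Qr t)).re := by
      have := integral_re i3
      simp only [RCLike.re_to_complex] at this
      rw [← this]
      congr 1
      funext t
      rw [Complex.re_ofReal_mul, Complex.re_ofReal_mul]
    rw [e]
    exact Complex.abs_re_le_norm _
  have hsumeq : (∑ g ∈ Z, (m g : ℂ) * ((om τ H g : ℂ) * ((‖RP S r g‖ ^ 2 : ℝ) : ℂ))) =
      ((∑ g ∈ Z, (m g : ℝ) * (om τ H g * ‖RP S r g‖ ^ 2) : ℝ) : ℂ) := by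
    push_cast
    rfl
  rw [hsumeq] at hrk
  set A := ∑ g ∈ Z, (m g : ℝ) * (om τ H g * ‖RP S r g‖ ^ 2) with hA
  have hIr : ∫ t : ℝ, ((om τ H t : ℂ) * ((‖RP S r t‖ ^ 2 : ℝ) : ℂ)) * (RR Z m ℓ t : ℂ) =
      ((∫ t, om τ H t * ‖RP S r t‖ ^ 2 * RR Z m ℓ t : ℝ) : ℂ) := by
    rw [← integral_complex_ofReal]
    congr 1
    funext t
    push_cast
    ring
  rw [hIr] at hrk hcore
  set JR := ∫ t, om τ H t * ‖RP S r t‖ ^ 2 * RR Z m ℓ t with hJR
  set A1 := ∫ t, om τ H t * (‖RP S r t‖ ^ 2 * (Qs t).re) with hA1d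
  set A2 := ∫ t, om τ H t * (‖RP S r t‖ ^ 2 * (Qr t).re) with hA2d
  rw [← ofReal_sub, Complex.norm_real, Real.norm_eq_abs] at hcore
  rw [← ofReal_mul, ← ofReal_sub, Complex.norm_real, Real.norm_eq_abs] at hrk
  -- numerical part
  have hE3 := h.E3
  set e3 := Real.exp (-(G ^ 2) / 8) with he3
  have he3p : 0 < e3 := Real.exp_pos _
  have hk1 : T ^ 1 * e1 ≤ e0 := pow_le6 hT he1p.le hE1 (by norm_num)
  have hk2 : T ^ 2 * e1 ≤ e0 := pow_le6 hT he1p.le hE1 (by norm_num)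
  have hk4 : T ^ 4 * e1 ≤ e0 := pow_le6 hT he1p.le hE1 (by norm_num)
  have hk3' : T ^ 3 * e3 ≤ e0 := pow_le6 hT he3p.le hE3 (by norm_num)
  have hWw : 0 ≤ WW * w := by positivity
  have b0 : |I0 - WW * w| ≤ WW * w * e0 := by
    refine hi0.trans ?_
    rw [pow_one] at hk1
    exact mul_le_mul_of_nonneg_left hk1 hWw
  have b0' : |ℓ / 2 * I0 - ℓ / 2 * (WW * w)| ≤ WW * w * e0 := by
    rw [← mul_sub, abs_mul, abs_of_nonneg (by linarith : 0 ≤ ℓ / 2)]
    calc ℓ / 2 * |I0 - WW * w| ≤ T * (WW * w * (T * e1)) := by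
          apply mul_le_mul _ hi0 (abs_nonneg _) (by linarith)
          linarith
      _ = WW * w * (T ^ 2 * e1) := by ring
      _ ≤ WW * w * e0 := mul_le_mul_of_nonneg_left hk2 hWw
  have b0a := abs_le.mp b0
  have b1 : |A1| ≤ 48 * Real.sqrt y * (WW * w * (1 + e0)) := by
    refine hA1.trans ?_
    apply mul_le_mul_of_nonneg_left _ (by positivity)
    linarith [b0a.2]
  have b2 : |A2| ≤ WW * w * (2 * e0) := by
    refine (hA2.trans hi1).trans ?_
    apply mul_le_mul_of_nonneg_left _ hWw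
    calc n1 ((Finset.Icc 2 X).filter fun n => ¬ ((n.minFac : ℝ) ≤ y)) (fun n => (qf ℓ n : ℂ)) *
        (T * e1) ≤ (2 * T ^ 3) * (T * e1) := by gcongr
      _ = 2 * (T ^ 4 * e1) := by ring
      _ ≤ 2 * e0 := by linarith
  have b3 : 2 * (∑ g ∈ Z, (m g : ℝ)) * n1 S r ^ 2 * e3 ≤ WW * w * (2 * C * e0) := by
    have hsm0 : 0 ≤ ∑ g ∈ Z, (m g : ℝ) := Finset.sum_nonneg fun _ _ => Nat.cast_nonneg _
    calc 2 * (∑ g ∈ Z, (m g : ℝ)) * n1 S r ^ 2 * e3 ≤ 2 * (C * T ^ 2) * (T * w) * e3 := by gcongr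
      _ = w * (2 * C * (T ^ 3 * e3)) := by ring
      _ ≤ w * (2 * C * e0) := by gcongr
      _ ≤ WW * w * (2 * C * e0) := by
          apply mul_le_mul_of_nonneg_right _ (by positivity)
          exact le_mul_of_one_le_left hw hW1
  have b4 : |JR - (ℓ / 2 * I0 - A1 - A2)| ≤ WW * w * ((2 * C + 1) * (1 + e0) +
      2 * (C + 3) * 1 * e0) := by
    refine hcore.trans ?_
    have : (2 * C + 1) * I0 ≤ (2 * C + 1) * (WW * w * (1 + e0)) := by
      apply mul_le_mul_of_nonneg_left _ (by linarith)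
      linarith [b0a.2]
    linarith [htail]
  have b5 : |JR - ℓ / 2 * (WW * w)| ≤ WW * w * ((2 * C + 1) * (1 + e0) +
      2 * (C + 3) * 1 * e0 + e0 + 48 * Real.sqrt y * (1 + e0) + 2 * e0) := by
    have e : JR - ℓ / 2 * (WW * w) = (JR - (ℓ / 2 * I0 - A1 - A2)) +
        (ℓ / 2 * I0 - ℓ / 2 * (WW * w)) - A1 - A2 := by ring
    rw [e]
    have t1 := abs_sub (JR - (ℓ / 2 * I0 - A1 - A2) + (ℓ / 2 * I0 - ℓ / 2 * (WW * w)) - A1) A2
    have t2 := abs_sub (JR - (ℓ / 2 * I0 - A1 - A2) + (ℓ / 2 * I0 - ℓ / 2 * (WW * w))) A1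
    have t3 := abs_add_le (JR - (ℓ / 2 * I0 - A1 - A2)) (ℓ / 2 * I0 - ℓ / 2 * (WW * w))
    linarith
  have hpi1 : 1 / Real.pi ≤ 1 := by
    rw [div_le_one hpi]; linarith
  have b6 : |1 / Real.pi * JR - ℓ / (2 * Real.pi) * (WW * w)| ≤
      WW * w * ((2 * C + 1) * (1 + e0) +
      2 * (C + 3) * 1 * e0 + e0 + 48 * Real.sqrt y * (1 + e0) + 2 * e0) := by
    have e : 1 / Real.pi * JR - ℓ / (2 * Real.pi) * (WW * w) =
        1 / Real.pi * (JR - ℓ / 2 * (WW * w)) := by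
      field_simp
    rw [e, abs_mul, abs_of_pos (by positivity)]
    calc 1 / Real.pi * |JR - ℓ / 2 * (WW * w)| ≤ 1 * |JR - ℓ / 2 * (WW * w)| :=
          mul_le_mul_of_nonneg_right hpi1 (abs_nonneg _)
      _ ≤ _ := by rw [one_mul]; exact b5
  have b7 : |A - 1 / Real.pi * JR| ≤ WW * w * (2 * C * e0) := hrk.trans b3
  have t4 := abs_add_le (A - 1 / Real.pi * JR) (1 / Real.pi * JR - ℓ / (2 * Real.pi) * (WW * w))
  have e8 : A - 1 / Real.pi * JR + (1 / Real.pi * JR - ℓ / (2 * Real.pi) * (WW * w)) =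
      A - ℓ / (2 * Real.pi) * (WW * w) := by ring
  rw [e8] at t4
  refine (t4.trans (add_le_add b7 b6)).trans (le_of_eq ?_)
  ring

end

end Pool.Agent.N802
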