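import Pool.Agent.N802.Blk

/-!
# The sum of `|R|² D` over the zeros, `D` a rough Dirichlet polynomial
-/

open Complex Filter Topology Set MeasureTheory

namespace Pool.Agent.N802

open TC

section

variable {C T : ℝ} {Z : Finset ℝ} {m : ℝ → ℕ} {τ H dd Y G e0 y K0 : ℝ} {N X : ℕ}
    {S : Finset ℕ}

/-- the rough numbers up to `N` -/
noncomputable def NR (N : ℕ) (y : ℝ) : Finset ℕ :=
  (Finset.Icc 2 N).filter fun n => ¬ ((n.minFac : ℝ) ≤ y)

lemma mem_NR {N : ℕ} {y : ℝ} {n : ℕ} : n ∈ NR N y ↔ (2 ≤ n ∧ n ≤ N) ∧ y < (n.minFac : ℝ) := by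
  unfold NR
  rw [Finset.mem_filter, Finset.mem_Icc, not_le]

lemma lam_npp {n : ℕ} (h : ¬ IsPrimePow n) : lam n = 0 := by
  unfold lam
  rw [ArithmeticFunction.vonMangoldt_eq_zero_iff.mpr h]
  simp

/-- **the rough part** -/
lemma Cx.rough (h : Cx C T Z m τ H dd Y G e0 y K0 N X S) (r : ℕ → ℂ) (a : ℕ → ℝ) {A : ℝ}
    (hA : 0 ≤ A) (ha : ∀ n, |a n| ≤ A * lam n) :
    ‖(∑ g ∈ Z, (m g : ℂ) * ((om τ H g : ℂ) * (((‖RP S r g‖ ^ 2 : ℝ) : ℂ) *
        RP (NR N y) (fun n => (a n : ℂ)) g))) +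
      ((Real.sqrt (2 * Real.pi) * H * w1 S r / (2 * Real.pi) *
        ∑ n ∈ NR N y, a n * qf (Real.log T) n : ℝ) : ℂ)‖ ≤
      Real.sqrt (2 * Real.pi) * H * w1 S r * ((2 * C + 1) * (1 + ∑ n ∈ NR N y, a n ^ 2) +
        e0 * (4 * A * C + (2 * C + 1) * (1 + 4 * A ^ 2) + 4 * A * (C + 3) + 5 * A)) := by
  have hT := h.hT
  have hC := h.hC
  have hH := h.hH
  have hH0 : 0 < H := by linarith
  have hW1 := h.W1
  have hw := w1_nonneg S r
  have hl0 : 0 ≤ Real.log T := by linarith [h.h4]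
  have hell := h.ell
  have he0 := h.enn
  have hpi := Real.pi_pos
  have hpi3 := Real.pi_gt_three
  set ℓ := Real.log T with hℓ
  set w := w1 S r with hwdef
  set WW := Real.sqrt (2 * Real.pi) * H with hWW
  set e1 := Real.exp (-(H ^ 2) / (8 * Y ^ 2)) with he1
  have he1p : 0 < e1 := Real.exp_pos _
  have hE1 := h.E1
  have hsm := h.summ
  have hS0 : ∀ k ∈ S, 0 < k := fun k hk => (h.hS k hk).1
  have hN' : (1 : ℝ) ≤ N := by exact_mod_cast h.hN1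
  have hK1 := h.hK1
  have hn1 := h.n1sqT r
  have hn10 : 0 ≤ n1 S r ^ 2 := sq_nonneg _
  have hNr : ∀ n ∈ NR N y, 2 ≤ n ∧ y < (n.minFac : ℝ) := fun n hn => by
    rw [mem_NR] at hn
    exact ⟨hn.1.1, hn.2⟩
  have hNr0 : ∀ n ∈ NR N y, 0 < n := fun n hn => by have := (hNr n hn).1; omega
  have hNrN : ∀ n ∈ NR N y, n ≤ N := fun n hn => by
    rw [mem_NR] at hn
    exact hn.1.2
  set α : ℕ → ℂ := fun n => (a n : ℂ) with hα
  have hαpp : ∀ n, ¬ IsPrimePow n → α n = 0 := by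
    intro n hn
    have h1 := ha n
    rw [lam_npp hn, mul_zero] at h1
    have h2 : a n = 0 := abs_nonpos_iff.mp h1
    simp only [hα, h2, ofReal_zero]
  have hqpp : ∀ n, ¬ IsPrimePow n → ((qf ℓ n : ℝ) : ℂ) = 0 := by
    intro n hn
    have h1 := qf_abs hl0 n
    rw [lam_npp hn] at h1
    have h2 : qf ℓ n = 0 := abs_nonpos_iff.mp h1
    rw [h2, ofReal_zero]
  set D := RP (NR N y) α with hD
  -- sizes
  have hn1a : n1 (NR N y) α ≤ 2 * A * T := by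
    have a1 : ∀ n ∈ NR N y, ‖α n‖ ≤ 2 * A := by
      intro n _
      simp only [hα]
      rw [Complex.norm_real, Real.norm_eq_abs]
      have := lam_le_two n
      have h2 := ha n
      nlinarith
    have a2 : n1 (NR N y) α ≤ (NR N y).card * (2 * A) := by
      unfold n1
      have := Finset.sum_le_card_nsmul _ _ _ a1
      rwa [nsmul_eq_mul] at this
    have a3 : ((NR N y).card : ℝ) ≤ T := by
      have : (NR N y).card ≤ N := by
        unfold NR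
        refine (Finset.card_filter_le _ _).trans ?_
        rw [Nat.card_Icc]
        omega
      calc ((NR N y).card : ℝ) ≤ N := by exact_mod_cast this
        _ ≤ T := h.hNT
    calc n1 (NR N y) α ≤ (NR N y).card * (2 * A) := a2
      _ ≤ T * (2 * A) := by gcongr
      _ = _ := by ring
  have hn1a0 := n1_nonneg (NR N y) α
  have hn1q : n1 (Finset.Icc 2 X) (fun n => (qf ℓ n : ℂ)) ≤ 2 * T ^ 3 := by
    have a1 : n1 (Finset.Icc 2 X) (fun n => (qf ℓ n : ℂ)) = ∑ n ∈ Finset.Icc 2 X, |qf ℓ n| := by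
      unfold n1
      refine Finset.sum_congr rfl fun n _ => ?_
      rw [Complex.norm_real, Real.norm_eq_abs]
    rw [a1]
    have a2 := sum_qf_abs hl0 X
    have a3 := h.hXT
    linarith
  have hn1q0 := n1_nonneg (Finset.Icc 2 X) (fun n => (qf ℓ n : ℂ))
  -- reproducing kernel
  set P := TP ((S ×ˢ S) ×ˢ NR N y) (fun x => uc r x.1 * α x.2) (fun x => x.1.1 * x.2)
    (fun x => x.1.2 * 1) with hP
  have hPeq : ∀ t, P t = ((‖RP S r t‖ ^ 2 : ℝ) : ℂ) * D t := fun t =>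
    (UD_eq S r hS0 (NR N y) α hNr0 t).symm
  have hPn : n1 ((S ×ˢ S) ×ˢ NR N y) (fun x => uc r x.1 * α x.2) ≤ 2 * A * T ^ 2 * w := by
    rw [n1_mul, n1_uc]
    calc n1 S r ^ 2 * n1 (NR N y) α ≤ (T * w) * (2 * A * T) := by gcongr
      _ = _ := by ring
  have hPn0 := n1_nonneg ((S ×ˢ S) ×ˢ NR N y) (fun x => uc r x.1 * α x.2)
  have hPb : ∀ t, ‖P t‖ ≤ n1 ((S ×ˢ S) ×ˢ NR N y) (fun x => uc r x.1 * α x.2) := fun t =>
    TP_norm_le _ _ _ _ _
  have hPc : Continuous P := TP_cont _ _ _ _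
  have hrk := rk_TP ((S ×ˢ S) ×ˢ NR N y) (fun x => uc r x.1 * α x.2) (fun x => x.1.1 * x.2)
    (fun x => x.1.2 * 1) Z m τ H ℓ G hH h.hG hl0
    (fun x hx => by
      rw [Finset.mem_product, Finset.mem_product] at hx
      have a1 := h.hS _ hx.1.1
      have a2 := h.hS _ hx.1.2
      have b1 : (1 : ℝ) ≤ x.1.1 := by exact_mod_cast a1.1
      have b2 : (1 : ℝ) ≤ x.1.2 := by exact_mod_cast a2.1
      have b3 : (1 : ℝ) ≤ x.2 := by exact_mod_cast hNr0 _ hx.2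
      have b4 : (x.2 : ℝ) ≤ N := by exact_mod_cast hNrN _ hx.2
      have hKN1 : K0 ≤ K0 * N := le_mul_of_one_le_right (by linarith) hN'
      have b5 : (1 : ℝ) ≤ (x.1.1 : ℝ) * x.2 := ax4 b1 b3
      have c1 : Real.log ((x.1.1 * x.2 : ℕ) : ℝ) ≤ Real.log (K0 * N) := by
        push_cast
        apply Real.log_le_log (by linarith)
        have := a1.2.1
        gcongr
      have c2 : Real.log ((x.1.2 * 1 : ℕ) : ℝ) ≤ Real.log (K0 * N) := by
        push_cast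
        rw [mul_one]
        exact Real.log_le_log (by linarith) (a2.2.1.trans hKN1)
      have c3 : 0 ≤ Real.log ((x.1.1 * x.2 : ℕ) : ℝ) := by
        push_cast
        exact Real.log_nonneg b5
      have c4 : 0 ≤ Real.log ((x.1.2 * 1 : ℕ) : ℝ) := by
        push_cast
        rw [mul_one]
        exact Real.log_nonneg b2
      have c5 : |Real.log ((x.1.2 * 1 : ℕ) : ℝ) - Real.log ((x.1.1 * x.2 : ℕ) : ℝ)| ≤
          Real.log (K0 * N) := by
        rw [abs_le]; constructor <;> linarith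
      linarith [h.hKG])
  rw [← hP] at hrk
  have hcore := core h.hE hC h.h4 P hPc _ hPb τ H dd hH0 h.hd h.h1 h.h2 X h.hX
  have htail := h.tail hw hPn0 2 (by norm_num) (c := 2 * A) (by positivity) hPn
  -- the integral of `‖P‖`
  have hcU : Continuous fun t => ‖RP S r t‖ ^ 2 := (RP_cont S r).norm.pow 2
  have hbU : ∀ t, |‖RP S r t‖ ^ 2| ≤ n1 S r ^ 2 := fun t => by
    rw [abs_of_nonneg (sq_nonneg _)]
    exact pow_le_pow_left₀ (norm_nonneg _) (RP_norm S r t) 2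
  have hDb : ∀ t, ‖D t‖ ≤ n1 (NR N y) α := fun t => RP_norm _ _ t
  have hDc : Continuous D := RP_cont _ _
  have iU : Integrable fun t => om τ H t * ‖RP S r t‖ ^ 2 := om_mul_integrable hH0 hcU hbU
  have iUD : Integrable fun t => om τ H t * (‖RP S r t‖ ^ 2 * ‖D t‖ ^ 2) := by
    refine om_mul_integrable (K := n1 S r ^ 2 * n1 (NR N y) α ^ 2) hH0 (hcU.mul (hDc.norm.pow 2))
      fun t => ?_
    rw [abs_mul]
    apply mul_le_mul (hbU t) _ (abs_nonneg _) hn10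
    rw [abs_of_nonneg (sq_nonneg _)]
    exact pow_le_pow_left₀ (norm_nonneg _) (hDb t) 2
  have hi0 := h.int0 r
  set I0 := ∫ t, om τ H t * ‖RP S r t‖ ^ 2 with hI0
  set I2 := ∫ t, om τ H t * (‖RP S r t‖ ^ 2 * ‖D t‖ ^ 2) with hI2
  have hnP : ∫ t : ℝ, om τ H t * ‖P t‖ ≤ (I0 + I2) / 2 := by
    have e : (I0 + I2) / 2 = ∫ t, (1 / 2 * (om τ H t * ‖RP S r t‖ ^ 2) +
        1 / 2 * (om τ H t * (‖RP S r t‖ ^ 2 * ‖D t‖ ^ 2))) := by
      rw [integral_add (iU.const_mul _) (iUD.const_mul _), integral_const_mul, integral_const_mul]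
      ring
    rw [e]
    apply integral_mono
    · exact om_mul_integrable hH0 hPc.norm (fun t => by rw [abs_norm]; exact hPb t)
    · exact (iU.const_mul _).add (iUD.const_mul _)
    · intro t
      simp only
      rw [hPeq t, norm_mul, Complex.norm_real, Real.norm_of_nonneg (sq_nonneg _)]
      have a1 := om_pos τ H t
      have a2 : 0 ≤ ‖RP S r t‖ ^ 2 := sq_nonneg _
      have a3 : 0 ≤ om τ H t * ‖RP S r t‖ ^ 2 := mul_nonneg a1.le a2
      have a4 : 0 ≤ (om τ H t * ‖RP S r t‖ ^ 2) * (‖D t‖ - 1) ^ 2 := mul_nonneg a3 (sq_nonneg _)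
      nlinarith
  -- `I2`
  have hi3a := h.int3 r (NR N y) α hNr hNrN hαpp (NR N y) α hNr0 hαpp
  have eI2 : ∫ t, (om τ H t : ℂ) * ((((‖RP S r t‖ ^ 2 : ℝ) : ℂ) * RP (NR N y) α t) *
        (starRingEnd ℂ) (RP (NR N y) α t)) = ((I2 : ℝ) : ℂ) := by
    rw [hI2, ← integral_complex_ofReal]
    congr 1
    funext t
    rw [← hD, mul_assoc (((‖RP S r t‖ ^ 2 : ℝ)) : ℂ), Complex.mul_conj']
    push_cast
    ring
  have eV : ∑ n ∈ NR N y ∩ NR N y, α n * (starRingEnd ℂ) (α n) =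
      ((∑ n ∈ NR N y, a n ^ 2 : ℝ) : ℂ) := by
    rw [Finset.inter_self]
    push_cast
    refine Finset.sum_congr rfl fun n _ => ?_
    simp only [hα, Complex.conj_ofReal]
    ring
  rw [eI2, eV, ← ofReal_mul, ← ofReal_mul, ← ofReal_sub, Complex.norm_real, Real.norm_eq_abs] at hi3a
  set V := ∑ n ∈ NR N y, a n ^ 2 with hV
  have hV0 : 0 ≤ V := Finset.sum_nonneg fun _ _ => sq_nonneg _
  -- the main integral
  have hi1 := h.int1 r (NR N y) α hNr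
  have hi2 := h.int2 r (NR N y) α hNr (Finset.Icc 2 X) (fun n => (qf ℓ n : ℂ))
    (fun n hn => by rw [Finset.mem_Icc] at hn; omega)
  have hi3 := h.int3 r (NR N y) α hNr hNrN hαpp (Finset.Icc 2 X) (fun n => (qf ℓ n : ℂ))
    (fun n hn => by rw [Finset.mem_Icc] at hn; omega) hqpp
  have eQ : ∑ n ∈ NR N y ∩ Finset.Icc 2 X, α n * (starRingEnd ℂ) ((qf ℓ n : ℝ) : ℂ) =
      ((∑ n ∈ NR N y, a n * qf ℓ n : ℝ) : ℂ) := by
    have e : NR N y ∩ Finset.Icc 2 X = NR N y := by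
      apply Finset.inter_eq_left.mpr
      intro n hn
      rw [Finset.mem_Icc]
      exact ⟨(hNr n hn).1, (hNrN n hn).trans h.hNX⟩
    rw [e]
    push_cast
    refine Finset.sum_congr rfl fun n _ => ?_
    simp only [hα, Complex.conj_ofReal]
  rw [eQ] at hi3
  set Sq := ∑ n ∈ NR N y, a n * qf ℓ n with hSq
  have hQc : Continuous fun t => DP (qf ℓ) X t := DP_cont _ _
  have hQb : ∀ t, ‖DP (qf ℓ) X t‖ ≤ 2 * T ^ 3 := fun t => by
    rw [DP_eq]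
    exact (RP_norm _ _ t).trans hn1q
  have hint : ∀ (f : ℝ → ℂ) (B : ℝ), Continuous f → (∀ t, ‖f t‖ ≤ B) →
      Integrable fun t => (om τ H t : ℂ) * (P t * f t) := by
    intro f B hf hB
    have i0 := (om_integrable τ H hH0).mul_const
      (n1 ((S ×ˢ S) ×ˢ NR N y) (fun x => uc r x.1 * α x.2) * B)
    refine i0.mono' ((Complex.continuous_ofReal.comp (om_cont τ H)).mul
      (hPc.mul hf)).aestronglyMeasurable (Eventually.of_forall fun t => ?_)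
    rw [norm_mul, norm_mul, Complex.norm_real, Real.norm_eq_abs, abs_of_pos (om_pos τ H t)]
    apply mul_le_mul_of_nonneg_left _ (om_pos τ H t).le
    exact mul_le_mul (hPb t) (hB t) (norm_nonneg _) hPn0
  have hint1 := hint (fun _ => 1) 1 continuous_const (fun t => by simp)
  have hint2 := hint (fun t => DP (qf ℓ) X t) _ hQc hQb
  have hint3 := hint (fun t => (starRingEnd ℂ) (DP (qf ℓ) X t)) (2 * T ^ 3)
    (Complex.continuous_conj.comp hQc) (fun t => by rw [RCLike.norm_conj]; exact hQb t)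
  have hsplit : ∫ t : ℝ, ((om τ H t : ℂ) * P t) * ((ℓ / 2 - (DP (qf ℓ) X t).re : ℝ) : ℂ) =
      (ℓ / 2 : ℝ) * (∫ t, (om τ H t : ℂ) * (P t * 1)) -
        (1 / 2 : ℝ) * (∫ t, (om τ H t : ℂ) * (P t * DP (qf ℓ) X t)) -
        (1 / 2 : ℝ) * (∫ t, (om τ H t : ℂ) * (P t * (starRingEnd ℂ) (DP (qf ℓ) X t))) := by
    have i3 : Integrable fun t => ((ℓ / 2 : ℝ) : ℂ) * ((om τ H t : ℂ) * (P t * 1)) -
        ((1 / 2 : ℝ) : ℂ) * ((om τ H t : ℂ) * (P t * DP (qf ℓ) X t)) :=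
      (hint1.const_mul _).sub (hint2.const_mul _)
    rw [← integral_const_mul, ← integral_const_mul, ← integral_const_mul,
      ← integral_sub (hint1.const_mul _) (hint2.const_mul _), ← integral_sub i3 (hint3.const_mul _)]
    congr 1
    funext t
    have e : (((DP (qf ℓ) X t).re : ℝ) : ℂ) =
        (DP (qf ℓ) X t + (starRingEnd ℂ) (DP (qf ℓ) X t)) / 2 := by
      rw [Complex.re_eq_add_conj]
    rw [ofReal_sub, e]
    push_cast
    ring
  have e1' : ∫ t, (om τ H t : ℂ) * (P t * 1) =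
      ∫ t, (om τ H t : ℂ) * (((‖RP S r t‖ ^ 2 : ℝ) : ℂ) * RP (NR N y) α t) := by
    congr 1
    funext t
    rw [mul_one, hPeq t]
  have e2' : ∫ t, (om τ H t : ℂ) * (P t * DP (qf ℓ) X t) =
      ∫ t, (om τ H t : ℂ) * ((((‖RP S r t‖ ^ 2 : ℝ) : ℂ) * RP (NR N y) α t) *
        RP (Finset.Icc 2 X) (fun n => (qf ℓ n : ℂ)) t) := by
    congr 1
    funext t
    rw [hPeq t, DP_eq]
  have e3' : ∫ t, (om τ H t : ℂ) * (P t * (starRingEnd ℂ) (DP (qf ℓ) X t)) =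
      ∫ t, (om τ H t : ℂ) * ((((‖RP S r t‖ ^ 2 : ℝ) : ℂ) * RP (NR N y) α t) *
        (starRingEnd ℂ) (RP (Finset.Icc 2 X) (fun n => (qf ℓ n : ℂ)) t)) := by
    congr 1
    funext t
    rw [hPeq t, DP_eq]
  rw [e1', e2', e3'] at hsplit
  rw [hsplit] at hcore
  set J1 := ∫ t, (om τ H t : ℂ) * (((‖RP S r t‖ ^ 2 : ℝ) : ℂ) * RP (NR N y) α t) with hJ1
  set J2 := ∫ t, (om τ H t : ℂ) * ((((‖RP S r t‖ ^ 2 : ℝ) : ℂ) * RP (NR N y) α t) *
        RP (Finset.Icc 2 X) (fun n => (qf ℓ n : ℂ)) t) with hJ2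
  set J3 := ∫ t, (om τ H t : ℂ) * ((((‖RP S r t‖ ^ 2 : ℝ) : ℂ) * RP (NR N y) α t) *
        (starRingEnd ℂ) (RP (Finset.Icc 2 X) (fun n => (qf ℓ n : ℂ)) t)) with hJ3
  set JR := ∫ t : ℝ, ((om τ H t : ℂ) * P t) * (RR Z m ℓ t : ℂ) with hJR
  have hsumeq : (∑ g ∈ Z, (m g : ℂ) * ((om τ H g : ℂ) * P g)) =
      ∑ g ∈ Z, (m g : ℂ) * ((om τ H g : ℂ) * (((‖RP S r g‖ ^ 2 : ℝ) : ℂ) * D g)) := by
    refine Finset.sum_congr rfl fun g _ => ?_
    rw [hPeq g]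
  rw [hsumeq] at hrk
  set SA := ∑ g ∈ Z, (m g : ℂ) * ((om τ H g : ℂ) * (((‖RP S r g‖ ^ 2 : ℝ) : ℂ) * D g)) with hSA
  -- numerical part
  have hE3 := h.E3
  set e3 := Real.exp (-(G ^ 2) / 8) with he3
  have he3p : 0 < e3 := Real.exp_pos _
  have hk1 : T ^ 1 * e1 ≤ e0 := pow_le6 hT he1p.le hE1 (by norm_num)
  have hk3 : T ^ 3 * e1 ≤ e0 := pow_le6 hT he1p.le hE1 (by norm_num)
  have hk5 : T ^ 5 * e1 ≤ e0 := pow_le6 hT he1p.le hE1 (by norm_num)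
  have hk4' : T ^ 4 * e3 ≤ e0 := pow_le6 hT he3p.le hE3 (by norm_num)
  have hWw : 0 ≤ WW * w := by positivity
  have b0 : I0 ≤ WW * w * (1 + e0) := by
    have := (abs_le.mp hi0).2
    rw [pow_one] at hk1
    have h3 := mul_le_mul_of_nonneg_left hk1 hWw
    linarith
  have b2 : I2 ≤ WW * w * (V + 4 * A ^ 2 * e0) := by
    have := (abs_le.mp hi3a).2
    have h3 : WW * w * (n1 (NR N y) α * n1 (NR N y) α * (T * e1)) ≤ WW * w * (4 * A ^ 2 * e0) := by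
      apply mul_le_mul_of_nonneg_left _ hWw
      calc n1 (NR N y) α * n1 (NR N y) α * (T * e1) ≤ (2 * A * T) * (2 * A * T) * (T * e1) := by
            gcongr
        _ = 4 * A ^ 2 * (T ^ 3 * e1) := by ring
        _ ≤ 4 * A ^ 2 * e0 := by gcongr
    have e : WW * (w * V) = WW * w * V := by ring
    linarith
  have b3 : ∫ t : ℝ, om τ H t * ‖P t‖ ≤ WW * w * ((1 + e0) + (V + 4 * A ^ 2 * e0)) / 2 := by
    refine hnP.trans ?_
    linarith
  have b4 : ‖((ℓ / 2 : ℝ) : ℂ) * J1‖ ≤ WW * w * (A * e0) := by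
    rw [norm_mul, Complex.norm_real, Real.norm_of_nonneg (by linarith)]
    calc ℓ / 2 * ‖J1‖ ≤ T / 2 * (WW * w * ((2 * A * T) * (T * e1))) := by
          apply mul_le_mul (by linarith) _ (norm_nonneg _) (by linarith)
          refine hi1.trans ?_
          gcongr
      _ = WW * w * (A * (T ^ 3 * e1)) := by ring
      _ ≤ _ := by gcongr
  have hsz2 : n1 (NR N y) α * n1 (Finset.Icc 2 X) (fun n => (qf ℓ n : ℂ)) * (T * e1) ≤
      4 * A * e0 := by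
    calc n1 (NR N y) α * n1 (Finset.Icc 2 X) (fun n => (qf ℓ n : ℂ)) * (T * e1) ≤
        (2 * A * T) * (2 * T ^ 3) * (T * e1) := by gcongr
      _ = 4 * A * (T ^ 5 * e1) := by ring
      _ ≤ _ := by gcongr
  have b5 : ‖((1 / 2 : ℝ) : ℂ) * J2‖ ≤ WW * w * (2 * A * e0) := by
    rw [norm_mul, Complex.norm_real, Real.norm_of_nonneg (by norm_num)]
    calc 1 / 2 * ‖J2‖ ≤ 1 / 2 * (WW * w * (4 * A * e0)) := by
          apply mul_le_mul_of_nonneg_left _ (by norm_num)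
          refine hi2.trans ?_
          exact mul_le_mul_of_nonneg_left hsz2 hWw
      _ = _ := by ring
  have b6 : ‖((1 / 2 : ℝ) : ℂ) * J3 - ((WW * w / 2 * Sq : ℝ) : ℂ)‖ ≤ WW * w * (2 * A * e0) := by
    have e : ((1 / 2 : ℝ) : ℂ) * J3 - ((WW * w / 2 * Sq : ℝ) : ℂ) =
        ((1 / 2 : ℝ) : ℂ) * (J3 - ((WW : ℝ) : ℂ) * (((w : ℝ) : ℂ) * ((Sq : ℝ) : ℂ))) := by
      push_cast
      ring
    rw [e, norm_mul, Complex.norm_real, Real.norm_of_nonneg (by norm_num)]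
    calc 1 / 2 * ‖J3 - ((WW : ℝ) : ℂ) * (((w : ℝ) : ℂ) * ((Sq : ℝ) : ℂ))‖ ≤
        1 / 2 * (WW * w * (4 * A * e0)) := by
          apply mul_le_mul_of_nonneg_left _ (by norm_num)
          refine hi3.trans ?_
          exact mul_le_mul_of_nonneg_left hsz2 hWw
      _ = _ := by ring
  have b7 : ‖JR + ((WW * w / 2 * Sq : ℝ) : ℂ)‖ ≤ WW * w * ((2 * C + 1) *
      ((1 + e0) + (V + 4 * A ^ 2 * e0)) / 2 + 2 * (C + 3) * (2 * A) * e0 + 5 * A * e0) := by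
    have e : JR + ((WW * w / 2 * Sq : ℝ) : ℂ) = (JR - (((ℓ / 2 : ℝ) : ℂ) * J1 -
        ((1 / 2 : ℝ) : ℂ) * J2 - ((1 / 2 : ℝ) : ℂ) * J3)) + ((ℓ / 2 : ℝ) : ℂ) * J1 -
        ((1 / 2 : ℝ) : ℂ) * J2 - (((1 / 2 : ℝ) : ℂ) * J3 - ((WW * w / 2 * Sq : ℝ) : ℂ)) := by ring
    rw [e]
    have t1 := norm_sub_le ((JR - (((ℓ / 2 : ℝ) : ℂ) * J1 -
        ((1 / 2 : ℝ) : ℂ) * J2 - ((1 / 2 : ℝ) : ℂ) * J3)) + ((ℓ / 2 : ℝ) : ℂ) * J1 -
        ((1 / 2 : ℝ) : ℂ) * J2) (((1 / 2 : ℝ) : ℂ) * J3 - ((WW * w / 2 * Sq : ℝ) : ℂ))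
    have t2 := norm_sub_le ((JR - (((ℓ / 2 : ℝ) : ℂ) * J1 -
        ((1 / 2 : ℝ) : ℂ) * J2 - ((1 / 2 : ℝ) : ℂ) * J3)) + ((ℓ / 2 : ℝ) : ℂ) * J1)
        (((1 / 2 : ℝ) : ℂ) * J2)
    have t3 := norm_add_le (JR - (((ℓ / 2 : ℝ) : ℂ) * J1 -
        ((1 / 2 : ℝ) : ℂ) * J2 - ((1 / 2 : ℝ) : ℂ) * J3)) (((ℓ / 2 : ℝ) : ℂ) * J1)
    have t4 : (2 * C + 1) * (∫ t : ℝ, om τ H t * ‖P t‖) ≤
        (2 * C + 1) * (WW * w * ((1 + e0) + (V + 4 * A ^ 2 * e0)) / 2) :=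
      mul_le_mul_of_nonneg_left b3 (by linarith)
    linarith [hcore, htail]
  have b8 : 2 * (∑ g ∈ Z, (m g : ℝ)) * n1 ((S ×ˢ S) ×ˢ NR N y) (fun x => uc r x.1 * α x.2) * e3 ≤
      WW * w * (4 * A * C * e0) := by
    have hsm0 : 0 ≤ ∑ g ∈ Z, (m g : ℝ) := Finset.sum_nonneg fun _ _ => Nat.cast_nonneg _
    calc 2 * (∑ g ∈ Z, (m g : ℝ)) * n1 ((S ×ˢ S) ×ˢ NR N y) (fun x => uc r x.1 * α x.2) * e3 ≤
        2 * (C * T ^ 2) * (2 * A * T ^ 2 * w) * e3 := by gcongr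
      _ = w * (4 * A * C * (T ^ 4 * e3)) := by ring
      _ ≤ w * (4 * A * C * e0) := by gcongr
      _ ≤ WW * w * (4 * A * C * e0) := by
          apply mul_le_mul_of_nonneg_right _ (by positivity)
          exact le_mul_of_one_le_left hw hW1
  have hpi1 : 1 / Real.pi ≤ 1 := by
    rw [div_le_one hpi]; linarith
  have b9 : ‖((1 / Real.pi : ℝ) : ℂ) * (JR + ((WW * w / 2 * Sq : ℝ) : ℂ))‖ ≤
      WW * w * ((2 * C + 1) *
      ((1 + e0) + (V + 4 * A ^ 2 * e0)) / 2 + 2 * (C + 3) * (2 * A) * e0 + 5 * A * e0) := by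
    rw [norm_mul, Complex.norm_real, Real.norm_of_nonneg (by positivity)]
    calc 1 / Real.pi * ‖JR + ((WW * w / 2 * Sq : ℝ) : ℂ)‖ ≤ 1 * ‖JR + ((WW * w / 2 * Sq : ℝ) : ℂ)‖ :=
          mul_le_mul_of_nonneg_right hpi1 (norm_nonneg _)
      _ ≤ _ := by rw [one_mul]; exact b7
  have e9 : SA + ((WW * w / (2 * Real.pi) * Sq : ℝ) : ℂ) =
      (SA - ((1 / Real.pi : ℝ) : ℂ) * JR) +
        ((1 / Real.pi : ℝ) : ℂ) * (JR + ((WW * w / 2 * Sq : ℝ) : ℂ)) := by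
    have hpi' : (Real.pi : ℂ) ≠ 0 := by exact_mod_cast hpi.ne'
    push_cast
    field_simp
    ring
  rw [e9]
  refine (norm_add_le _ _).trans ((add_le_add (hrk.trans b8) b9).trans ?_)
  have hfin : 4 * A * C * e0 + ((2 * C + 1) * ((1 + e0) + (V + 4 * A ^ 2 * e0)) / 2 +
      2 * (C + 3) * (2 * A) * e0 + 5 * A * e0) ≤ (2 * C + 1) * (1 + V) +
        e0 * (4 * A * C + (2 * C + 1) * (1 + 4 * A ^ 2) + 4 * A * (C + 3) + 5 * A) := by
    have p1 : 0 ≤ (2 * C + 1) * (1 + V) := by positivity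
    have p2 : 0 ≤ e0 * ((2 * C + 1) * (1 + 4 * A ^ 2)) := by positivity
    linarith
  have := mul_le_mul_of_nonneg_left hfin hWw
  linarith

end

end Pool.Agent.N802
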