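import Pool.Agent.N802.Blk2
import Pool.Agent.W198.TC.BlockA

/-!
# The sum of `|R|²` times the number of neighbours over the zeros
-/

open Complex Filter Topology Set MeasureTheory

namespace Pool.Agent.N802

open TC

section

variable {C T : ℝ} {Z : Finset ℝ} {m : ℝ → ℕ} {τ H dd Y G e0 y K0 : ℝ} {N X : ℕ}
    {S : Finset ℕ}

lemma XX_norm {C T : ℝ} {Z : Finset ℝ} {m : ℝ → ℕ} (hE : EFD C T Z m) {hh : ℝ → ℝ} {B : ℝ}
    (hB : ∀ ξ, |hh ξ| ≤ B) (M t : ℝ) : ‖XX Z m hh M t‖ ≤ B * (C * Real.log T) := by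
  have hB0 : 0 ≤ B := (abs_nonneg _).trans (hB 0)
  unfold XX
  have h := intervalIntegral.norm_integral_le_of_norm_le_const (a := 0) (b := 1)
    (f := fun ξ => (hh ξ : ℂ) * FF Z m (M * ξ) t) (C := B * (C * Real.log T)) (fun ξ _ => by
      rw [norm_mul, Complex.norm_real, Real.norm_eq_abs]
      exact mul_le_mul (hB ξ) ((FF_norm_le Z m _ t).trans (hE.loc t)) (norm_nonneg _) hB0)
  simpa using h

/-- **the sum over the zeros of `|R|²` times the window sum** -/
lemma Cx.ksum (h : Cx C T Z m τ H dd Y G e0 y K0 N X S) (r : ℕ → ℂ) {hh : ℝ → ℝ} {B M c0 η0 : ℝ}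
    (hB : ∀ ξ, |hh ξ| ≤ B) (hM : 0 < M) (hc0 : 0 ≤ c0) (hη0 : 0 ≤ η0)
    (hXX : ∀ t : ℝ, T + Real.log T ≤ t → t ≤ 2 * T - Real.log T →
      ‖XX Z m hh M t - ((c0 : ℝ) - DP (cf hh M) N t)‖ ≤ η0) :
    ∑ g ∈ Z, (m g : ℝ) * (om τ H g * ‖RP S r g‖ ^ 2 * (XX Z m hh M g).re) ≤
      (c0 + η0 + 48 * (B / M) * Real.sqrt y) *
        (∑ g ∈ Z, (m g : ℝ) * (om τ H g * ‖RP S r g‖ ^ 2)) +
      Real.sqrt (2 * Real.pi) * H * w1 S r / (2 * Real.pi) *
        (∑ n ∈ NR N y, cf hh M n * qf (Real.log T) n) +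
      Real.sqrt (2 * Real.pi) * H * w1 S r *
        ((2 * C + 1) * (1 + ∑ n ∈ NR N y, cf hh M n ^ 2) +
        e0 * (4 * (B / M) * C + (2 * C + 1) * (1 + 4 * (B / M) ^ 2) + 4 * (B / M) * (C + 3) +
          5 * (B / M) + C * (B * C + 2 * (B / M)))) := by
  have hT := h.hT
  have hC := h.hC
  have hH := h.hH
  have hH0 : 0 < H := by linarith
  have hW1 := h.W1
  have hw := w1_nonneg S r
  have hl0 : 0 ≤ Real.log T := by linarith [h.h4]
  have hell := h.ell
  have he0 := h.enn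
  have hB0 : 0 ≤ B := (abs_nonneg _).trans (hB 0)
  set ℓ := Real.log T with hℓ
  set A := B / M with hA
  have hA0 : 0 ≤ A := by positivity
  have ha : ∀ n, |cf hh M n| ≤ A * lam n := fun n => cf_abs hB hM n
  have hrough := h.rough r (cf hh M) hA0 ha
  set D := RP (NR N y) (fun n => ((cf hh M n : ℝ) : ℂ)) with hD
  set Ds := RP ((Finset.Icc 2 N).filter fun n => (n.minFac : ℝ) ≤ y)
    (fun n => ((cf hh M n : ℝ) : ℂ)) with hDs
  have hsplit : ∀ t, DP (cf hh M) N t = Ds t + D t := fun t => by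
    rw [DP_eq, RP_split _ _ (fun n => (n.minFac : ℝ) ≤ y)]
    rfl
  have hDsb : ∀ t, |(Ds t).re| ≤ 48 * A * Real.sqrt y := by
    intro t
    refine (Complex.abs_re_le_norm _).trans ((RP_norm _ _ t).trans ?_)
    have h1 : n1 ((Finset.Icc 2 N).filter fun n => (n.minFac : ℝ) ≤ y)
        (fun n => ((cf hh M n : ℝ) : ℂ)) ≤
        A * ∑ n ∈ (Finset.Icc 2 N).filter (fun n => (n.minFac : ℝ) ≤ y), lam n := by
      unfold n1
      rw [Finset.mul_sum]
      apply Finset.sum_le_sum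
      intro n _
      rw [Complex.norm_real, Real.norm_eq_abs]
      exact ha n
    refine h1.trans ?_
    have h2 := smooth_sum N y (by linarith [h.hy])
    calc A * _ ≤ A * (48 * Real.sqrt y) := mul_le_mul_of_nonneg_left h2 hA0
      _ = _ := by ring
  have hDb : ∀ t, |(D t).re| ≤ 2 * A * T := by
    intro t
    refine (Complex.abs_re_le_norm _).trans ((RP_norm _ _ t).trans ?_)
    unfold n1
    have a1 : ∀ n ∈ NR N y, ‖((cf hh M n : ℝ) : ℂ)‖ ≤ 2 * A := by
      intro n _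
      rw [Complex.norm_real, Real.norm_eq_abs]
      have := lam_le_two n
      have h2 := ha n
      nlinarith
    have a2 := Finset.sum_le_card_nsmul _ _ _ a1
    rw [nsmul_eq_mul] at a2
    have a3 : ((NR N y).card : ℝ) ≤ T := by
      have : (NR N y).card ≤ N := by
        unfold NR
        refine (Finset.card_filter_le _ _).trans ?_
        rw [Nat.card_Icc]
        omega
      calc ((NR N y).card : ℝ) ≤ N := by exact_mod_cast this
        _ ≤ T := h.hNT
    calc _ ≤ ((NR N y).card : ℝ) * (2 * A) := a2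
      _ ≤ T * (2 * A) := by gcongr
      _ = _ := by ring
  set κ := Real.exp (-(dd ^ 2) / (4 * H ^ 2)) with hκ
  have hκ0 : 0 < κ := Real.exp_pos _
  set c1 := c0 + η0 + 48 * A * Real.sqrt y with hc1
  have hc10 : 0 ≤ c1 := by positivity
  have hn1 := h.n1sqT r
  -- pointwise
  have hpt : ∀ g, om τ H g * ‖RP S r g‖ ^ 2 * (XX Z m hh M g).re ≤
      om τ H g * ‖RP S r g‖ ^ 2 * c1 - om τ H g * ‖RP S r g‖ ^ 2 * (D g).re +
        κ * (T * w1 S r) * (B * C * T + 2 * A * T) := by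
    intro g
    have hom := om_pos τ H g
    have hU0 : 0 ≤ ‖RP S r g‖ ^ 2 := sq_nonneg _
    have hUb : ‖RP S r g‖ ^ 2 ≤ T * w1 S r :=
      (pow_le_pow_left₀ (norm_nonneg _) (RP_norm S r g) 2).trans hn1
    have hw0 : 0 ≤ om τ H g * ‖RP S r g‖ ^ 2 := mul_nonneg hom.le hU0
    have ht0 : 0 ≤ κ * (T * w1 S r) * (B * C * T + 2 * A * T) := by positivity
    by_cases hnear : T + ℓ ≤ g ∧ g ≤ 2 * T - ℓ
    · have h5 := (Complex.abs_re_le_norm _).trans (hXX g hnear.1 hnear.2)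
      rw [sub_re, sub_re, ofReal_re, hsplit g, add_re] at h5
      have h6 := (abs_le.1 h5).2
      have h7 := (abs_le.1 (hDsb g)).1
      have h8 : (XX Z m hh M g).re ≤ c1 - (D g).re := by linarith
      have h9 := mul_le_mul_of_nonneg_left h8 hw0
      linarith
    · have hfar : dd ≤ |g - τ| := by
        have e1 := h.h1
        have e2 := h.h2
        rw [not_and_or, not_le, not_le] at hnear
        rcases hnear with hn | hn
        · have : dd ≤ -(g - τ) := by linarith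
          exact this.trans (neg_le_abs _)
        · have : dd ≤ g - τ := by linarith
          exact this.trans (le_abs_self _)
      have h5 : om τ H g ≤ κ := by
        refine (om_far hH0 h.hd hfar).trans ?_
        exact mul_le_of_le_one_right hκ0.le (om_le_one _ _ _)
      have h6 := (Complex.abs_re_le_norm _).trans (XX_norm h.hE hB M g)
      have h7 := (abs_le.1 h6).2
      have h8 := (abs_le.1 (hDb g)).2
      have h9 : B * (C * ℓ) ≤ B * C * T := by
        rw [mul_assoc]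
        exact mul_le_mul_of_nonneg_left (mul_le_mul_of_nonneg_left hell hC.le) hB0
      have h10 : (XX Z m hh M g).re - c1 + (D g).re ≤ B * C * T + 2 * A * T := by linarith
      have h11 : om τ H g * ‖RP S r g‖ ^ 2 * ((XX Z m hh M g).re - c1 + (D g).re) ≤
          om τ H g * ‖RP S r g‖ ^ 2 * (B * C * T + 2 * A * T) :=
        mul_le_mul_of_nonneg_left h10 hw0
      have h12 : om τ H g * ‖RP S r g‖ ^ 2 * (B * C * T + 2 * A * T) ≤
          κ * (T * w1 S r) * (B * C * T + 2 * A * T) := by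
        apply mul_le_mul_of_nonneg_right _ (by positivity)
        exact mul_le_mul h5 hUb hU0 hκ0.le
      linarith
  have hsum : ∑ g ∈ Z, (m g : ℝ) * (om τ H g * ‖RP S r g‖ ^ 2 * (XX Z m hh M g).re) ≤
      ∑ g ∈ Z, (m g : ℝ) * (om τ H g * ‖RP S r g‖ ^ 2 * c1 - om τ H g * ‖RP S r g‖ ^ 2 * (D g).re +
        κ * (T * w1 S r) * (B * C * T + 2 * A * T)) :=
    Finset.sum_le_sum fun g _ => mul_le_mul_of_nonneg_left (hpt g) (Nat.cast_nonneg _)
  have hexp : ∑ g ∈ Z, (m g : ℝ) * (om τ H g * ‖RP S r g‖ ^ 2 * c1 -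
      om τ H g * ‖RP S r g‖ ^ 2 * (D g).re + κ * (T * w1 S r) * (B * C * T + 2 * A * T)) =
      c1 * (∑ g ∈ Z, (m g : ℝ) * (om τ H g * ‖RP S r g‖ ^ 2)) -
      (∑ g ∈ Z, (m g : ℂ) * ((om τ H g : ℂ) * (((‖RP S r g‖ ^ 2 : ℝ) : ℂ) * D g))).re +
      (∑ g ∈ Z, (m g : ℝ)) * (κ * (T * w1 S r) * (B * C * T + 2 * A * T)) := by
    rw [Complex.re_sum, Finset.mul_sum, Finset.sum_mul, ← Finset.sum_sub_distrib,
      ← Finset.sum_add_distrib]
    refine Finset.sum_congr rfl fun g _ => ?_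
    have e : ((m g : ℂ) * ((om τ H g : ℂ) * (((‖RP S r g‖ ^ 2 : ℝ) : ℂ) * D g))).re =
        (m g : ℝ) * (om τ H g * (‖RP S r g‖ ^ 2 * (D g).re)) := by
      rw [show (m g : ℂ) = ((m g : ℝ) : ℂ) by push_cast; rfl, Complex.re_ofReal_mul,
        Complex.re_ofReal_mul, Complex.re_ofReal_mul]
    rw [e]
    ring
  rw [hexp] at hsum
  have hsm := h.summ
  have hsm0 : 0 ≤ ∑ g ∈ Z, (m g : ℝ) := Finset.sum_nonneg fun _ _ => Nat.cast_nonneg _
  have htiny : (∑ g ∈ Z, (m g : ℝ)) * (κ * (T * w1 S r) * (B * C * T + 2 * A * T)) ≤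
      Real.sqrt (2 * Real.pi) * H * w1 S r * (e0 * (C * (B * C + 2 * A))) := by
    have hk4 : T ^ 4 * κ ≤ e0 := pow_le6 hT hκ0.le h.E2 (by norm_num)
    calc (∑ g ∈ Z, (m g : ℝ)) * (κ * (T * w1 S r) * (B * C * T + 2 * A * T)) ≤
        (C * T ^ 2) * (κ * (T * w1 S r) * (B * C * T + 2 * A * T)) :=
          mul_le_mul_of_nonneg_right hsm (by positivity)
      _ = w1 S r * ((C * (B * C + 2 * A)) * (T ^ 4 * κ)) := by ring
      _ ≤ w1 S r * ((C * (B * C + 2 * A)) * e0) := by gcongr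
      _ ≤ (Real.sqrt (2 * Real.pi) * H * w1 S r) * ((C * (B * C + 2 * A)) * e0) := by
          apply mul_le_mul_of_nonneg_right _ (by positivity)
          exact le_mul_of_one_le_left hw hW1
      _ = _ := by ring
  have hre := (Complex.abs_re_le_norm _).trans hrough
  rw [add_re, ofReal_re] at hre
  have hre' := (abs_le.1 hre).1
  linarith

/-- the window sum dominates the number of neighbours -/
lemma XX_ge {Z : Finset ℝ} {m : ℝ → ℕ} {b : ℝ} {hh : ℝ → ℝ} (ha : Adm b hh) {M t r x Q : ℝ}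
    (hM : 0 ≤ M) (hr : M * r ≤ x) (hQ0 : 0 ≤ Q)
    (hpos : ∀ y : ℝ, 0 ≤ ∫ ξ in (0 : ℝ)..1, hh ξ * Real.cos (y * ξ))
    (hQ : ∀ y : ℝ, |y| ≤ x → Q ≤ ∫ ξ in (0 : ℝ)..1, hh ξ * Real.cos (y * ξ)) :
    (kk Z m r t : ℝ) * Q * (1 - r ^ 2 / 2) ≤ (XX Z m hh M t).re := by
  have e0 : (XX Z m hh M t).re = ∑ g ∈ Z, ((m g : ℝ) * Real.exp (-(g - t) ^ 2 / 2)) *
      ∫ ξ in (0 : ℝ)..1, hh ξ * Real.cos ((M * (g - t)) * ξ) := by
    rw [XX_re ha]
    simp_rw [FF_re, Finset.mul_sum]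
    rw [intervalIntegral.integral_finsetSum]
    · apply Finset.sum_congr rfl
      intro g _
      rw [← intervalIntegral.integral_const_mul]
      apply intervalIntegral.integral_congr
      intro ξ _
      simp only
      rw [show M * ξ * (g - t) = M * (g - t) * ξ by ring]
      ring
    · intro g _
      have := adm_int ha (f := fun ξ => (m g : ℝ) * Real.exp (-(g - t) ^ 2 / 2) *
        Real.cos (M * ξ * (g - t))) (by fun_prop)
      exact this
  rw [e0]
  unfold kk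
  push_cast
  rw [Finset.sum_mul, Finset.sum_mul]
  calc ∑ g ∈ Z.filter (fun g' => |g' - t| ≤ r), (m g : ℝ) * Q * (1 - r ^ 2 / 2) ≤
      ∑ g ∈ Z.filter (fun g' => |g' - t| ≤ r),
        ((m g : ℝ) * Real.exp (-(g - t) ^ 2 / 2)) *
          ∫ ξ in (0 : ℝ)..1, hh ξ * Real.cos ((M * (g - t)) * ξ) := by
        apply Finset.sum_le_sum
        intro g hg
        have hg2 := (Finset.mem_filter.1 hg).2
        have h1 : |M * (g - t)| ≤ x := by
          rw [abs_mul, abs_of_nonneg hM]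
          exact (mul_le_mul_of_nonneg_left hg2 hM).trans hr
        have h2 := hQ _ h1
        have h3 : 1 - r ^ 2 / 2 ≤ Real.exp (-(g - t) ^ 2 / 2) := by
          have h4 := Real.add_one_le_exp (-(g - t) ^ 2 / 2)
          have h5 : (g - t) ^ 2 ≤ r ^ 2 := by
            rw [← sq_abs (g - t)]
            exact pow_le_pow_left₀ (abs_nonneg _) hg2 2
          linarith
        have hm : (0 : ℝ) ≤ m g := Nat.cast_nonneg _
        calc (m g : ℝ) * Q * (1 - r ^ 2 / 2) ≤ (m g : ℝ) * Q * Real.exp (-(g - t) ^ 2 / 2) :=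
              mul_le_mul_of_nonneg_left h3 (by positivity)
          _ = (m g : ℝ) * Real.exp (-(g - t) ^ 2 / 2) * Q := by ring
          _ ≤ _ := mul_le_mul_of_nonneg_left h2 (by positivity)
    _ ≤ _ := by
        apply Finset.sum_le_sum_of_subset_of_nonneg (Finset.filter_subset _ _)
        intro g _ _
        have := hpos (M * (g - t))
        positivity

end

end Pool.Agent.N802
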