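import Pool.Agent.W198.TC.CertGen
import Pool.Agent.W32.TC.Pos

/-!
# The window
-/

open Complex Filter Topology Set MeasureTheory

namespace Pool.Agent.N802

open TC
open Pool.Agent.W32.TC (pp pp_eq pos_sq u_lower)

lemma pp_cont : Continuous (pp 1) := by
  have : pp 1 = fun t => 2 * (1 - t) - 2 * 1 * (1 / 6 - t / 2 + t ^ 2 - 2 * t ^ 3 / 3) +
    2 * 1 ^ 2 * (1 / 80 - t / 16 + t ^ 2 / 12 - t ^ 5 / 30) := funext (pp_eq 1)
  rw [this]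
  fun_prop

/-- the window -/
noncomputable def hw : ℝ → ℝ := pw (gr 1) (fun _ => pp 1) 1

lemma gr_one : gr 1 1 = 1 := by simp [gr]

lemma hw_adm : Adm 1 hw := by
  have h := admT (gr 1) (fun _ => pp 1) 1 le_rfl (gr_mono one_pos) (gr_zero 1)
    (gr_le one_pos le_rfl) (fun _ => pp_cont)
  rw [gr_one] at h
  exact h

lemma hw_val {ξ : ℝ} (h0 : 0 ≤ ξ) (h1 : ξ < 1) : hw ξ = pp 1 ξ := by
  unfold hw
  rw [pw_val one_pos (fun _ => pp 1) 1 0 (by rw [gr_zero]; exact h0) (by rw [gr_one]; exact h1)]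
  simp

lemma hw_zero : hw 0 = 203 / 120 := by
  rw [hw_val le_rfl one_pos, pp_eq]
  norm_num

lemma hw_int (f : ℝ → ℝ) : ∫ ξ in (0 : ℝ)..1, hw ξ * f ξ = ∫ ξ in (0 : ℝ)..1, pp 1 ξ * f ξ := by
  apply intervalIntegral.integral_congr_ae
  have hne : ∀ᵐ ξ : ℝ ∂volume, ξ ≠ 1 := by
    rw [ae_iff]
    simp
  filter_upwards [hne] with ξ hξ1 hξ
  rw [uIoc_of_le zero_le_one] at hξ
  rw [hw_val hξ.1.le (lt_of_le_of_ne hξ.2 hξ1)]

lemma hw_pos (y : ℝ) : 0 ≤ ∫ ξ in (0 : ℝ)..1, hw ξ * Real.cos (y * ξ) := by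
  rw [hw_int, pos_sq]
  exact sq_nonneg _

lemma hw_Q {x : ℝ} (hx : 0 ≤ 11 / 12 - 17 / 480 * x ^ 2) (y : ℝ) (hy : |y| ≤ x) :
    (11 / 12 - 17 / 480 * x ^ 2) ^ 2 ≤ ∫ ξ in (0 : ℝ)..1, hw ξ * Real.cos (y * ξ) := by
  rw [hw_int, pos_sq]
  have h2 := u_lower 1 y (by norm_num) (by norm_num)
  have h3 : y ^ 2 ≤ x ^ 2 := by
    rw [← sq_abs y]
    exact pow_le_pow_left₀ (abs_nonneg _) hy 2
  apply pow_le_pow_left₀ hx
  refine le_trans ?_ h2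
  nlinarith

lemma hw_S : ∫ ξ in (0 : ℝ)..1, ξ * hw ξ = 937 / 840 - 203 / 240 := by
  have e : ∫ ξ in (0 : ℝ)..1, ξ * hw ξ = ∫ ξ in (0 : ℝ)..1, hw ξ * ξ :=
    intervalIntegral.integral_congr fun ξ _ => mul_comm _ _
  rw [e, hw_int]
  have key : ∀ x : ℝ, HasDerivAt (fun x : ℝ => 203 / 120 / 2 * x ^ 2 + (-9 / 8) / 3 * x ^ 3 +
      (-11 / 6) / 4 * x ^ 4 + (4 / 3) / 5 * x ^ 5 + (-1 / 15) / 7 * x ^ 7) (pp 1 x * x) x := by
    intro x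
    have h1 := (hasDerivAt_pow 2 x).const_mul (203 / 120 / 2 : ℝ)
    have h2 := (hasDerivAt_pow 3 x).const_mul ((-9 / 8) / 3 : ℝ)
    have h3 := (hasDerivAt_pow 4 x).const_mul ((-11 / 6) / 4 : ℝ)
    have h4 := (hasDerivAt_pow 5 x).const_mul ((4 / 3) / 5 : ℝ)
    have h5 := (hasDerivAt_pow 7 x).const_mul ((-1 / 15) / 7 : ℝ)
    have h := (((h1.add h2).add h3).add h4).add h5
    refine h.congr_deriv ?_
    rw [pp_eq]
    push_cast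
    ring
  rw [intervalIntegral.integral_eq_sub_of_hasDerivAt (fun x _ => key x)
    ((pp_cont.mul continuous_id).intervalIntegrable _ _)]
  norm_num

end Pool.Agent.N802
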