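import Pool.Agent.N802.Blk3
import Pool.Agent.N802.Win

/-!
# The block theorem
-/

open Complex Filter Topology Set MeasureTheory

namespace Pool.Agent.N802

open TC

/-- smooth resonators -/
def Smo (S : Finset ℕ) (K y : ℝ) : Prop :=
  ∀ k ∈ S, 1 ≤ k ∧ (k : ℝ) ≤ K ∧ ∀ p : ℕ, p.Prime → p ∣ k → (p : ℝ) ≤ y

/-- the weighted sum of `F` over the zeros -/
noncomputable def SG (Z : Finset ℝ) (m : ℝ → ℕ) (τ H : ℝ) (S : Finset ℕ) (r : ℕ → ℂ)
    (F : ℝ → ℝ) : ℝ := ∑ g ∈ Z, (m g : ℝ) * (om τ H g * ‖RP S r g‖ ^ 2 * F g)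

/-- the expected mass -/
noncomputable def LW (T H : ℝ) (S : Finset ℕ) (r : ℕ → ℂ) : ℝ :=
  Real.log T / (2 * Real.pi) * (Real.sqrt (2 * Real.pi) * H * w1 S r)

lemma ratio_alg {η ε x ρ : ℝ} (hη : 0 < η) (hη1 : η ≤ 1) (hε : 0 < ε) (hε1 : ε ≤ η / 100)
    (hx0 : 0 ≤ x) (hx : x ≤ η / 10) (hρ : 0 ≤ ρ) (hρ1 : ρ ≤ η / 10) :
    937 / 840 + 9 * ε ≤ (1.32751 + η) * ((11 / 12 - 17 / 480 * x ^ 2) ^ 2 * (1 - ρ ^ 2 / 2)) := by
  have h1 : x ^ 2 ≤ η / 100 := by nlinarith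
  have h2 : ρ ^ 2 ≤ η / 100 := by nlinarith
  have h3 : 11 / 12 - 17 / 48000 * η ≤ 11 / 12 - 17 / 480 * x ^ 2 := by linarith
  have h4 : (11 / 12 - 17 / 48000 * η) ^ 2 ≤ (11 / 12 - 17 / 480 * x ^ 2) ^ 2 :=
    pow_le_pow_left₀ (by linarith) h3 2
  have h5 : 121 / 144 - 1 / 1000 * η ≤ (11 / 12 - 17 / 48000 * η) ^ 2 := by nlinarith
  have h6 : 1 - η / 200 ≤ 1 - ρ ^ 2 / 2 := by linarith
  have h7 : (121 / 144 - 1 / 1000 * η) * (1 - η / 200) ≤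
      (11 / 12 - 17 / 480 * x ^ 2) ^ 2 * (1 - ρ ^ 2 / 2) :=
    mul_le_mul (h5.trans h4) h6 (by linarith) (sq_nonneg _)
  have h8 : 937 / 840 + 9 * ε ≤ (1.32751 + η) * ((121 / 144 - 1 / 1000 * η) * (1 - η / 200)) := by
    nlinarith
  exact h8.trans (mul_le_mul_of_nonneg_left h7 (by linarith))

lemma main_alg {ℓ W Am c0 ε A y' M S1 V V1 K2 K2' C Sq P : ℝ} (hℓ : 0 < ℓ) (hW : 0 ≤ W)
    (hε : 0 < ε) (hε1 : ε ≤ 1 / 100) (hc0 : 0 ≤ c0) (hc1 : c0 ≤ 203 / 240 + ε)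
    (hA : 0 ≤ A) (hy' : 0 ≤ y')
    (hs1 : 48 * A * y' ≤ ε) (hM : M = (1 - ε) * ℓ) (hℓ1 : 2 ≤ ℓ)
    (hAm : Am ≤ (1 + ε) * (ℓ / (2 * Real.pi) * W))
    (hS1 : S1 = 937 / 840 - 203 / 240)
    (hSq : Sq ≤ M * (S1 + ε) + 96 * A * y')
    (hC : 0 < C) (hV : V ≤ V1 + ε) (_hV1 : 0 ≤ V1) (hK : K2 ≤ K2') (hK0 : 0 ≤ K2')
    (hbig : 7 * ((2 * C + 1) * (2 + V1) + K2') ≤ ε * ℓ)
    (hP : P ≤ (c0 + ε + 48 * A * y') * Am + W / (2 * Real.pi) * Sq +
      W * ((2 * C + 1) * (1 + V) + ε * K2)) :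
    P ≤ (937 / 840 + 9 * ε) * (ℓ / (2 * Real.pi) * W) := by
  have hpi := Real.pi_pos
  have hpi3 := Real.pi_gt_three
  have hpi4 : Real.pi < 3.5 := by linarith [Real.pi_lt_d2]
  set L := ℓ / (2 * Real.pi) * W with hL
  have hL0 : 0 ≤ L := by positivity
  have t1 : (c0 + ε + 48 * A * y') * Am ≤ (203 / 240 + 3 * ε) * ((1 + ε) * L) := by
    have a1 : 0 ≤ c0 + ε + 48 * A * y' := by positivity
    calc (c0 + ε + 48 * A * y') * Am ≤ (c0 + ε + 48 * A * y') * ((1 + ε) * L) :=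
          mul_le_mul_of_nonneg_left hAm a1
      _ ≤ (203 / 240 + 3 * ε) * ((1 + ε) * L) := by
          apply mul_le_mul_of_nonneg_right _ (by positivity)
          linarith
  have e1 : W / (2 * Real.pi) = L / ℓ := by
    rw [hL]; field_simp
  have t2 : W / (2 * Real.pi) * Sq ≤ (S1 + 2 * ε) * L := by
    have a1 : Sq ≤ ℓ * (S1 + 2 * ε) := by
      have b1 : M * (S1 + ε) ≤ ℓ * (S1 + ε) := by
        apply mul_le_mul_of_nonneg_right _ (by rw [hS1]; linarith)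
        rw [hM]; nlinarith
      have b2 : 96 * A * y' ≤ 2 * ε := by linarith
      have b3 : 2 * ε ≤ ℓ * ε := by nlinarith
      nlinarith
    rw [e1]
    calc L / ℓ * Sq ≤ L / ℓ * (ℓ * (S1 + 2 * ε)) := mul_le_mul_of_nonneg_left a1 (by positivity)
      _ = _ := by field_simp
  have t3 : W * ((2 * C + 1) * (1 + V) + ε * K2) ≤ ε * L := by
    have a1 : (2 * C + 1) * (1 + V) + ε * K2 ≤ (2 * C + 1) * (2 + V1) + K2' := by
      have b1 : (2 * C + 1) * (1 + V) ≤ (2 * C + 1) * (2 + V1) := by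
        apply mul_le_mul_of_nonneg_left _ (by linarith)
        linarith
      have b2 : ε * K2 ≤ ε * K2' := mul_le_mul_of_nonneg_left hK hε.le
      have b3 : ε * K2' ≤ 1 * K2' := mul_le_mul_of_nonneg_right (by linarith) hK0
      linarith
    have a2 : W * ((2 * C + 1) * (1 + V) + ε * K2) ≤ W * (ε * ℓ / 7) :=
      mul_le_mul_of_nonneg_left (by linarith) hW
    have a3 : W * (ε * ℓ / 7) ≤ ε * L := by
      have b1 : L = W * ℓ / (2 * Real.pi) := by rw [hL]; ring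
      have b2 : W * ℓ / 7 ≤ W * ℓ / (2 * Real.pi) :=
        div_le_div_of_nonneg_left (by positivity) (by positivity) (by linarith)
      rw [b1]
      nlinarith
    linarith
  have t4 : (203 / 240 + 3 * ε) * ((1 + ε) * L) ≤ (203 / 240 + 5 * ε) * L := by
    rw [← mul_assoc]
    apply mul_le_mul_of_nonneg_right _ hL0
    nlinarith
  have t5 : P ≤ (203 / 240 + 5 * ε) * L + (S1 + 2 * ε) * L + ε * L := by linarith
  rw [hS1] at t5
  nlinarith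

lemma smooth_cq {B M ℓ y : ℝ} (N : ℕ) (hB : ∀ ξ, |hw ξ| ≤ B) (hM : 0 < M) (hℓ : 0 ≤ ℓ)
    (hy : 0 ≤ y) : ∑ n ∈ NR N y, cf hw M n * qf ℓ n ≤
      (∑ n ∈ Finset.Icc 2 N, cf hw M n * qf ℓ n) + 96 * (B / M) * Real.sqrt y := by
  have hB0 : 0 ≤ B := (abs_nonneg _).trans (hB 0)
  have h1 := Finset.sum_filter_add_sum_filter_not (Finset.Icc 2 N)
    (fun n => (n.minFac : ℝ) ≤ y) (fun n => cf hw M n * qf ℓ n)
  have h2 : |∑ n ∈ (Finset.Icc 2 N).filter (fun n => (n.minFac : ℝ) ≤ y), cf hw M n * qf ℓ n| ≤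
      96 * (B / M) * Real.sqrt y := by
    refine (Finset.abs_sum_le_sum_abs _ _).trans ?_
    have h3 : ∀ n ∈ (Finset.Icc 2 N).filter (fun n => (n.minFac : ℝ) ≤ y),
        |cf hw M n * qf ℓ n| ≤ 2 * (B / M) * lam n := by
      intro n _
      rw [abs_mul]
      have a1 := cf_abs hB hM n
      have a2 := qf_abs hℓ n
      have a3 := lam_nonneg n
      have a4 := lam_le_two n
      have a5 : 0 ≤ B / M := by positivity
      calc |cf hw M n| * |qf ℓ n| ≤ (B / M * lam n) * lam n :=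
            mul_le_mul a1 a2 (abs_nonneg _) (by positivity)
        _ ≤ (B / M * lam n) * 2 := mul_le_mul_of_nonneg_left a4 (by positivity)
        _ = _ := by ring
    refine (Finset.sum_le_sum h3).trans ?_
    rw [← Finset.mul_sum]
    have h4 := smooth_sum N y hy
    have a5 : 0 ≤ B / M := by positivity
    nlinarith
  have h5 := (abs_le.mp h2).1
  unfold NR
  linarith

lemma small_alg {B ε M s ℓ : ℝ} (hB : 0 ≤ B) (hε : 0 < ε) (hM0 : 0 < M)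
    (hs : s = ε / (1344 * (B + 1))) (hM : M = (1 - ε) * ℓ) (hε2 : ε ≤ 1 / 100) (hℓ : 0 < ℓ) :
    48 * (B / M) * (s * ℓ) ≤ ε := by
  have hs0 : 0 < s := by rw [hs]; positivity
  have h1 : s * (B + 1) = ε / 1344 := by
    rw [hs]
    field_simp
  have h2 : s * B ≤ ε / 1344 := by
    have : s * (B + 1) = s * B + s := by ring
    linarith
  have h3 : ℓ ≤ 2 * M := by
    rw [hM]
    nlinarith
  have h4 : B / M * ℓ ≤ 2 * B := by
    rw [div_mul_eq_mul_div, div_le_iff₀ hM0]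
    calc B * ℓ ≤ B * (2 * M) := mul_le_mul_of_nonneg_left h3 hB
      _ = 2 * B * M := by ring
  calc 48 * (B / M) * (s * ℓ) = 48 * s * (B / M * ℓ) := by ring
    _ ≤ 48 * s * (2 * B) := mul_le_mul_of_nonneg_left h4 (by positivity)
    _ = 96 * (s * B) := by ring
    _ ≤ ε := by linarith

lemma nb_fin {Z : Finset ℝ} {m : ℝ → ℕ} {M ρ ℓ η ε τ H W : ℝ} {S : Finset ℕ} {r : ℕ → ℂ}
    (hη : 0 < η) (hη1 : η ≤ 1) (hε : 0 < ε) (hεη : ε ≤ η / 100) (hM : M = (1 - ε) * ℓ)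
    (hℓ0 : 0 < ℓ) (hM0 : 0 < M) (hℓ1 : 1 ≤ ℓ) (hρ0 : 0 ≤ ρ) (hρ : ρ * ℓ ≤ η / 10)
    (hP : (∑ g ∈ Z, (m g : ℝ) * (om τ H g * ‖RP S r g‖ ^ 2 * (XX Z m hw M g).re)) ≤
      (937 / 840 + 9 * ε) * (ℓ / (2 * Real.pi) * W)) (hW : 0 ≤ ℓ / (2 * Real.pi) * W) :
    SG Z m τ H S r (fun g => (kk Z m ρ g : ℝ)) ≤ (1.32751 + η) * (ℓ / (2 * Real.pi) * W) := by
  have hMρ : M * ρ ≤ η / 10 := by
    have h1 : M ≤ ℓ := by rw [hM]; nlinarith only [hε, hℓ0]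
    calc M * ρ ≤ ℓ * ρ := mul_le_mul_of_nonneg_right h1 hρ0
      _ = ρ * ℓ := mul_comm _ _
      _ ≤ η / 10 := hρ
  have hρ1 : ρ ≤ η / 10 := by
    refine le_trans ?_ hρ
    exact le_mul_of_one_le_right hρ0 hℓ1
  have hx2 : (η / 10) ^ 2 ≤ 1 := by
    have : η / 10 ≤ 1 := by linarith only [hη1]
    exact pow_le_one₀ (by positivity) this
  have hQx : 0 ≤ 11 / 12 - 17 / 480 * (η / 10) ^ 2 := by linarith only [hx2]
  have hkk : ∀ g, (kk Z m ρ g : ℝ) * ((11 / 12 - 17 / 480 * (η / 10) ^ 2) ^ 2 * (1 - ρ ^ 2 / 2)) ≤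
      (XX Z m hw M g).re := by
    intro g
    have := XX_ge (Z := Z) (m := m) hw_adm (M := M) (t := g) (r := ρ) (x := η / 10)
      (Q := (11 / 12 - 17 / 480 * (η / 10) ^ 2) ^ 2) hM0.le hMρ (sq_nonneg _) hw_pos
      (hw_Q hQx)
    rwa [mul_assoc] at this
  have hratio := ratio_alg hη hη1 hε hεη (by positivity : 0 ≤ η / 10) le_rfl hρ0 hρ1
  generalize (11 / 12 - 17 / 480 * (η / 10) ^ 2) ^ 2 * (1 - ρ ^ 2 / 2) = q at hkk hratio
  have hq0 : 0 < q := by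
    have h1 : 0 < 1.32751 + η := by linarith only [hη]
    have h2 : 0 < (1.32751 + η) * q := by linarith only [hratio, hε]
    exact pos_of_mul_pos_right h2 h1.le
  have hfin : SG Z m τ H S r (fun g => (kk Z m ρ g : ℝ)) * q ≤
      (937 / 840 + 9 * ε) * (ℓ / (2 * Real.pi) * W) := by
    refine le_trans ?_ hP
    unfold SG
    rw [Finset.sum_mul]
    apply Finset.sum_le_sum
    intro g _
    have a1 : 0 ≤ (m g : ℝ) * (om τ H g * ‖RP S r g‖ ^ 2) :=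
      mul_nonneg (Nat.cast_nonneg _) (mul_nonneg (om_pos τ H g).le (sq_nonneg _))
    have a2 := mul_le_mul_of_nonneg_left (hkk g) a1
    calc (m g : ℝ) * (om τ H g * ‖RP S r g‖ ^ 2 * (kk Z m ρ g : ℝ)) * q =
        (m g : ℝ) * (om τ H g * ‖RP S r g‖ ^ 2) * ((kk Z m ρ g : ℝ) * q) := by ring
      _ ≤ (m g : ℝ) * (om τ H g * ‖RP S r g‖ ^ 2) * (XX Z m hw M g).re := a2
      _ = _ := by ring
  have h10 : (937 / 840 + 9 * ε) * (ℓ / (2 * Real.pi) * W) ≤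
      ((1.32751 + η) * (ℓ / (2 * Real.pi) * W)) * q := by
    calc (937 / 840 + 9 * ε) * (ℓ / (2 * Real.pi) * W) ≤
        ((1.32751 + η) * q) * (ℓ / (2 * Real.pi) * W) := mul_le_mul_of_nonneg_right hratio hW
      _ = _ := by ring
  exact le_of_mul_le_mul_right (hfin.trans h10) hq0

theorem block_res (C : ℝ) (hC : 0 < C) (η : ℝ) (hη : 0 < η) (hη1 : η ≤ 1) (ε : ℝ) (hε : 0 < ε)
    (hεη : ε ≤ η / 100) :
    ∃ δ T1 : ℝ, 0 < δ ∧ ∀ T τ : ℝ, T1 ≤ T →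
    ∀ (Z : Finset ℝ) (m : ℝ → ℕ), EFD C T Z m →
    T + T ^ (1 - ε / 16) ≤ τ → τ ≤ 2 * T - T ^ (1 - ε / 16) →
    ∀ S : Finset ℕ, Smo S (T ^ δ) (δ * (Real.log T) ^ 2) → ∀ r : ℕ → ℂ,
    |SG Z m τ (T ^ (1 - ε / 8)) S r (fun _ => 1) - LW T (T ^ (1 - ε / 8)) S r| ≤
      η * LW T (T ^ (1 - ε / 8)) S r ∧
    ∀ ρ : ℝ, 0 ≤ ρ → ρ * Real.log T ≤ η / 10 →
      SG Z m τ (T ^ (1 - ε / 8)) S r (fun g => (kk Z m ρ g : ℝ)) ≤
        (1.32751 + η) * LW T (T ^ (1 - ε / 8)) S r := by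
  have hε1 : ε ≤ 1 / 10 := by linarith
  have hε2 : ε ≤ 1 / 100 := by linarith
  obtain ⟨B, hB⟩ := hw_adm.bdd
  have hB0 : 0 ≤ B := (abs_nonneg _).trans (hB 0)
  set V1 := ∫ ξ in (0 : ℝ)..1, ξ * (hw ξ) ^ 2 with hV1
  have hV10 : 0 ≤ V1 := intervalIntegral.integral_nonneg zero_le_one fun ξ hξ =>
    mul_nonneg hξ.1 (sq_nonneg _)
  set s := ε / (1344 * (B + 1)) with hs
  have hs0 : 0 < s := by positivity
  set δ := s ^ 2 with hδ
  have hδ0 : 0 < δ := by positivity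
  have hs1 : s ≤ ε / 1344 := by
    rw [hs]
    apply div_le_div_of_nonneg_left hε.le (by norm_num)
    nlinarith
  have hδ8 : δ ≤ ε / 8 := by
    rw [hδ]
    nlinarith
  obtain ⟨Tc, hTc⟩ := coef C ε ε 1 hw hC hε hε1 hε hw_adm
  obtain ⟨M1, hM1⟩ := sum1 kcumT 1 hw hw_adm ε hε
  obtain ⟨M2, hM2⟩ := sum2 kcumT 1 hw hw_adm (ε / 8) ε (by positivity) hε
  set K2' := 4 * B * C + (2 * C + 1) * (1 + 4 * B ^ 2) + 4 * B * (C + 3) + 5 * B +
    C * (B * C + 2 * B) with hK2'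
  have hK20 : 0 ≤ K2' := by positivity
  have ev1 : ∀ᶠ T : ℝ in atTop, max (max M1 M2) 1 ≤ (1 - ε) * Real.log T :=
    (Real.tendsto_log_atTop.const_mul_atTop (by linarith : 0 < 1 - ε)).eventually_ge_atTop _
  have ev2 : ∀ᶠ T : ℝ in atTop, max (max 4 (1 / s)) (max (14 * (8 * C + 11) / ε)
      (7 * ((2 * C + 1) * (2 + V1) + K2') / ε)) ≤ Real.log T :=
    Real.tendsto_log_atTop.eventually_ge_atTop _
  have ev3 := ev_exp 1 6 (5 * ε / 4) (1 / 8) ε (by positivity) (by norm_num) hε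
  have ev4 := ev_exp 1 6 (ε / 8) (1 / 16) ε (by positivity) (by norm_num) hε
  have ev5 := ev_log 1 6 (9 * ε ^ 2 / 128) ε (by positivity) hε
  have ev6 : ∀ᶠ T : ℝ in atTop, 2 * Real.log T ≤ T ^ (1 - ε / 16) := by
    have h := (isLittleO_log_rpow_atTop (r := 1 - ε / 16) (by linarith)).bound
      (show (0 : ℝ) < 1 / 2 by norm_num)
    filter_upwards [h, eventually_ge_atTop 1] with T hT hT1
    rw [Real.norm_eq_abs, Real.norm_of_nonneg (by positivity),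
      abs_of_nonneg (Real.log_nonneg hT1)] at hT
    linarith
  have ev := ((((((ev1.and ev2).and ev3).and ev4).and ev5).and ev6).and
    (eventually_ge_atTop (1 : ℝ))).and (eventually_ge_atTop Tc)
  obtain ⟨T1, hT1⟩ := eventually_atTop.1 ev
  refine ⟨δ, T1, hδ0, fun T τ hT Z m hE hτ1 hτ2 S hS r => ?_⟩
  obtain ⟨⟨⟨⟨⟨⟨⟨f1, f2⟩, f3⟩, f4⟩, f5⟩, f6⟩, f7⟩, f8⟩ := hT1 T hT
  have hT0 : 0 < T := by linarith
  set ℓ := Real.log T with hℓ
  have g1 : max 4 (1 / s) ≤ ℓ := (le_max_left _ _).trans f2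
  have g2 : max (14 * (8 * C + 11) / ε) (7 * ((2 * C + 1) * (2 + V1) + K2') / ε) ≤ ℓ :=
    (le_max_right _ _).trans f2
  have hℓ4 : 4 ≤ ℓ := (le_max_left _ _).trans g1
  have hℓs : 1 / s ≤ ℓ := (le_max_right _ _).trans g1
  have hbig1 : 14 * (8 * C + 11) ≤ ε * ℓ := by
    have := (le_max_left _ _).trans g2
    rw [div_le_iff₀ hε] at this
    linarith
  have hbig2 : 7 * ((2 * C + 1) * (2 + V1) + K2') ≤ ε * ℓ := by
    have := (le_max_right _ _).trans g2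
    rw [div_le_iff₀ hε] at this
    linarith
  have hℓ0 : 0 < ℓ := by linarith
  have hℓ1 : 1 ≤ ℓ := by linarith
  set M := (1 - ε) * ℓ with hM
  have hMM1 : M1 ≤ M := ((le_max_left _ _).trans (le_max_left _ _)).trans f1
  have hMM2 : M2 ≤ M := ((le_max_right _ _).trans (le_max_left _ _)).trans f1
  have hM1' : 1 ≤ M := (le_max_right _ _).trans f1
  have hM0 : 0 < M := by linarith
  have hx1 : 0 ≤ (1 - ε) * (1 : ℝ) + ε / 8 := ax1 hε hε1 zero_le_one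
  obtain ⟨n1', n2', n3'⟩ := floor_facts f7 hx1
  obtain ⟨n7, n8, n9⟩ := floor_facts f7 (show (0 : ℝ) ≤ 3 by norm_num)
  set N := ⌊T ^ ((1 - ε) * (1 : ℝ) + ε / 8)⌋₊ with hN
  set X := ⌊T ^ (3 : ℝ)⌋₊ with hX
  set H := T ^ (1 - ε / 8) with hH
  set y := δ * ℓ ^ 2 with hy
  have hsy : Real.sqrt y = s * ℓ := by
    rw [hy, hδ, ← mul_pow, Real.sqrt_sq (by positivity)]
  have hsl : 1 ≤ s * ℓ := by
    rw [div_le_iff₀ hs0] at hℓs
    linarith
  have hy1 : 1 ≤ y := by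
    rw [hy, hδ, ← mul_pow]
    exact one_le_pow₀ hsl
  have hH1 : 1 ≤ H := Real.one_le_rpow f7 (by linarith)
  have hH0 : 0 < H := by linarith
  have hNX : N ≤ X := Nat.floor_le_floor (Real.rpow_le_rpow_of_exponent_le f7
    ((ax2 hε hε1 le_rfl).trans (by norm_num)))
  have hNT : (N : ℝ) ≤ T := by
    refine n2'.trans ?_
    conv_rhs => rw [← Real.rpow_one T]
    exact Real.rpow_le_rpow_of_exponent_le f7 (ax2 hε hε1 le_rfl)
  have hXT : (X : ℝ) ≤ T ^ 3 := by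
    refine n8.trans (le_of_eq ?_)
    norm_cast
  have hK1 : 1 ≤ T ^ δ := Real.one_le_rpow f7 hδ0.le
  have hKT : T ^ δ ≤ T := by
    conv_rhs => rw [← Real.rpow_one T]
    exact Real.rpow_le_rpow_of_exponent_le f7 (by linarith)
  have hKN : T ^ δ * N ≤ T ^ (1 - 3 * ε / 4) := by
    calc T ^ δ * (N : ℝ) ≤ T ^ δ * T ^ ((1 - ε) * (1 : ℝ) + ε / 8) := by gcongr
      _ = T ^ (δ + ((1 - ε) * (1 : ℝ) + ε / 8)) := (Real.rpow_add hT0 _ _).symm
      _ ≤ T ^ (1 - 3 * ε / 4) := Real.rpow_le_rpow_of_exponent_le f7 (by linarith)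
  have hN1p : (1 : ℝ) ≤ N := by exact_mod_cast n1'
  set dd := T ^ (1 - ε / 16) / 2 with hdd
  have hdd0 : 0 < dd := by positivity
  have hlogKN : Real.log (T ^ δ * N) + 3 * ε / 4 * ℓ ≤ ℓ := by
    have := Real.log_le_log (by positivity) hKN
    rw [Real.log_rpow hT0, ← hℓ] at this
    linarith
  have hE1 : T ^ 6 * Real.exp (-(H ^ 2) / (8 * (T ^ (1 - 3 * ε / 4)) ^ 2)) ≤ ε := by
    have e1 : H ^ 2 / (T ^ (1 - 3 * ε / 4)) ^ 2 = T ^ (5 * ε / 4) := by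
      rw [hH, ← Real.rpow_natCast, ← Real.rpow_natCast, ← Real.rpow_mul hT0.le,
        ← Real.rpow_mul hT0.le, ← Real.rpow_sub hT0]
      congr 1
      push_cast
      ring
    have e2 : -(H ^ 2) / (8 * (T ^ (1 - 3 * ε / 4)) ^ 2) = -(1 / 8 * T ^ (5 * ε / 4)) := by
      rw [← e1]
      have : T ^ (1 - 3 * ε / 4) ≠ 0 := by positivity
      field_simp
    rw [e2]
    rw [one_mul] at f3
    exact f3
  have hE2 : T ^ 6 * Real.exp (-(dd ^ 2) / (4 * H ^ 2)) ≤ ε := by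
    have e1 : (T ^ (1 - ε / 16)) ^ 2 / H ^ 2 = T ^ (ε / 8) := by
      rw [hH, ← Real.rpow_natCast, ← Real.rpow_natCast, ← Real.rpow_mul hT0.le,
        ← Real.rpow_mul hT0.le, ← Real.rpow_sub hT0]
      congr 1
      push_cast
      ring
    have e2 : -(dd ^ 2) / (4 * H ^ 2) = -(1 / 16 * T ^ (ε / 8)) := by
      rw [← e1, hdd]
      field_simp
      ring
    rw [e2]
    rw [one_mul] at f4
    exact f4
  have hE3 : T ^ 6 * Real.exp (-((3 * ε / 4 * ℓ) ^ 2) / 8) ≤ ε := by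
    have e2 : -((3 * ε / 4 * ℓ) ^ 2) / 8 = -(9 * ε ^ 2 / 128 * ℓ ^ 2) := by ring
    rw [e2]
    rw [one_mul] at f5
    exact f5
  have hCx : Cx C T Z m τ H dd (T ^ (1 - 3 * ε / 4)) (3 * ε / 4 * ℓ) ε y (T ^ δ) N X S :=
    { hE := hE
      hC := hC
      h4 := hℓ4
      hT := f7
      hH := hH1
      hd := hdd0.le
      h1 := by rw [hdd]; linarith
      h2 := by rw [hdd]; linarith
      hX := n9
      hXT := hXT
      hN1 := n1'
      hNT := hNT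
      hNX := hNX
      hK1 := hK1
      hKT := hKT
      hKN := hKN
      hG := by positivity
      hKG := hlogKN
      E1 := hE1
      E2 := hE2
      E3 := hE3
      hy := hy1
      hS := hS }
  -- the mass
  have hmass := hCx.mass r
  set W := Real.sqrt (2 * Real.pi) * H * w1 S r with hW
  have hW0 : 0 ≤ W := by
    have := w1_nonneg S r
    positivity
  have hpi := Real.pi_pos
  have hpi4 : Real.pi < 3.5 := by linarith [Real.pi_lt_d2]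
  have hSG1 : SG Z m τ H S r (fun _ => 1) = ∑ g ∈ Z, (m g : ℝ) * (om τ H g * ‖RP S r g‖ ^ 2) := by
    unfold SG
    simp
  have hLW : LW T H S r = ℓ / (2 * Real.pi) * W := rfl
  have hmassε : |(∑ g ∈ Z, (m g : ℝ) * (om τ H g * ‖RP S r g‖ ^ 2)) - ℓ / (2 * Real.pi) * W| ≤
      ε * (ℓ / (2 * Real.pi) * W) := by
    refine hmass.trans ?_
    rw [hsy]
    have a1 : 2 * C + 1 + 48 * (s * ℓ) + ε * (6 * C + 10 + 48 * (s * ℓ)) ≤ ε * ℓ / 7 := by
      have b1 : s * ℓ ≤ ε / 1344 * ℓ := mul_le_mul_of_nonneg_right hs1 hℓ0.le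
      have b2 : ε * (6 * C + 10 + 48 * (s * ℓ)) ≤ 1 * (6 * C + 10 + 48 * (s * ℓ)) := by
        apply mul_le_mul_of_nonneg_right (by linarith)
        positivity
      nlinarith
    have a2 : W * (ε * ℓ / 7) ≤ ε * (ℓ / (2 * Real.pi) * W) := by
      have b1 : ℓ / 7 ≤ ℓ / (2 * Real.pi) :=
        div_le_div_of_nonneg_left hℓ0.le (by positivity) (by linarith)
      have b2 := mul_le_mul_of_nonneg_right b1 (mul_nonneg hε.le hW0)
      linarith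
    exact (mul_le_mul_of_nonneg_left a1 hW0).trans a2
  have hL0 : 0 ≤ ℓ / (2 * Real.pi) * W := by positivity
  refine ⟨?_, fun ρ hρ0 hρ => ?_⟩
  · rw [hSG1, hLW]
    refine hmassε.trans ?_
    apply mul_le_mul_of_nonneg_right _ hL0
    linarith
  -- the window sum
  set c0 := hw 0 / (2 * (1 - ε)) with hc0
  have hc00 : 0 ≤ c0 := by
    rw [hc0, hw_zero]
    have : 0 < 1 - ε := by linarith
    positivity
  have hc01 : c0 ≤ 203 / 240 + ε := by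
    rw [hc0, hw_zero, div_le_iff₀ (by linarith)]
    nlinarith
  have hksum := hCx.ksum r (hh := hw) (B := B) (M := M) (c0 := c0) (η0 := ε) hB hM0 hc00 hε.le
    (fun t ht1 ht2 => hTc T t f8 Z m hE ht1 ht2)
  have hSqb : (∑ n ∈ NR N y, cf hw M n * qf ℓ n) ≤
      M * ((937 / 840 - 203 / 240) + ε) + 96 * (B / M) * (s * ℓ) := by
    have a1 := smooth_cq (B := B) (M := M) (ℓ := ℓ) (y := y) N hB hM0 hℓ0.le (by linarith)
    rw [hsy] at a1
    have a2 := hM2 M ℓ hMM2 (ax11 hε hε1 hℓ0) N (by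
      have := ax12 (b := 1) hε hℓ0
      exact this.trans n3')
    rw [hw_S] at a2
    have a3 := (abs_le.1 a2).2
    have a4 : (1 / M) * (∑ n ∈ Finset.Icc 2 N, cf hw M n * qf ℓ n) ≤
        (937 / 840 - 203 / 240) + ε := by linarith
    rw [one_div, inv_mul_le_iff₀ hM0] at a4
    linarith
  have hVb : ∑ n ∈ NR N y, cf hw M n ^ 2 ≤ V1 + ε := by
    refine le_trans ?_ (hM1 M hMM1 N)
    apply Finset.sum_le_sum_of_subset_of_nonneg (Finset.filter_subset _ _)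
    intro n _ _
    exact sq_nonneg _
  have hBM : B / M ≤ B := div_le_self hB0 hM1'
  have hBM0 : 0 ≤ B / M := by positivity
  have hs1' : 48 * (B / M) * (s * ℓ) ≤ ε :=
    small_alg hB0 hε hM0 hs hM hε2 hℓ0
  rw [hsy] at hksum
  have hP := main_alg (ℓ := ℓ) (W := W)
    (Am := ∑ g ∈ Z, (m g : ℝ) * (om τ H g * ‖RP S r g‖ ^ 2)) (c0 := c0) (ε := ε) (A := B / M)
    (y' := s * ℓ) (M := M) (S1 := 937 / 840 - 203 / 240) (V := ∑ n ∈ NR N y, cf hw M n ^ 2)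
    (V1 := V1) (K2 := 4 * (B / M) * C + (2 * C + 1) * (1 + 4 * (B / M) ^ 2) +
      4 * (B / M) * (C + 3) + 5 * (B / M) + C * (B * C + 2 * (B / M))) (K2' := K2') (C := C)
    (Sq := ∑ n ∈ NR N y, cf hw M n * qf ℓ n)
    (P := ∑ g ∈ Z, (m g : ℝ) * (om τ H g * ‖RP S r g‖ ^ 2 * (XX Z m hw M g).re))
    hℓ0 hW0 hε hε2 hc00 hc01 hBM0 (by positivity) hs1' hM (by linarith only [hℓ4])
    (by have := (abs_le.1 hmassε).2; linarith only [this]) rfl hSqb hC hVb hV10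
    (by rw [hK2']; gcongr) hK20 hbig2 (by linarith only [hksum])
  -- neighbours
  rw [hLW]
  exact nb_fin hη hη1 hε hεη hM hℓ0 hM0 hℓ1 hρ0 hρ hP (by positivity)

end Pool.Agent.N802
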