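import Pool.Agent.N802.TP

/-!
# The diagonal terms
-/

open Complex Filter Topology Set MeasureTheory

namespace Pool.Agent.N802

/-- the Dirichlet polynomial `∑ r(k) k ^ (- i t)` -/
noncomputable def RP (S : Finset ℕ) (r : ℕ → ℂ) (t : ℝ) : ℂ := TP S r (fun k => k) (fun _ => 1) t

/-- the sum of the squares of the coefficients -/
noncomputable def w1 (S : Finset ℕ) (r : ℕ → ℂ) : ℝ := ∑ k ∈ S, ‖r k‖ ^ 2

lemma w1_nonneg (S : Finset ℕ) (r : ℕ → ℂ) : 0 ≤ w1 S r := Finset.sum_nonneg fun _ _ => sq_nonneg _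

/-- the coefficients of the square of the absolute value -/
noncomputable def uc (r : ℕ → ℂ) (x : ℕ × ℕ) : ℂ := r x.1 * (starRingEnd ℂ) (r x.2)

lemma U_eq (S : Finset ℕ) (r : ℕ → ℂ) (hS : ∀ k ∈ S, 0 < k) (t : ℝ) :
    ((‖RP S r t‖ ^ 2 : ℝ) : ℂ) = TP (S ×ˢ S) (uc r) (fun x => x.1) (fun x => x.2) t := by
  have h1 : ((‖RP S r t‖ ^ 2 : ℝ) : ℂ) = RP S r t * (starRingEnd ℂ) (RP S r t) := by
    rw [Complex.mul_conj']
    push_cast
    rfl
  rw [h1]
  unfold RP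
  rw [TP_conj, TP_mul _ _ _ _ _ _ _ _ (fun x hx => hS x hx) (fun _ _ => one_pos)
    (fun _ _ => one_pos) (fun x hx => hS x hx)]
  unfold TP uc
  refine Finset.sum_congr rfl fun x _ => ?_
  simp

lemma n1_uc (S : Finset ℕ) (r : ℕ → ℂ) : n1 (S ×ˢ S) (uc r) = n1 S r ^ 2 := by
  have h := n1_mul S r S (fun k => (starRingEnd ℂ) (r k))
  unfold uc
  rw [h, sq]
  congr 1
  unfold n1
  refine Finset.sum_congr rfl fun k _ => ?_
  rw [RCLike.norm_conj]

lemma n1_sq_le (S : Finset ℕ) (r : ℕ → ℂ) {K0 : ℝ} (hS : ∀ k ∈ S, 1 ≤ k ∧ (k : ℝ) ≤ K0)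
    (hK : 1 ≤ K0) : n1 S r ^ 2 ≤ K0 * w1 S r := by
  have h1 : n1 S r ^ 2 ≤ S.card * w1 S r := by
    unfold n1 w1
    have := sq_sum_le_card_mul_sum_sq (s := S) (f := fun k => ‖r k‖)
    exact this
  have h2 : (S.card : ℝ) ≤ K0 := by
    have h3 : S ⊆ Finset.Icc 1 ⌊K0⌋₊ := by
      intro k hk
      rw [Finset.mem_Icc]
      exact ⟨(hS k hk).1, Nat.le_floor (hS k hk).2⟩
    have h4 := Finset.card_le_card h3
    rw [Nat.card_Icc, Nat.add_sub_cancel] at h4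
    calc (S.card : ℝ) ≤ (⌊K0⌋₊ : ℝ) := by exact_mod_cast h4
      _ ≤ K0 := Nat.floor_le (by linarith)
  exact h1.trans (mul_le_mul_of_nonneg_right h2 (w1_nonneg S r))

/-- the diagonal of `|R|²` -/
lemma diag0 (S : Finset ℕ) (r : ℕ → ℂ) :
    ∑ x ∈ (S ×ˢ S).filter (fun x => x.1 = x.2), uc r x = ((w1 S r : ℝ) : ℂ) := by
  rw [Finset.sum_filter, Finset.sum_product]
  unfold w1 uc
  push_cast
  refine Finset.sum_congr rfl fun k hk => ?_
  simp only [Finset.sum_ite_eq, if_pos hk]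
  rw [Complex.mul_conj']

/-- smooth times rough is not smooth -/
lemma rough_ne {y : ℝ} {k k' n m : ℕ} (hn : 2 ≤ n) (hny : y < (n.minFac : ℝ)) (hk' : 1 ≤ k')
    (hs : ∀ p : ℕ, p.Prime → p ∣ k' → (p : ℝ) ≤ y) : k * n * m ≠ k' := by
  intro h
  have hp : n.minFac.Prime := Nat.minFac_prime (by omega)
  have h1 : n.minFac ∣ k' := by
    rw [← h]
    exact Dvd.dvd.mul_right (Dvd.dvd.mul_left (Nat.minFac_dvd n) k) m
  have := hs _ hp h1
  linarith

lemma pp_eq {y : ℝ} {k k' n m : ℕ} (hn : IsPrimePow n) (hm : IsPrimePow m)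
    (hny : y < (n.minFac : ℝ)) (hk : 1 ≤ k)
    (hs : ∀ p : ℕ, p.Prime → p ∣ k → (p : ℝ) ≤ y) (hs' : ∀ p : ℕ, p.Prime → p ∣ k' → (p : ℝ) ≤ y)
    (h : k * n = k' * m) : k = k' ∧ n = m := by
  obtain ⟨p, j, hp, hj, rfl⟩ := (isPrimePow_nat_iff n).mp hn
  rw [hp.pow_minFac hj.ne'] at hny
  have hpk : ¬ p ∣ k := fun h1 => by have := hs p hp h1; linarith
  have hpk' : ¬ p ∣ k' := fun h1 => by have := hs' p hp h1; linarith
  have hpm : p ∣ m := by
    have h1 : p ∣ k' * m := by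
      rw [← h]
      exact Dvd.dvd.mul_left (dvd_pow_self p hj.ne') k
    exact ((Nat.Prime.dvd_mul hp).mp h1).resolve_left hpk'
  obtain ⟨q, i, hq, hi, rfl⟩ := (isPrimePow_nat_iff m).mp hm
  have hpq : p = q := by
    have h1 : p ∣ q := hp.dvd_of_dvd_pow hpm
    exact (Nat.prime_dvd_prime_iff_eq hp hq).mp h1
  subst hpq
  have hc : Nat.Coprime (p ^ j) k' := Nat.Coprime.pow_left j ((Nat.Prime.coprime_iff_not_dvd hp).mpr hpk')
  have hc' : Nat.Coprime (p ^ i) k := Nat.Coprime.pow_left i ((Nat.Prime.coprime_iff_not_dvd hp).mpr hpk)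
  have d1 : p ^ j ∣ p ^ i := by
    apply hc.dvd_of_dvd_mul_left
    rw [← h]
    exact Dvd.intro_left k rfl
  have d2 : p ^ i ∣ p ^ j := by
    apply hc'.dvd_of_dvd_mul_left
    rw [h]
    exact Dvd.intro_left k' rfl
  have e : p ^ j = p ^ i := Nat.dvd_antisymm d1 d2
  refine ⟨?_, e⟩
  rw [e] at h
  exact Nat.eq_of_mul_eq_mul_right (Nat.pow_pos hp.pos) h

/-- the diagonal of `|R|² D \bar Q` -/
lemma diag2 (S : Finset ℕ) (r : ℕ → ℂ) {y : ℝ} (Nr Mr : Finset ℕ) (α β : ℕ → ℂ)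
    (hS : ∀ k ∈ S, 1 ≤ k ∧ ∀ p : ℕ, p.Prime → p ∣ k → (p : ℝ) ≤ y)
    (hN : ∀ n ∈ Nr, y < (n.minFac : ℝ)) (hα : ∀ n, ¬ IsPrimePow n → α n = 0)
    (hβ : ∀ n, ¬ IsPrimePow n → β n = 0) :
    ∑ x ∈ (((S ×ˢ S) ×ˢ Nr) ×ˢ Mr).filter
        (fun x => x.1.1.1 * x.1.2 * 1 = x.1.1.2 * 1 * x.2),
      (uc r x.1.1 * α x.1.2) * β x.2 =
      ((w1 S r : ℝ) : ℂ) * ∑ n ∈ Nr ∩ Mr, α n * β n := by
  rw [Finset.sum_filter, Finset.sum_product, Finset.sum_product, Finset.sum_product]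
  unfold w1
  push_cast
  rw [Finset.sum_mul]
  refine Finset.sum_congr rfl fun k hk => ?_
  have h1 : ∀ k' ∈ S, ∑ n ∈ Nr, ∑ m ∈ Mr, (if k * n * 1 = k' * 1 * m then
      (uc r (k, k') * α n) * β m else 0) =
      if k = k' then ((‖r k‖ : ℂ) ^ 2) * ∑ n ∈ Nr ∩ Mr, α n * β n else 0 := by
    intro k' hk'
    by_cases hkk : k = k'
    · subst hkk
      rw [if_pos rfl, Finset.mul_sum]
      have h2 : ∀ n ∈ Nr, ∑ m ∈ Mr, (if k * n * 1 = k * 1 * m then
          (uc r (k, k) * α n) * β m else 0) =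
          if n ∈ Mr then (‖r k‖ : ℂ) ^ 2 * (α n * β n) else 0 := by
        intro n _
        have h3 : ∀ m ∈ Mr, (if k * n * 1 = k * 1 * m then (uc r (k, k) * α n) * β m else 0) =
            if n = m then (uc r (k, k) * α n) * β m else 0 := by
          intro m _
          have : k * n * 1 = k * 1 * m ↔ n = m := by
            rw [mul_one, mul_one]
            constructor
            · intro h; exact Nat.eq_of_mul_eq_mul_left (hS k hk).1 h
            · rintro rfl; rfl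
          simp only [this]
        rw [Finset.sum_congr rfl h3, Finset.sum_ite_eq]
        split_ifs
        · unfold uc
          rw [Complex.mul_conj']
          ring
        · rfl
      rw [Finset.sum_congr rfl h2, ← Finset.sum_filter]
      apply Finset.sum_congr
      · ext n
        simp [Finset.mem_filter, Finset.mem_inter]
      · intro n _
        rfl
    · rw [if_neg hkk]
      apply Finset.sum_eq_zero
      intro n hn
      apply Finset.sum_eq_zero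
      intro m _
      split_ifs with h
      · by_cases h4 : IsPrimePow n
        · by_cases h5 : IsPrimePow m
          · rw [mul_one, mul_one] at h
            exact absurd (pp_eq h4 h5 (hN n hn) (hS k hk).1 (hS k hk).2 (hS k' hk').2 h).1 hkk
          · rw [hβ m h5, mul_zero]
        · rw [hα n h4, mul_zero, zero_mul]
      · rfl
  have h6 : ∑ k' ∈ S, ∑ n ∈ Nr, ∑ m ∈ Mr, (if k * n * 1 = k' * 1 * m then
      (uc r (k, k') * α n) * β m else 0) =
      ∑ k' ∈ S, if k = k' then ((‖r k‖ : ℂ) ^ 2) * ∑ n ∈ Nr ∩ Mr, α n * β n else 0 :=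
    Finset.sum_congr rfl h1
  rw [Finset.sum_ite_eq, if_pos hk] at h6
  exact h6

end Pool.Agent.N802
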