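import Pool.Agent.N802.Phase

/-!
# Simple isolated zeros with prescribed phases at the small primes: the abstract form
-/

open Complex Filter Topology Set MeasureTheory

namespace Pool.Agent.N802

open TC

/-- the phase at `p` is not close to the prescribed one -/
def bad (ε : ℝ) (θ : ℕ → ℝ) (p : ℕ) (g : ℝ) : Prop := ε < ‖cexp (I * θ p) * mn p 1 g - 1‖

lemma cz_norm (θ : ℕ → ℝ) (p : ℕ) (g : ℝ) : ‖cexp (I * θ p) * mn p 1 g‖ = 1 := by
  rw [norm_mul, mn_norm, mul_one, mul_comm I, Complex.norm_exp_ofReal_mul_I]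

lemma fac_le (D : ℕ) (θ : ℕ → ℝ) {p : ℕ} (hp : 0 < p) (g : ℝ) : ‖fac D (bc D (θ p)) p g‖ ≤ 1 := by
  rw [fac_bc D (θ p) hp, norm_pow]
  exact pow_le_one₀ (norm_nonneg _) (half_norm_le (cz_norm θ p g))

lemma fac_bad {ε : ℝ} (hε : 0 ≤ ε) (D : ℕ) (θ : ℕ → ℝ) {p : ℕ} (hp : 0 < p) {g : ℝ}
    (h : bad ε θ p g) : ‖fac D (bc D (θ p)) p g‖ ^ 2 ≤ Real.exp (-(ε ^ 2 / 4 * D)) := by
  rw [fac_bc D (θ p) hp]
  exact half_pow_le (cz_norm θ p g) hε h D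

lemma RP_le_one {D : ℕ} {θ : ℕ → ℝ} {P : Finset ℕ} (hP : ∀ p ∈ P, p.Prime) {S : Finset ℕ}
    {r : ℕ → ℂ} (hR : ∀ t : ℝ, RP S r t = ∏ p ∈ P, fac D (bc D (θ p)) p t) (t : ℝ) :
    ‖RP S r t‖ ^ 2 ≤ 1 := by
  rw [hR]
  apply pow_le_one₀ (norm_nonneg _)
  rw [norm_prod]
  apply Finset.prod_le_one (fun _ _ => norm_nonneg _)
  intro p hp
  exact fac_le D θ (hP p hp).pos t

/-- the mass of the bad zeros at one prime -/
lemma SG_bad {Z : Finset ℝ} {m : ℝ → ℕ} {τ H ε : ℝ} (hε : 0 ≤ ε) {D : ℕ} {θ : ℕ → ℝ}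
    {P : Finset ℕ} (hP : ∀ p ∈ P, p.Prime) {q : ℕ} (hq : q ∈ P) {S S' : Finset ℕ} {r r' : ℕ → ℂ}
    (hR : ∀ t : ℝ, RP S r t = ∏ p ∈ P, fac D (bc D (θ p)) p t)
    (hR' : ∀ t : ℝ, RP S' r' t = ∏ p ∈ P.erase q, fac D (bc D (θ p)) p t)
    (Fb : ℝ → ℝ) (hFb : ∀ g, Fb g ≤ 1) (hFb0 : ∀ g, 0 ≤ Fb g)
    (hFb2 : ∀ g, ¬ bad ε θ q g → Fb g = 0) :
    SG Z m τ H S r Fb ≤ Real.exp (-(ε ^ 2 / 4 * D)) * SG Z m τ H S' r' (fun _ => 1) := by
  unfold SG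
  rw [Finset.mul_sum]
  apply Finset.sum_le_sum
  intro g _
  have a1 : 0 ≤ (m g : ℝ) * om τ H g := mul_nonneg (Nat.cast_nonneg _) (om_pos τ H g).le
  have a2 : ‖RP S r g‖ ^ 2 * Fb g ≤ Real.exp (-(ε ^ 2 / 4 * D)) * ‖RP S' r' g‖ ^ 2 := by
    by_cases h : bad ε θ q g
    · have h1 : RP S r g = fac D (bc D (θ q)) q g * RP S' r' g := by
        rw [hR, hR']
        exact (Finset.mul_prod_erase P (fun p => fac D (bc D (θ p)) p g) hq).symm
      rw [h1, norm_mul, mul_pow]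
      have h2 := fac_bad hε D θ (hP q hq).pos h
      calc ‖fac D (bc D (θ q)) q g‖ ^ 2 * ‖RP S' r' g‖ ^ 2 * Fb g ≤
          Real.exp (-(ε ^ 2 / 4 * D)) * ‖RP S' r' g‖ ^ 2 * 1 := by
            apply mul_le_mul _ (hFb g) (hFb0 g) (by positivity)
            exact mul_le_mul_of_nonneg_right h2 (sq_nonneg _)
        _ = _ := mul_one _
    · rw [hFb2 g h, mul_zero]
      positivity
  calc (m g : ℝ) * (om τ H g * ‖RP S r g‖ ^ 2 * Fb g) =
        ((m g : ℝ) * om τ H g) * (‖RP S r g‖ ^ 2 * Fb g) := by ring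
    _ ≤ ((m g : ℝ) * om τ H g) * (Real.exp (-(ε ^ 2 / 4 * D)) * ‖RP S' r' g‖ ^ 2) :=
        mul_le_mul_of_nonneg_left a2 a1
    _ = _ := by ring

/-- the union bound -/
lemma SG_union {Z : Finset ℝ} {m : ℝ → ℕ} {τ H : ℝ} {S : Finset ℕ} {r : ℕ → ℂ} (P : Finset ℕ)
    (F F' : ℝ → ℝ) (G : ℕ → ℝ → ℝ) (h : ∀ g ∈ Z, F g ≤ F' g + ∑ p ∈ P, G p g) :
    SG Z m τ H S r F ≤ SG Z m τ H S r F' + ∑ p ∈ P, SG Z m τ H S r (G p) := by
  unfold SG
  rw [Finset.sum_comm, ← Finset.sum_add_distrib]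
  apply Finset.sum_le_sum
  intro g hg
  have a1 : 0 ≤ (m g : ℝ) * (om τ H g * ‖RP S r g‖ ^ 2) :=
    mul_nonneg (Nat.cast_nonneg _) (mul_nonneg (om_pos τ H g).le (sq_nonneg _))
  have a2 := mul_le_mul_of_nonneg_left (h g hg) a1
  calc (m g : ℝ) * (om τ H g * ‖RP S r g‖ ^ 2 * F g) =
        (m g : ℝ) * (om τ H g * ‖RP S r g‖ ^ 2) * F g := by ring
    _ ≤ (m g : ℝ) * (om τ H g * ‖RP S r g‖ ^ 2) * (F' g + ∑ p ∈ P, G p g) := a2
    _ = _ := by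
        rw [mul_add, Finset.mul_sum]
        congr 1
        · ring
        · apply Finset.sum_congr rfl
          intro p _
          ring

/-- a set of zeros of multiplicity one is at least as large as its mass -/
lemma SG_card {Z : Finset ℝ} {m : ℝ → ℕ} {τ H : ℝ} {S : Finset ℕ} {r : ℕ → ℂ}
    (hR : ∀ t, ‖RP S r t‖ ^ 2 ≤ 1) (Q : ℝ → Prop) [DecidablePred Q] (hm : ∀ g ∈ Z, Q g → m g = 1) :
    SG Z m τ H S r (fun g => if Q g then 1 else 0) ≤ ((Z.filter Q).card : ℝ) := by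
  unfold SG
  rw [Finset.card_filter]
  push_cast
  apply Finset.sum_le_sum
  intro g hg
  split_ifs with h
  · rw [hm g hg h]
    have h1 := om_le_one τ H g
    have h2 := om_pos τ H g
    have h3 := hR g
    have : om τ H g * ‖RP S r g‖ ^ 2 ≤ 1 * 1 := mul_le_mul h1 h3 (sq_nonneg _) zero_le_one
    simpa using this
  · simp

lemma edge_card {C T : ℝ} {Z : Finset ℝ} {m : ℝ → ℕ} (hE : EFD C T Z m) (u : ℝ) :
    ((Z.filter (fun g => |g - u| ≤ 2)).card : ℝ) ≤ Real.exp 2 * (C * Real.log T) := by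
  have h1 := hE.loc u
  have h2 : ∑ g ∈ Z.filter (fun g => |g - u| ≤ 2), Real.exp (-2) ≤
      ∑ g ∈ Z, (m g : ℝ) * Real.exp (-(g - u) ^ 2 / 2) := by
    refine le_trans ?_ (Finset.sum_le_sum_of_subset_of_nonneg
      (Finset.filter_subset (fun g => |g - u| ≤ 2) Z) ?_)
    · apply Finset.sum_le_sum
      intro g hg
      rw [Finset.mem_filter] at hg
      have a1 : (1 : ℝ) ≤ m g := by exact_mod_cast hE.one g hg.1
      have a2 : Real.exp (-2) ≤ Real.exp (-(g - u) ^ 2 / 2) := by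
        apply Real.exp_le_exp.2
        have : (g - u) ^ 2 ≤ 2 ^ 2 := sq_le_sq' (by linarith [(abs_le.1 hg.2).1]) (abs_le.1 hg.2).2
        linarith
      calc Real.exp (-2) ≤ 1 * Real.exp (-(g - u) ^ 2 / 2) := by rw [one_mul]; exact a2
        _ ≤ _ := mul_le_mul_of_nonneg_right a1 (Real.exp_pos _).le
    · intro g _ _
      positivity
  rw [Finset.sum_const, nsmul_eq_mul] at h2
  have h3 : Real.exp 2 * Real.exp (-2) = 1 := by rw [← Real.exp_add]; norm_num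
  have h4 := mul_le_mul_of_nonneg_left (h2.trans h1) (Real.exp_pos 2).le
  calc ((Z.filter (fun g => |g - u| ≤ 2)).card : ℝ) =
        Real.exp 2 * (((Z.filter (fun g => |g - u| ≤ 2)).card : ℝ) * Real.exp (-2)) := by
          rw [mul_comm (((Z.filter (fun g => |g - u| ≤ 2)).card : ℝ)), ← mul_assoc, h3, one_mul]
    _ ≤ _ := h4

end Pool.Agent.N802
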