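import Pool.Agent.W198.TC.Basic
import Mathlib.NumberTheory.Chebyshev

/-!
# The sum of `Λ(n) / √n` over the powers of small primes
-/

open Finset

namespace Pool.Agent.N802

open TC (lam lam_nonneg)

/-- partial summation -/
lemma abel_le (a f : ℕ → ℝ) (C : ℝ) (hf0 : ∀ n, 1 ≤ n → f (n + 1) ≤ f n)
    (hA : ∀ N : ℕ, ∑ n ∈ Icc 1 N, a n ≤ C * N) (N : ℕ) (hN : 1 ≤ N) :
    (∑ n ∈ Icc 1 N, a n * f n) + f N * (C * N - ∑ n ∈ Icc 1 N, a n) ≤
      C * ∑ n ∈ Icc 1 N, f n := by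
  induction N, hN using Nat.le_induction with
  | base =>
    simp
    ring_nf
    exact le_rfl
  | succ N hN ih =>
    rw [sum_Icc_succ_top (by omega), sum_Icc_succ_top (by omega), sum_Icc_succ_top (by omega)]
    have h1 := hf0 N hN
    have h2 : 0 ≤ C * N - ∑ n ∈ Icc 1 N, a n := by linarith [hA N]
    have h3 := mul_le_mul_of_nonneg_right h1 h2
    push_cast
    nlinarith

lemma sum_inv_sqrt (N : ℕ) : ∑ n ∈ Icc 1 N, 1 / Real.sqrt n ≤ 2 * Real.sqrt N := by
  induction N with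
  | zero => simp
  | succ N ih =>
    rw [sum_Icc_succ_top (by omega)]
    refine (add_le_add_left ih _).trans ?_
    have h0 : (0 : ℝ) < ((N + 1 : ℕ) : ℝ) := by positivity
    have h1 : 0 < Real.sqrt ((N + 1 : ℕ) : ℝ) := Real.sqrt_pos.mpr h0
    set s := Real.sqrt ((N + 1 : ℕ) : ℝ) with hs
    set u := Real.sqrt (N : ℝ) with hu
    have hs2 : s ^ 2 = N + 1 := by rw [hs, Real.sq_sqrt h0.le]; push_cast; ring
    have hu2 : u ^ 2 = N := by rw [hu, Real.sq_sqrt (Nat.cast_nonneg N)]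
    have hu0 : 0 ≤ u := Real.sqrt_nonneg _
    have hus : u ≤ s := by
      apply Real.sqrt_le_sqrt
      push_cast
      linarith
    have h2 : 1 / s ≤ 2 * (s - u) := by
      rw [div_le_iff₀ h1]
      nlinarith
    linarith

lemma psi_le6 (N : ℕ) : ∑ n ∈ Icc 1 N, ArithmeticFunction.vonMangoldt n ≤ 6 * N := by
  have h := Chebyshev.psi_le_const_mul_self (x := (N : ℝ)) (Nat.cast_nonneg N)
  have e : Chebyshev.psi (N : ℝ) = ∑ n ∈ Icc 1 N, ArithmeticFunction.vonMangoldt n := by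
    unfold Chebyshev.psi
    rw [Nat.floor_natCast]
    rfl
  rw [e] at h
  refine h.trans ?_
  apply mul_le_mul_of_nonneg_right _ (Nat.cast_nonneg N)
  have h2 : Real.log 4 ≤ 2 := by
    rw [show (4 : ℝ) = 2 ^ 2 by norm_num, Real.log_pow]
    have := Real.log_two_lt_d9
    norm_num
    linarith
  linarith

lemma sum_lam_le (N : ℕ) : ∑ n ∈ Icc 1 N, lam n ≤ 12 * Real.sqrt N := by
  rcases Nat.eq_zero_or_pos N with rfl | hN
  · simp
  have h := abel_le (fun n => ArithmeticFunction.vonMangoldt n) (fun n => 1 / Real.sqrt n) 6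
    (fun n hn => by
      have h1 : (0 : ℝ) < Real.sqrt n := Real.sqrt_pos.mpr (by exact_mod_cast hn)
      apply one_div_le_one_div_of_le h1
      apply Real.sqrt_le_sqrt
      push_cast
      linarith) psi_le6 N hN
  have h2 : 0 ≤ 1 / Real.sqrt (N : ℝ) *
      (6 * (N : ℝ) - ∑ n ∈ Icc 1 N, ArithmeticFunction.vonMangoldt n) := by
    have := psi_le6 N
    have h3 : 0 ≤ 1 / Real.sqrt (N : ℝ) := by positivity
    apply mul_nonneg h3
    linarith
  have h3 := sum_inv_sqrt N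
  have e : ∑ n ∈ Icc 1 N, lam n =
      ∑ n ∈ Icc 1 N, ArithmeticFunction.vonMangoldt n * (1 / Real.sqrt n) := by
    refine sum_congr rfl fun n _ => ?_
    unfold lam
    ring
  rw [e]
  linarith

lemma sqrt_pow_nat (p k : ℕ) : Real.sqrt ((p : ℝ) ^ k) = Real.sqrt p ^ k := by
  induction k with
  | zero => simp
  | succ k ih => rw [pow_succ, Real.sqrt_mul (by positivity), ih, pow_succ]

lemma lam_prime_pow {p : ℕ} (hp : p.Prime) {k : ℕ} (hk : 1 ≤ k) :
    lam (p ^ k) = Real.log p * (1 / Real.sqrt p) ^ k := by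
  unfold lam
  rw [ArithmeticFunction.vonMangoldt_apply_pow (by omega), ArithmeticFunction.vonMangoldt_apply_prime hp]
  push_cast
  rw [div_pow, one_pow, sqrt_pow_nat, mul_one_div]

lemma geo_le {x : ℝ} (hx0 : 0 ≤ x) (hx : x ≤ 3 / 4) (K : ℕ) :
    ∑ k ∈ Icc 1 K, x ^ k ≤ 4 * x := by
  have h : ∀ K : ℕ, ∑ k ∈ Icc 1 K, x ^ k ≤ 4 * x - 4 * x ^ (K + 1) := by
    intro K
    induction K with
    | zero => simp
    | succ K ih =>
      rw [sum_Icc_succ_top (by omega)]
      have h1 : 0 ≤ x ^ (K + 1) := by positivity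
      have h2 : x ^ (K + 1 + 1) = x ^ (K + 1) * x := pow_succ _ _
      rw [h2]
      nlinarith
  refine (h K).trans ?_
  have : 0 ≤ 4 * x ^ (K + 1) := by positivity
  linarith

/-- the powers of the primes up to `y` -/
lemma smooth_sum (X : ℕ) (y : ℝ) (hy : 0 ≤ y) :
    ∑ n ∈ (Icc 2 X).filter (fun n => (n.minFac : ℝ) ≤ y), lam n ≤ 48 * Real.sqrt y := by
  classical
  set f : ℕ → ℝ := fun n => if (n.minFac : ℝ) ≤ y then lam n else 0 with hf
  have hf0 : ∀ n, 0 ≤ f n := by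
    intro n
    simp only [hf]
    split_ifs
    · exact lam_nonneg n
    · exact le_rfl
  have e1 : ∑ n ∈ (Icc 2 X).filter (fun n => (n.minFac : ℝ) ≤ y), lam n = ∑ n ∈ Icc 2 X, f n := by
    rw [sum_filter]
  have e2 : ∑ n ∈ Icc 2 X, f n ≤ ∑ n ∈ Ioc 0 ⌊(X : ℝ)⌋₊ with IsPrimePow n, f n := by
    rw [Nat.floor_natCast, sum_filter]
    have h3 : ∀ n ∈ Icc 2 X, f n ≤ (if IsPrimePow n then f n else 0) := by
      intro n _
      split_ifs with h
      · exact le_rfl
      · simp only [hf]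
        split_ifs
        · unfold lam
          rw [ArithmeticFunction.vonMangoldt_eq_zero_iff.mpr h]
          simp
        · exact le_rfl
    refine (sum_le_sum h3).trans ?_
    apply sum_le_sum_of_subset_of_nonneg
    · intro n hn
      rw [mem_Icc] at hn
      rw [mem_Ioc]
      omega
    · intro n _ _
      split_ifs
      · exact hf0 n
      · exact le_rfl
  rw [e1]
  refine e2.trans ?_
  rw [Chebyshev.sum_PrimePow_eq_sum_sum f (Nat.cast_nonneg X)]
  set K := ⌊Real.log (X : ℝ) / Real.log 2⌋₊ with hK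
  have h4 : ∀ k ∈ Icc 1 K, ∑ p ∈ Ioc 0 ⌊(X : ℝ) ^ (1 / (k : ℝ))⌋₊ with p.Prime, f (p ^ k) ≤
      ∑ p ∈ (Icc 1 ⌊y⌋₊).filter Nat.Prime, Real.log p * (1 / Real.sqrt p) ^ k := by
    intro k hk
    rw [mem_Icc] at hk
    have h5 : ∀ p ∈ (Ioc 0 ⌊(X : ℝ) ^ (1 / (k : ℝ))⌋₊).filter Nat.Prime, f (p ^ k) =
        if (p : ℝ) ≤ y then Real.log p * (1 / Real.sqrt p) ^ k else 0 := by
      intro p hp
      rw [mem_filter] at hp
      simp only [hf]
      rw [hp.2.pow_minFac (by omega), lam_prime_pow hp.2 hk.1]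
    rw [sum_congr rfl h5, ← sum_filter]
    apply sum_le_sum_of_subset_of_nonneg
    · intro p hp
      rw [mem_filter, mem_filter, mem_Ioc] at hp
      rw [mem_filter, mem_Icc]
      refine ⟨⟨by omega, Nat.le_floor hp.2⟩, hp.1.2⟩
    · intro p _ _
      have h6 : 0 ≤ Real.log (p : ℝ) := Real.log_natCast_nonneg p
      positivity
  refine (sum_le_sum h4).trans ?_
  rw [sum_comm]
  have h7 : ∀ p ∈ (Icc 1 ⌊y⌋₊).filter Nat.Prime,
      ∑ k ∈ Icc 1 K, Real.log p * (1 / Real.sqrt p) ^ k ≤ 4 * lam p := by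
    intro p hp
    rw [mem_filter] at hp
    have hp2 : (2 : ℝ) ≤ p := by exact_mod_cast hp.2.two_le
    rw [← mul_sum]
    have h8 : 0 ≤ Real.log (p : ℝ) := Real.log_natCast_nonneg p
    have h9 : 1 / Real.sqrt (p : ℝ) ≤ 3 / 4 := by
      have h10 : (4 : ℝ) / 3 ≤ Real.sqrt p := by
        apply Real.le_sqrt_of_sq_le
        norm_num
        linarith
      rw [div_le_div_iff₀ (by linarith) (by norm_num)]
      linarith
    have h11 := geo_le (by positivity) h9 K
    have e : lam p = Real.log p * (1 / Real.sqrt p) := by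
      have := lam_prime_pow hp.2 (le_refl 1)
      simpa using this
    rw [e]
    nlinarith
  refine (sum_le_sum h7).trans ?_
  rw [← mul_sum]
  have h12 : ∑ p ∈ (Icc 1 ⌊y⌋₊).filter Nat.Prime, lam p ≤ ∑ n ∈ Icc 1 ⌊y⌋₊, lam n := by
    apply sum_le_sum_of_subset_of_nonneg (filter_subset _ _)
    intro n _ _
    exact lam_nonneg n
  have h13 := sum_lam_le ⌊y⌋₊
  have h14 : Real.sqrt (⌊y⌋₊ : ℝ) ≤ Real.sqrt y := Real.sqrt_le_sqrt (Nat.floor_le hy)
  linarith

end Pool.Agent.N802
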