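import Pool.Agent.N802.TP

/-!
# The reproducing kernel identity and the explicit formula for trigonometric polynomials
-/

open Complex Filter Topology Set MeasureTheory

namespace Pool.Agent.N802

open TC

/-- the reproducing kernel identity -/
lemma rk_TP {ι : Type*} (S : Finset ι) (c : ι → ℂ) (a b : ι → ℕ) (Z : Finset ℝ) (m : ℝ → ℕ)
    (τ H M G : ℝ) (hH : 1 ≤ H) (hG : 0 ≤ G) (hM0 : 0 ≤ M)
    (hM : ∀ x ∈ S, |Real.log (b x) - Real.log (a x)| + G ≤ M) :
    ‖(∑ g ∈ Z, (m g : ℂ) * ((om τ H g : ℂ) * TP S c a b g)) -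
      (1 / Real.pi : ℝ) * ∫ t : ℝ, ((om τ H t : ℂ) * TP S c a b t) * (RR Z m M t : ℂ)‖ ≤
    2 * (∑ g ∈ Z, (m g : ℝ)) * n1 S c * Real.exp (-(G ^ 2) / 8) := by
  have hH0 : 0 < H := by linarith
  set lx : ι → ℝ := fun x => Real.log (b x) - Real.log (a x) with hlx
  have hint : (∫ t : ℝ, ((om τ H t : ℂ) * TP S c a b t) * (RR Z m M t : ℂ)) =
      ∑ g ∈ Z, ∑ x ∈ S, ((m g : ℂ) * c x) * RK.JJ τ H M g (lx x) := by
    have e : ∀ t : ℝ, ((om τ H t : ℂ) * TP S c a b t) * (RR Z m M t : ℂ) =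
        ∑ g ∈ Z, ∑ x ∈ S, ((m g : ℂ) * c x) *
          (((om τ H t * Real.exp (-(g - t) ^ 2 / 2) : ℝ) : ℂ) *
            cexp (((t * lx x : ℝ) : ℂ) * I) * ((RK.CG M (g - t) : ℝ) : ℂ)) := by
      intro t
      unfold RR
      rw [RK.re_int, ofReal_sum, Finset.mul_sum]
      refine Finset.sum_congr rfl fun g _ => ?_
      unfold TP mn
      rw [Finset.mul_sum, Finset.sum_mul]
      refine Finset.sum_congr rfl fun x _ => ?_
      simp only [hlx]
      push_cast
      ring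
    simp_rw [e]
    have hi : ∀ g x, Integrable (fun t : ℝ => ((m g : ℂ) * c x) *
          (((om τ H t * Real.exp (-(g - t) ^ 2 / 2) : ℝ) : ℂ) *
            cexp (((t * lx x : ℝ) : ℂ) * I) * ((RK.CG M (g - t) : ℝ) : ℂ))) := fun g x =>
      (RK.JJ_integrable τ H M g (lx x) hH0 hM0).const_mul _
    rw [integral_finsetSum _ fun g _ => integrable_finsetSum _ fun x _ => hi g x]
    refine Finset.sum_congr rfl fun g _ => ?_
    rw [integral_finsetSum _ fun x _ => hi g x]
    refine Finset.sum_congr rfl fun x _ => ?_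
    rw [integral_const_mul]
    rfl
  have hsum : (∑ g ∈ Z, (m g : ℂ) * ((om τ H g : ℂ) * TP S c a b g)) =
      ∑ g ∈ Z, ∑ x ∈ S, ((m g : ℂ) * c x) * ((om τ H g : ℂ) * cexp (((g * lx x : ℝ) : ℂ) * I)) := by
    refine Finset.sum_congr rfl fun g _ => ?_
    unfold TP mn
    rw [Finset.mul_sum, Finset.mul_sum]
    refine Finset.sum_congr rfl fun x _ => ?_
    simp only [hlx]
    ring
  rw [hint, hsum]
  have hdiff : (∑ g ∈ Z, ∑ x ∈ S, ((m g : ℂ) * c x) *
        ((om τ H g : ℂ) * cexp (((g * lx x : ℝ) : ℂ) * I))) -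
      ((1 / Real.pi : ℝ) : ℂ) * (∑ g ∈ Z, ∑ x ∈ S, ((m g : ℂ) * c x) * RK.JJ τ H M g (lx x)) =
      ∑ g ∈ Z, ∑ x ∈ S, ((m g : ℂ) * c x) * ((om τ H g : ℂ) * cexp (((g * lx x : ℝ) : ℂ) * I) -
          ((1 / Real.pi : ℝ) : ℂ) * RK.JJ τ H M g (lx x)) := by
    rw [Finset.mul_sum, ← Finset.sum_sub_distrib]
    refine Finset.sum_congr rfl fun g _ => ?_
    rw [Finset.mul_sum, ← Finset.sum_sub_distrib]
    refine Finset.sum_congr rfl fun x _ => ?_
    ring
  rw [hdiff]
  calc ‖_‖ ≤ ∑ g ∈ Z, ∑ x ∈ S, ((m g : ℝ) * ‖c x‖) * (2 * Real.exp (-(G ^ 2) / 8)) := by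
        refine (norm_sum_le _ _).trans (Finset.sum_le_sum fun g _ => ?_)
        refine (norm_sum_le _ _).trans (Finset.sum_le_sum fun x hx => ?_)
        rw [norm_mul, norm_mul, Complex.norm_natCast]
        gcongr
        exact RK.JJ_main τ H M g (lx x) G hH hG (hM x hx)
    _ = 2 * (∑ g ∈ Z, (m g : ℝ)) * n1 S c * Real.exp (-(G ^ 2) / 8) := by
        unfold n1
        have h3 : ∀ g ∈ Z, ∑ x ∈ S, ((m g : ℝ) * ‖c x‖) * (2 * Real.exp (-(G ^ 2) / 8)) =
            (m g : ℝ) * ((∑ x ∈ S, ‖c x‖) * (2 * Real.exp (-(G ^ 2) / 8))) := by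
          intro g _
          rw [Finset.sum_mul, Finset.mul_sum]
          refine Finset.sum_congr rfl fun x _ => ?_
          ring
        rw [Finset.sum_congr rfl h3, ← Finset.sum_mul]
        ring

lemma gs_half_ge {ℓ : ℝ} (hℓ : 4 ≤ ℓ) : ℓ / 2 - 1 ≤ ℓ * ∫ u in (0 : ℝ)..ℓ, gs u := by
  have h0 : 0 ≤ ℓ := by linarith
  have h1 : ∫ u in (-ℓ)..(0 : ℝ), gs u = ∫ u in (0 : ℝ)..ℓ, gs u := by
    have := intervalIntegral.integral_comp_neg (a := 0) (b := ℓ) (fun x => gs x)
    simp only [gs_even, neg_zero] at this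
    exact this.symm
  have h2 : (∫ u in (-ℓ)..(0 : ℝ), gs u) + ∫ u in (0 : ℝ)..ℓ, gs u = ∫ u in (-ℓ)..ℓ, gs u :=
    intervalIntegral.integral_add_adjacent_intervals (gs_cont.intervalIntegrable _ _)
      (gs_cont.intervalIntegrable _ _)
  have hI := gs_integrable
  have h3 : 1 - ∫ u in (-ℓ)..ℓ, gs u ≤ Real.exp (-(ℓ ^ 2) / 4) * Real.sqrt 2 := by
    rw [intervalIntegral.integral_of_le (by linarith), ← gs_integral,
      ← integral_add_compl (measurableSet_Ioc (a := -ℓ) (b := ℓ)) hI, add_sub_cancel_left]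
    have hs2 : (0 : ℝ) < Real.sqrt 2 := by positivity
    have hom := om_integrable 0 (Real.sqrt 2) hs2
    have hgi : Integrable (fun v => Real.exp (-(ℓ ^ 2) / 4) / Real.sqrt (2 * Real.pi) *
        om 0 (Real.sqrt 2) v) := hom.const_mul _
    calc ∫ v in (Ioc (-ℓ) ℓ)ᶜ, gs v
        ≤ ∫ v in (Ioc (-ℓ) ℓ)ᶜ, Real.exp (-(ℓ ^ 2) / 4) / Real.sqrt (2 * Real.pi) *
            om 0 (Real.sqrt 2) v := by
          apply setIntegral_mono_on hI.integrableOn hgi.integrableOn measurableSet_Ioc.compl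
          intro v hv
          have hv' : ℓ ^ 2 ≤ v ^ 2 := by
            rw [mem_compl_iff, mem_Ioc, not_and_or, not_lt, not_le] at hv
            rcases hv with h | h
            · nlinarith
            · nlinarith
          unfold gs om
          rw [div_mul_eq_mul_div, ← Real.exp_add]
          apply div_le_div_of_nonneg_right _ (Real.sqrt_nonneg _)
          apply Real.exp_le_exp.mpr
          rw [Real.sq_sqrt (by norm_num : (0 : ℝ) ≤ 2)]
          nlinarith
      _ ≤ ∫ v, Real.exp (-(ℓ ^ 2) / 4) / Real.sqrt (2 * Real.pi) * om 0 (Real.sqrt 2) v := by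
          apply setIntegral_le_integral hgi
          refine Eventually.of_forall fun v => ?_
          have := om_pos 0 (Real.sqrt 2) v
          simp only [Pi.zero_apply]
          positivity
      _ = Real.exp (-(ℓ ^ 2) / 4) * Real.sqrt 2 := by
          rw [integral_const_mul, om_integral 0 _ hs2]
          have : (0 : ℝ) < Real.sqrt (2 * Real.pi) := by
            have := Real.pi_pos
            positivity
          field_simp
  have h4 : ℓ * (Real.exp (-(ℓ ^ 2) / 4) * Real.sqrt 2) ≤ 2 := by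
    have hs : Real.sqrt 2 ≤ 2 := by
      rw [Real.sqrt_le_left (by norm_num)]
      norm_num
    have e1 : Real.exp (-(ℓ ^ 2) / 4) = (Real.exp (ℓ ^ 2 / 4))⁻¹ := by
      rw [← Real.exp_neg]; congr 1; ring
    have e2 : ℓ ≤ Real.exp (ℓ ^ 2 / 4) := by
      have := Real.add_one_le_exp (ℓ ^ 2 / 4)
      nlinarith
    have e3 : ℓ * Real.exp (-(ℓ ^ 2) / 4) ≤ 1 := by
      rw [e1, ← div_eq_mul_inv, div_le_one (Real.exp_pos _)]
      exact e2
    have e4 : 0 ≤ ℓ * Real.exp (-(ℓ ^ 2) / 4) := by positivity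
    nlinarith [Real.sqrt_nonneg 2]
  have h5 := mul_le_mul_of_nonneg_left h3 h0
  have h6 : 2 * (ℓ * ∫ u in (0 : ℝ)..ℓ, gs u) = ℓ * ∫ u in (-ℓ)..ℓ, gs u := by
    rw [← h2, h1]; ring
  nlinarith

/-- lower bound of the smoothed density by a Dirichlet polynomial -/
lemma RR_ge {C T : ℝ} {Z : Finset ℝ} {m : ℝ → ℕ} (hE : EFD C T Z m) (hC : 0 < C)
    (h4 : 4 ≤ Real.log T) {t : ℝ} (ht1 : T + Real.log T ≤ t)
    (ht2 : t ≤ 2 * T - Real.log T) {X : ℕ} (hX : 3 * Real.log T ≤ Real.log (X + 1)) :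
    Real.log T / 2 - 1 - 2 * C - (DP (qf (Real.log T)) X t).re ≤ RR Z m (Real.log T) t := by
  set ℓ := Real.log T with hℓ
  have hℓ0 : 0 ≤ ℓ := by linarith
  -- pointwise bound
  have hpt : ∀ u ∈ Set.Icc (0 : ℝ) ℓ, (ℓ * gs u -
      ∑ n ∈ Finset.Icc 2 X, (lam n * gs (u - Real.log n)) * Real.cos (t * Real.log n)) -
      C * (Real.exp (-u) + Real.exp (2 * ℓ - ℓ ^ 2)) ≤ (FF Z m u t).re := by
    intro u hu
    have h1 := hE.ef u t (2 * ℓ) X hu.1 hu.2 ht1 ht2 (by linarith) (by linarith [hu.2])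
    have h2 := (Complex.abs_re_le_norm _).trans h1
    have h3 := (abs_le.1 h2).1
    have e1 : (FF Z m u t - ((ℓ * gs u : ℝ) - ∑ n ∈ Finset.Icc 2 X,
        ((lam n * gs (u - Real.log n) : ℝ) : ℂ) * cexp (((-(t * Real.log n) : ℝ) : ℂ) * I))).re =
        (FF Z m u t).re - (ℓ * gs u - ∑ n ∈ Finset.Icc 2 X, (lam n * gs (u - Real.log n)) *
          Real.cos (t * Real.log n)) := by
      rw [sub_re, sub_re, ofReal_re, re_sum]
      congr 2
      apply Finset.sum_congr rfl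
      intro n _
      rw [Complex.re_ofReal_mul, Complex.exp_ofReal_mul_I_re, Real.cos_neg]
    rw [e1] at h3
    have e2 : Real.exp (2 * u - (2 * ℓ) ^ 2 / 4) ≤ Real.exp (2 * ℓ - ℓ ^ 2) := by
      apply Real.exp_le_exp.2
      nlinarith [hu.2]
    have e3 : C * (Real.exp (-u) + Real.exp (2 * u - (2 * ℓ) ^ 2 / 4)) ≤
        C * (Real.exp (-u) + Real.exp (2 * ℓ - ℓ ^ 2)) := by gcongr
    linarith
  have hc1 : Continuous fun u : ℝ => (FF Z m u t).re :=
    Complex.continuous_re.comp (FF_cont_u Z m t)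
  have hg : ∀ n : ℕ, Continuous fun u : ℝ => (lam n * gs (u - Real.log n)) *
      Real.cos (t * Real.log n) := fun n =>
    (continuous_const.mul (gs_cont.comp (by fun_prop))).mul continuous_const
  have hc2 : Continuous fun u : ℝ => ℓ * gs u := continuous_const.mul gs_cont
  have hc3 : Continuous fun u : ℝ => ∑ n ∈ Finset.Icc 2 X, (lam n * gs (u - Real.log n)) *
      Real.cos (t * Real.log n) := continuous_finsetSum _ fun n _ => hg n
  have hc4 : Continuous fun u : ℝ => C * (Real.exp (-u) + Real.exp (2 * ℓ - ℓ ^ 2)) := by fun_prop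
  have hA : Continuous fun u : ℝ => ℓ * gs u - ∑ n ∈ Finset.Icc 2 X,
      (lam n * gs (u - Real.log n)) * Real.cos (t * Real.log n) := hc2.sub hc3
  have hB : Continuous fun u : ℝ => (ℓ * gs u - ∑ n ∈ Finset.Icc 2 X,
      (lam n * gs (u - Real.log n)) * Real.cos (t * Real.log n)) -
      C * (Real.exp (-u) + Real.exp (2 * ℓ - ℓ ^ 2)) := hA.sub hc4
  have h5 := intervalIntegral.integral_mono_on (μ := volume) hℓ0 (hB.intervalIntegrable 0 ℓ)
    (hc1.intervalIntegrable 0 ℓ) hpt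
  unfold RR
  refine le_trans ?_ h5
  rw [intervalIntegral.integral_sub (hA.intervalIntegrable _ _)
    (hc4.intervalIntegrable _ _), intervalIntegral.integral_sub (hc2.intervalIntegrable _ _)
    (hc3.intervalIntegrable _ _), intervalIntegral.integral_const_mul,
    intervalIntegral.integral_finsetSum (fun n _ => (hg n).intervalIntegrable _ _)]
  have e6 : ∑ n ∈ Finset.Icc 2 X, ∫ u in (0 : ℝ)..ℓ, (lam n * gs (u - Real.log n)) *
      Real.cos (t * Real.log n) = (DP (qf ℓ) X t).re := by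
    unfold DP qf
    rw [re_sum]
    apply Finset.sum_congr rfl
    intro n _
    rw [Complex.re_ofReal_mul, Complex.exp_ofReal_mul_I_re, Real.cos_neg,
      intervalIntegral.integral_mul_const, intervalIntegral.integral_const_mul]
  rw [e6]
  have e7 : ∫ u in (0 : ℝ)..ℓ, C * (Real.exp (-u) + Real.exp (2 * ℓ - ℓ ^ 2)) ≤ 2 * C := by
    rw [intervalIntegral.integral_const_mul, intervalIntegral.integral_add
      ((by fun_prop : Continuous fun u : ℝ => Real.exp (-u)).intervalIntegrable _ _)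
      (continuous_const.intervalIntegrable _ _), intervalIntegral.integral_const, smul_eq_mul]
    have e8 : ∫ u in (0 : ℝ)..ℓ, Real.exp (-u) = 1 - Real.exp (-ℓ) := by
      have := intervalIntegral.integral_comp_neg (a := 0) (b := ℓ) (fun x => Real.exp x)
      simp only [neg_zero] at this
      rw [this, integral_exp, Real.exp_zero]
    have e9 : (ℓ - 0) * Real.exp (2 * ℓ - ℓ ^ 2) ≤ 1 := by
      have h1 : ℓ ≤ Real.exp (ℓ ^ 2 - 2 * ℓ) := by
        have := Real.add_one_le_exp (ℓ ^ 2 - 2 * ℓ)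
        nlinarith
      have h2 : Real.exp (2 * ℓ - ℓ ^ 2) = (Real.exp (ℓ ^ 2 - 2 * ℓ))⁻¹ := by
        rw [← Real.exp_neg]; congr 1; ring
      rw [h2, sub_zero, ← div_eq_mul_inv, div_le_one (Real.exp_pos _)]
      exact h1
    have e10 := Real.exp_pos (-ℓ)
    nlinarith
  have e11 := gs_half_ge h4
  linarith

/-- the error in the explicit formula for the smoothed density -/
lemma RR_two {C T : ℝ} {Z : Finset ℝ} {m : ℝ → ℕ} (hE : EFD C T Z m) (hC : 0 < C)
    (h4 : 4 ≤ Real.log T) {t : ℝ} (ht1 : T + Real.log T ≤ t)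
    (ht2 : t ≤ 2 * T - Real.log T) {X : ℕ} (hX : 3 * Real.log T ≤ Real.log (X + 1)) :
    |RR Z m (Real.log T) t - (Real.log T / 2 - (DP (qf (Real.log T)) X t).re)| ≤ 2 * C + 1 := by
  have h1 := RR_le hE hC h4 ht1 ht2 hX
  have h2 := RR_ge hE hC h4 ht1 ht2 hX
  rw [abs_le]
  constructor <;> linarith

/-- the smoothed density integrated against a bounded function -/
lemma core {C T : ℝ} {Z : Finset ℝ} {m : ℝ → ℕ} (hE : EFD C T Z m) (hC : 0 < C)
    (h4 : 4 ≤ Real.log T) (P : ℝ → ℂ) (hPc : Continuous P) (K : ℝ) (hK : ∀ t, ‖P t‖ ≤ K)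
    (τ H dd : ℝ) (hH : 0 < H) (hd : 0 ≤ dd)
    (h1 : T + Real.log T + dd ≤ τ) (h2 : τ + dd ≤ 2 * T - Real.log T) (X : ℕ)
    (hX : 3 * Real.log T ≤ Real.log (X + 1)) :
    ‖(∫ t : ℝ, ((om τ H t : ℂ) * P t) * (RR Z m (Real.log T) t : ℂ)) -
      (∫ t : ℝ, ((om τ H t : ℂ) * P t) *
        ((Real.log T / 2 - (DP (qf (Real.log T)) X t).re : ℝ) : ℂ))‖ ≤
      (2 * C + 1) * (∫ t : ℝ, om τ H t * ‖P t‖) +
      (C * (Real.log T) ^ 2 + Real.log T + ∑ n ∈ Finset.Icc 2 X, |qf (Real.log T) n|) *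
        K * Real.exp (-(dd ^ 2) / (4 * H ^ 2)) * (Real.sqrt (2 * Real.pi) * (Real.sqrt 2 * H)) := by
  set ℓ := Real.log T with hℓ
  have hℓ0 : 0 ≤ ℓ := by linarith
  have hK0 : 0 ≤ K := (norm_nonneg _).trans (hK 0)
  set Qs := ∑ n ∈ Finset.Icc 2 X, |qf ℓ n| with hQs
  have hQ0 : 0 ≤ Qs := Finset.sum_nonneg fun _ _ => abs_nonneg _
  have hQc : Continuous fun t => (DP (qf ℓ) X t).re := Complex.continuous_re.comp (DP_cont _ _)
  have hQb : ∀ t, |(DP (qf ℓ) X t).re| ≤ Qs := fun t =>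
    (Complex.abs_re_le_norm _).trans (DP_norm_le _ _ _)
  have hRc := RR_cont Z m ℓ
  have hRb := fun t => RR_abs hE hℓ0 t
  have hH2 : 0 < Real.sqrt 2 * H := by positivity
  set E := C * ℓ ^ 2 + ℓ + Qs with hEdef
  have hE0 : 0 ≤ E := by positivity
  set κ := Real.exp (-(dd ^ 2) / (4 * H ^ 2)) with hκ
  have hκ0 : 0 < κ := Real.exp_pos _
  have hcom : Continuous fun t => (om τ H t : ℂ) := Complex.continuous_ofReal.comp (om_cont τ H)
  have hint : ∀ (f : ℝ → ℝ) (B : ℝ), Continuous f → (∀ t, |f t| ≤ B) →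
      Integrable fun t => ((om τ H t : ℂ) * P t) * (f t : ℂ) := by
    intro f B hf hB
    have hB0 : 0 ≤ B := (abs_nonneg _).trans (hB 0)
    have i0 := (om_integrable τ H hH).mul_const (K * B)
    refine i0.mono' ((hcom.mul hPc).mul (Complex.continuous_ofReal.comp hf)).aestronglyMeasurable
      (Eventually.of_forall fun t => ?_)
    rw [norm_mul, norm_mul, Complex.norm_real, Complex.norm_real, Real.norm_eq_abs,
      Real.norm_eq_abs, abs_of_pos (om_pos τ H t), mul_assoc]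
    apply mul_le_mul_of_nonneg_left _ (om_pos τ H t).le
    exact mul_le_mul (hK t) (hB t) (abs_nonneg _) hK0
  have i1 := hint (RR Z m ℓ) (ℓ * (C * ℓ)) hRc hRb
  have i2 := hint (fun t => ℓ / 2 - (DP (qf ℓ) X t).re) (ℓ + Qs) (continuous_const.sub hQc)
    (fun t => by
      have h := hQb t
      rw [abs_le] at h ⊢
      constructor <;> linarith [h.1, h.2])
  rw [← integral_sub i1 i2]
  have i3 : Integrable fun t => om τ H t * ‖P t‖ := by
    refine om_mul_integrable (K := K) hH hPc.norm fun t => ?_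
    rw [abs_of_nonneg (norm_nonneg _)]
    exact hK t
  have i4 : Integrable fun t => E * K * κ * om τ (Real.sqrt 2 * H) t :=
    (om_integrable τ _ hH2).const_mul _
  have i5 : Integrable fun t => (2 * C + 1) * (om τ H t * ‖P t‖) := i3.const_mul _
  have hpt : ∀ t, ‖((om τ H t : ℂ) * P t) * (RR Z m ℓ t : ℂ) -
      ((om τ H t : ℂ) * P t) * ((ℓ / 2 - (DP (qf ℓ) X t).re : ℝ) : ℂ)‖ ≤
      (2 * C + 1) * (om τ H t * ‖P t‖) + E * K * κ * om τ (Real.sqrt 2 * H) t := by
    intro t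
    have hom := om_pos τ H t
    have hom2 := om_pos τ (Real.sqrt 2 * H) t
    rw [← mul_sub, norm_mul, norm_mul, ← ofReal_sub, Complex.norm_real, Complex.norm_real,
      Real.norm_eq_abs, Real.norm_eq_abs, abs_of_pos hom]
    have hw : 0 ≤ om τ H t * ‖P t‖ := by positivity
    by_cases hnear : T + ℓ ≤ t ∧ t ≤ 2 * T - ℓ
    · have h5 := RR_two hE hC h4 hnear.1 hnear.2 hX
      have h6 := mul_le_mul_of_nonneg_left h5 hw
      have h7 : 0 ≤ E * K * κ * om τ (Real.sqrt 2 * H) t := by positivity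
      rw [← hℓ] at h6
      linarith
    · have hfar : dd ≤ |t - τ| := by
        rw [not_and_or, not_le, not_le] at hnear
        rcases hnear with hn | hn
        · have : dd ≤ -(t - τ) := by linarith
          exact this.trans (neg_le_abs _)
        · have : dd ≤ t - τ := by linarith
          exact this.trans (le_abs_self _)
      have h5 := om_far hH hd hfar
      have h6 : |RR Z m ℓ t - (ℓ / 2 - (DP (qf ℓ) X t).re)| ≤ E := by
        have h7 := hRb t
        have h8 := hQb t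
        rw [hEdef]
        rw [abs_le] at h7 h8 ⊢
        constructor <;> nlinarith [h7.1, h7.2, h8.1, h8.2]
      have h7 : om τ H t * ‖P t‖ * |RR Z m ℓ t - (ℓ / 2 - (DP (qf ℓ) X t).re)| ≤
          (κ * om τ (Real.sqrt 2 * H) t) * K * E := by
        apply mul_le_mul _ h6 (abs_nonneg _) (by positivity)
        exact mul_le_mul h5 (hK t) (norm_nonneg _) (by positivity)
      have h8 : 0 ≤ (2 * C + 1) * (om τ H t * ‖P t‖) := by positivity
      linarith
  have h8 := norm_integral_le_of_norm_le (i5.add i4) (Eventually.of_forall hpt)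
  refine h8.trans (le_of_eq ?_)
  have e9 : ∫ t, ((fun t => (2 * C + 1) * (om τ H t * ‖P t‖)) +
      fun t => E * K * κ * om τ (Real.sqrt 2 * H) t) t =
      (∫ t, (2 * C + 1) * (om τ H t * ‖P t‖)) + ∫ t, E * K * κ * om τ (Real.sqrt 2 * H) t :=
    integral_add i5 i4
  rw [e9, integral_const_mul, integral_const_mul, om_integral _ _ hH2]

end Pool.Agent.N802
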