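import Pool.Agent.N802.Diag
import Pool.Agent.N802.RKG
import Pool.Agent.N802.Num

/-!
# The Gaussian integrals
-/

open Complex Filter Topology Set MeasureTheory

namespace Pool.Agent.N802

open TC

/-- the data of a block -/
structure Cx (C T : ℝ) (Z : Finset ℝ) (m : ℝ → ℕ) (τ H dd Y G e0 y K0 : ℝ) (N X : ℕ)
    (S : Finset ℕ) : Prop where
  hE : EFD C T Z m
  hC : 0 < C
  h4 : 4 ≤ Real.log T
  hT : 1 ≤ T
  hH : 1 ≤ H
  hd : 0 ≤ dd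
  h1 : T + Real.log T + dd ≤ τ
  h2 : τ + dd ≤ 2 * T - Real.log T
  hX : 3 * Real.log T ≤ Real.log (X + 1)
  hXT : (X : ℝ) ≤ T ^ 3
  hN1 : 1 ≤ N
  hNT : (N : ℝ) ≤ T
  hNX : N ≤ X
  hK1 : 1 ≤ K0
  hKT : K0 ≤ T
  hKN : K0 * N ≤ Y
  hG : 0 ≤ G
  hKG : Real.log (K0 * N) + G ≤ Real.log T
  E1 : T ^ 6 * Real.exp (-(H ^ 2) / (8 * Y ^ 2)) ≤ e0
  E2 : T ^ 6 * Real.exp (-(dd ^ 2) / (4 * H ^ 2)) ≤ e0
  E3 : T ^ 6 * Real.exp (-(G ^ 2) / 8) ≤ e0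
  hy : 1 ≤ y
  hS : ∀ k ∈ S, 1 ≤ k ∧ (k : ℝ) ≤ K0 ∧ ∀ p : ℕ, p.Prime → p ∣ k → (p : ℝ) ≤ y

section

variable {C T : ℝ} {Z : Finset ℝ} {m : ℝ → ℕ} {τ H dd Y G e0 y K0 : ℝ} {N X : ℕ}
    {S : Finset ℕ}

lemma Cx.W1 (h : Cx C T Z m τ H dd Y G e0 y K0 N X S) : 1 ≤ Real.sqrt (2 * Real.pi) * H := by
  have h1 := sqrt_two_pi_ge_one
  have h2 := h.hH
  nlinarith

lemma Cx.n1sq (h : Cx C T Z m τ H dd Y G e0 y K0 N X S) (r : ℕ → ℂ) :
    n1 S r ^ 2 ≤ K0 * w1 S r :=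
  n1_sq_le S r (fun k hk => ⟨(h.hS k hk).1, (h.hS k hk).2.1⟩) h.hK1

lemma Cx.n1sqT (h : Cx C T Z m τ H dd Y G e0 y K0 N X S) (r : ℕ → ℂ) :
    n1 S r ^ 2 ≤ T * w1 S r :=
  (h.n1sq r).trans (mul_le_mul_of_nonneg_right h.hKT (w1_nonneg S r))

/-- the integral of `|R|²` -/
lemma Cx.int0 (h : Cx C T Z m τ H dd Y G e0 y K0 N X S) (r : ℕ → ℂ) :
    |(∫ t, om τ H t * ‖RP S r t‖ ^ 2) - Real.sqrt (2 * Real.pi) * H * w1 S r| ≤
      Real.sqrt (2 * Real.pi) * H * w1 S r * (T * Real.exp (-(H ^ 2) / (8 * Y ^ 2))) := by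
  have hH0 : 0 < H := by linarith [h.hH]
  have hN : (1 : ℝ) ≤ N := by exact_mod_cast h.hN1
  have hK := h.hK1
  have hKN := h.hKN
  have h1 := om_TP (S ×ˢ S) (uc r) (fun x => x.1) (fun x => x.2) τ H Y hH0
    (fun x hx => (h.hS x.1 (Finset.mem_product.mp hx).1).1)
    (fun x hx => (h.hS x.2 (Finset.mem_product.mp hx).2).1)
    (fun x hx => by
      have h2 := (h.hS x.1 (Finset.mem_product.mp hx).1).2.1
      have h3 : ((min x.1 x.2 : ℕ) : ℝ) ≤ (x.1 : ℝ) := by exact_mod_cast min_le_left _ _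
      nlinarith)
  rw [diag0, n1_uc] at h1
  have e : ∫ t : ℝ, (om τ H t : ℂ) * TP (S ×ˢ S) (uc r) (fun x => x.1) (fun x => x.2) t =
      ((∫ t, om τ H t * ‖RP S r t‖ ^ 2 : ℝ) : ℂ) := by
    rw [← integral_complex_ofReal]
    congr 1
    funext t
    rw [← U_eq S r (fun k hk => (h.hS k hk).1) t]
    push_cast
    ring
  rw [e, ← ofReal_mul, ← ofReal_sub, Complex.norm_real, Real.norm_eq_abs] at h1
  refine h1.trans ?_
  have h4 := h.n1sqT r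
  have hW := h.W1
  have h5 := Real.exp_pos (-(H ^ 2) / (8 * Y ^ 2))
  calc Real.sqrt (2 * Real.pi) * H * (n1 S r ^ 2 * Real.exp (-(H ^ 2) / (8 * Y ^ 2)))
      ≤ Real.sqrt (2 * Real.pi) * H * ((T * w1 S r) * Real.exp (-(H ^ 2) / (8 * Y ^ 2))) := by
        gcongr
    _ = _ := by ring

lemma UD_eq (S : Finset ℕ) (r : ℕ → ℂ) (hS : ∀ k ∈ S, 0 < k) (Nr : Finset ℕ) (α : ℕ → ℂ)
    (hN : ∀ n ∈ Nr, 0 < n) (t : ℝ) :
    ((‖RP S r t‖ ^ 2 : ℝ) : ℂ) * RP Nr α t =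
      TP ((S ×ˢ S) ×ˢ Nr) (fun x => uc r x.1 * α x.2) (fun x => x.1.1 * x.2)
        (fun x => x.1.2 * 1) t := by
  rw [U_eq S r hS t]
  unfold RP
  rw [TP_mul _ _ _ _ _ _ _ _ (fun x hx => hS x.1 (Finset.mem_product.mp hx).1)
    (fun x hx => hS x.2 (Finset.mem_product.mp hx).2) (fun x hx => hN x hx) (fun _ _ => one_pos)]

/-- `|R|²` is orthogonal to rough Dirichlet polynomials -/
lemma Cx.int1 (h : Cx C T Z m τ H dd Y G e0 y K0 N X S) (r : ℕ → ℂ) (Nr : Finset ℕ) (α : ℕ → ℂ)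
    (hN : ∀ n ∈ Nr, 2 ≤ n ∧ y < (n.minFac : ℝ)) :
    ‖∫ t, (om τ H t : ℂ) * (((‖RP S r t‖ ^ 2 : ℝ) : ℂ) * RP Nr α t)‖ ≤
      Real.sqrt (2 * Real.pi) * H * w1 S r *
        (n1 Nr α * (T * Real.exp (-(H ^ 2) / (8 * Y ^ 2)))) := by
  have hH0 : 0 < H := by linarith [h.hH]
  have hN' : (1 : ℝ) ≤ N := by exact_mod_cast h.hN1
  have hK := h.hK1
  have hKN := h.hKN
  have hS0 : ∀ k ∈ S, 0 < k := fun k hk => (h.hS k hk).1
  have hN0 : ∀ n ∈ Nr, 0 < n := fun n hn => by have := (hN n hn).1; omega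
  have h1 := om_TP ((S ×ˢ S) ×ˢ Nr) (fun x => uc r x.1 * α x.2) (fun x => x.1.1 * x.2)
    (fun x => x.1.2 * 1) τ H Y hH0
    (fun x hx => by
      rw [Finset.mem_product, Finset.mem_product] at hx
      exact Nat.mul_pos (hS0 _ hx.1.1) (hN0 _ hx.2))
    (fun x hx => by
      rw [Finset.mem_product, Finset.mem_product] at hx
      rw [mul_one]
      exact hS0 _ hx.1.2)
    (fun x hx => by
      rw [Finset.mem_product, Finset.mem_product] at hx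
      have h2 := (h.hS _ hx.1.2).2.1
      have h3 : ((min (x.1.1 * x.2) (x.1.2 * 1) : ℕ) : ℝ) ≤ (x.1.2 : ℝ) := by
        exact_mod_cast (min_le_right _ _).trans (by rw [mul_one])
      nlinarith)
  have hdiag : ((S ×ˢ S) ×ˢ Nr).filter (fun x => x.1.1 * x.2 = x.1.2 * 1) = ∅ := by
    rw [Finset.filter_eq_empty_iff]
    intro x hx he
    rw [Finset.mem_product, Finset.mem_product] at hx
    have h2 := h.hS _ hx.1.2
    have h3 := hN _ hx.2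
    have h4 := rough_ne (k := x.1.1) (m := 1) h3.1 h3.2 h2.1 h2.2.2
    rw [mul_one] at h4 he
    exact h4 he
  rw [hdiag, Finset.sum_empty, mul_zero, sub_zero, n1_mul, n1_uc] at h1
  have e : ∀ t, (om τ H t : ℂ) * (((‖RP S r t‖ ^ 2 : ℝ) : ℂ) * RP Nr α t) = (om τ H t : ℂ) *
      TP ((S ×ˢ S) ×ˢ Nr) (fun x => uc r x.1 * α x.2) (fun x => x.1.1 * x.2)
        (fun x => x.1.2 * 1) t := fun t => by rw [UD_eq S r hS0 Nr α hN0 t]
  simp_rw [e]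
  refine h1.trans ?_
  have h4 := h.n1sqT r
  have hW := h.W1
  have h5 := Real.exp_pos (-(H ^ 2) / (8 * Y ^ 2))
  have h6 := n1_nonneg Nr α
  calc Real.sqrt (2 * Real.pi) * H * (n1 S r ^ 2 * n1 Nr α * Real.exp (-(H ^ 2) / (8 * Y ^ 2)))
      ≤ Real.sqrt (2 * Real.pi) * H *
        ((T * w1 S r) * n1 Nr α * Real.exp (-(H ^ 2) / (8 * Y ^ 2))) := by
        gcongr
    _ = _ := by ring

/-- `|R|² D` is orthogonal to Dirichlet polynomials if `D` is rough -/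
lemma Cx.int2 (h : Cx C T Z m τ H dd Y G e0 y K0 N X S) (r : ℕ → ℂ) (Nr : Finset ℕ) (α : ℕ → ℂ)
    (hN : ∀ n ∈ Nr, 2 ≤ n ∧ y < (n.minFac : ℝ)) (Mr : Finset ℕ) (β : ℕ → ℂ)
    (hM : ∀ n ∈ Mr, 0 < n) :
    ‖∫ t, (om τ H t : ℂ) * ((((‖RP S r t‖ ^ 2 : ℝ) : ℂ) * RP Nr α t) * RP Mr β t)‖ ≤
      Real.sqrt (2 * Real.pi) * H * w1 S r *
        (n1 Nr α * n1 Mr β * (T * Real.exp (-(H ^ 2) / (8 * Y ^ 2)))) := by
  have hH0 : 0 < H := by linarith [h.hH]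
  have hN' : (1 : ℝ) ≤ N := by exact_mod_cast h.hN1
  have hK := h.hK1
  have hKN := h.hKN
  have hS0 : ∀ k ∈ S, 0 < k := fun k hk => (h.hS k hk).1
  have hN0 : ∀ n ∈ Nr, 0 < n := fun n hn => by have := (hN n hn).1; omega
  have hUD0 : ∀ x ∈ (S ×ˢ S) ×ˢ Nr, 0 < x.1.1 * x.2 := fun x hx => by
      rw [Finset.mem_product, Finset.mem_product] at hx
      exact Nat.mul_pos (hS0 _ hx.1.1) (hN0 _ hx.2)
  have hUD1 : ∀ x ∈ (S ×ˢ S) ×ˢ Nr, 0 < x.1.2 * 1 := fun x hx => by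
      rw [Finset.mem_product, Finset.mem_product] at hx
      rw [mul_one]
      exact hS0 _ hx.1.2
  have h1 := om_TP (((S ×ˢ S) ×ˢ Nr) ×ˢ Mr) (fun x => (uc r x.1.1 * α x.1.2) * β x.2)
    (fun x => (x.1.1.1 * x.1.2) * x.2) (fun x => (x.1.1.2 * 1) * 1) τ H Y hH0
    (fun x hx => by
      rw [Finset.mem_product] at hx
      exact Nat.mul_pos (hUD0 _ hx.1) (hM _ hx.2))
    (fun x hx => by
      rw [Finset.mem_product] at hx
      exact Nat.mul_pos (hUD1 _ hx.1) one_pos)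
    (fun x hx => by
      rw [Finset.mem_product, Finset.mem_product, Finset.mem_product] at hx
      have h2 := (h.hS _ hx.1.1.2).2.1
      have h3 : ((min (x.1.1.1 * x.1.2 * x.2) (x.1.1.2 * 1 * 1) : ℕ) : ℝ) ≤ (x.1.1.2 : ℝ) := by
        exact_mod_cast (min_le_right _ _).trans (by rw [mul_one, mul_one])
      nlinarith)
  have hdiag : (((S ×ˢ S) ×ˢ Nr) ×ˢ Mr).filter
      (fun x => (x.1.1.1 * x.1.2) * x.2 = (x.1.1.2 * 1) * 1) = ∅ := by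
    rw [Finset.filter_eq_empty_iff]
    intro x hx he
    rw [Finset.mem_product, Finset.mem_product, Finset.mem_product] at hx
    have h2 := h.hS _ hx.1.1.2
    have h3 := hN _ hx.1.2
    have h4 := rough_ne (k := x.1.1.1) (m := x.2) h3.1 h3.2 h2.1 h2.2.2
    rw [mul_one, mul_one] at he
    exact h4 he
  rw [hdiag, Finset.sum_empty, mul_zero, sub_zero,
    n1_mul ((S ×ˢ S) ×ˢ Nr) (fun x => uc r x.1 * α x.2) Mr β, n1_mul, n1_uc] at h1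
  have e : ∀ t, (om τ H t : ℂ) * ((((‖RP S r t‖ ^ 2 : ℝ) : ℂ) * RP Nr α t) * RP Mr β t) =
      (om τ H t : ℂ) * TP (((S ×ˢ S) ×ˢ Nr) ×ˢ Mr) (fun x => (uc r x.1.1 * α x.1.2) * β x.2)
        (fun x => (x.1.1.1 * x.1.2) * x.2) (fun x => (x.1.1.2 * 1) * 1) t := fun t => by
    rw [UD_eq S r hS0 Nr α hN0 t]
    unfold RP
    rw [TP_mul _ _ _ _ _ _ _ _ hUD0 hUD1 (fun x hx => hM x hx) (fun _ _ => one_pos)]
  simp_rw [e]
  refine h1.trans ?_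
  have h4 := h.n1sqT r
  have hW := h.W1
  have h5 := Real.exp_pos (-(H ^ 2) / (8 * Y ^ 2))
  have h6 := n1_nonneg Nr α
  have h7 := n1_nonneg Mr β
  calc Real.sqrt (2 * Real.pi) * H *
        (n1 S r ^ 2 * n1 Nr α * n1 Mr β * Real.exp (-(H ^ 2) / (8 * Y ^ 2)))
      ≤ Real.sqrt (2 * Real.pi) * H *
        ((T * w1 S r) * n1 Nr α * n1 Mr β * Real.exp (-(H ^ 2) / (8 * Y ^ 2))) := by
        gcongr
    _ = _ := by ring

/-- the integral of `|R|² D` against the conjugate of a Dirichlet polynomial -/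
lemma Cx.int3 (h : Cx C T Z m τ H dd Y G e0 y K0 N X S) (r : ℕ → ℂ) (Nr : Finset ℕ) (α : ℕ → ℂ)
    (hN : ∀ n ∈ Nr, 2 ≤ n ∧ y < (n.minFac : ℝ)) (hNN : ∀ n ∈ Nr, n ≤ N)
    (hα : ∀ n, ¬ IsPrimePow n → α n = 0) (Mr : Finset ℕ) (β : ℕ → ℂ)
    (hM : ∀ n ∈ Mr, 0 < n) (hβ : ∀ n, ¬ IsPrimePow n → β n = 0) :
    ‖(∫ t, (om τ H t : ℂ) * ((((‖RP S r t‖ ^ 2 : ℝ) : ℂ) * RP Nr α t) *
        (starRingEnd ℂ) (RP Mr β t))) -
      ((Real.sqrt (2 * Real.pi) * H : ℝ) : ℂ) * (((w1 S r : ℝ) : ℂ) *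
        ∑ n ∈ Nr ∩ Mr, α n * (starRingEnd ℂ) (β n))‖ ≤
      Real.sqrt (2 * Real.pi) * H * w1 S r *
        (n1 Nr α * n1 Mr β * (T * Real.exp (-(H ^ 2) / (8 * Y ^ 2)))) := by
  have hH0 : 0 < H := by linarith [h.hH]
  have hN' : (1 : ℝ) ≤ N := by exact_mod_cast h.hN1
  have hK := h.hK1
  have hKN := h.hKN
  have hS0 : ∀ k ∈ S, 0 < k := fun k hk => (h.hS k hk).1
  have hN0 : ∀ n ∈ Nr, 0 < n := fun n hn => by have := (hN n hn).1; omega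
  have hUD0 : ∀ x ∈ (S ×ˢ S) ×ˢ Nr, 0 < x.1.1 * x.2 := fun x hx => by
      rw [Finset.mem_product, Finset.mem_product] at hx
      exact Nat.mul_pos (hS0 _ hx.1.1) (hN0 _ hx.2)
  have hUD1 : ∀ x ∈ (S ×ˢ S) ×ˢ Nr, 0 < x.1.2 * 1 := fun x hx => by
      rw [Finset.mem_product, Finset.mem_product] at hx
      rw [mul_one]
      exact hS0 _ hx.1.2
  have h1 := om_TP (((S ×ˢ S) ×ˢ Nr) ×ˢ Mr)
    (fun x => (uc r x.1.1 * α x.1.2) * (starRingEnd ℂ) (β x.2))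
    (fun x => (x.1.1.1 * x.1.2) * 1) (fun x => (x.1.1.2 * 1) * x.2) τ H Y hH0
    (fun x hx => by
      rw [Finset.mem_product] at hx
      exact Nat.mul_pos (hUD0 _ hx.1) one_pos)
    (fun x hx => by
      rw [Finset.mem_product] at hx
      exact Nat.mul_pos (hUD1 _ hx.1) (hM _ hx.2))
    (fun x hx => by
      rw [Finset.mem_product, Finset.mem_product, Finset.mem_product] at hx
      have h2 := (h.hS _ hx.1.1.1).2.1
      have h2' : (1 : ℝ) ≤ x.1.1.1 := by exact_mod_cast (h.hS _ hx.1.1.1).1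
      have h5 : (x.1.2 : ℝ) ≤ N := by exact_mod_cast hNN _ hx.1.2
      have h3 : ((min (x.1.1.1 * x.1.2 * 1) (x.1.1.2 * 1 * x.2) : ℕ) : ℝ) ≤
          (x.1.1.1 : ℝ) * x.1.2 := by
        exact_mod_cast (min_le_left _ _).trans (by rw [mul_one])
      have h6 : (x.1.1.1 : ℝ) * x.1.2 ≤ K0 * N := by gcongr
      linarith)
  rw [diag2 S r Nr Mr α (fun n => (starRingEnd ℂ) (β n))
    (fun k hk => ⟨(h.hS k hk).1, (h.hS k hk).2.2⟩) (fun n hn => (hN n hn).2) hα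
    (fun n hn => by rw [hβ n hn, map_zero]),
    n1_mul ((S ×ˢ S) ×ˢ Nr) (fun x => uc r x.1 * α x.2) Mr (fun n => (starRingEnd ℂ) (β n)),
    n1_mul, n1_uc] at h1
  have e5 : n1 Mr (fun n => (starRingEnd ℂ) (β n)) = n1 Mr β := by
    unfold n1
    refine Finset.sum_congr rfl fun k _ => ?_
    rw [RCLike.norm_conj]
  rw [e5] at h1
  have e : ∀ t, (om τ H t : ℂ) * ((((‖RP S r t‖ ^ 2 : ℝ) : ℂ) * RP Nr α t) *
      (starRingEnd ℂ) (RP Mr β t)) =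
      (om τ H t : ℂ) * TP (((S ×ˢ S) ×ˢ Nr) ×ˢ Mr)
        (fun x => (uc r x.1.1 * α x.1.2) * (starRingEnd ℂ) (β x.2))
        (fun x => (x.1.1.1 * x.1.2) * 1) (fun x => (x.1.1.2 * 1) * x.2) t := fun t => by
    rw [UD_eq S r hS0 Nr α hN0 t]
    unfold RP
    rw [TP_conj, TP_mul _ _ _ _ _ _ _ _ hUD0 hUD1 (fun _ _ => one_pos) (fun x hx => hM x hx)]
  simp_rw [e]
  refine h1.trans ?_
  have h4 := h.n1sqT r
  have hW := h.W1
  have h5 := Real.exp_pos (-(H ^ 2) / (8 * Y ^ 2))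
  have h6 := n1_nonneg Nr α
  have h7 := n1_nonneg Mr β
  calc Real.sqrt (2 * Real.pi) * H *
        (n1 S r ^ 2 * n1 Nr α * n1 Mr β * Real.exp (-(H ^ 2) / (8 * Y ^ 2)))
      ≤ Real.sqrt (2 * Real.pi) * H *
        ((T * w1 S r) * n1 Nr α * n1 Mr β * Real.exp (-(H ^ 2) / (8 * Y ^ 2))) := by
        gcongr
    _ = _ := by ring

end

end Pool.Agent.N802
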