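import Pool.Agent.N802.Prod

/-!
# Simple isolated zeros with prescribed phases at the small primes: the abstract form
-/

open Complex Filter Topology Set MeasureTheory

namespace Pool.Agent.N802

open TC

lemma kk_pos {Z : Finset ℝ} {m : ℝ → ℕ} {ρ g : ℝ} (_h1 : ∀ g ∈ Z, 1 ≤ m g) (hρ : 0 ≤ ρ)
    (hg : g ∈ Z) : m g ≤ kk Z m ρ g := by
  unfold kk
  apply Finset.single_le_sum (f := m) (fun _ _ => Nat.zero_le _)
  rw [Finset.mem_filter]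
  exact ⟨hg, by simpa using hρ⟩

lemma kk_one {Z : Finset ℝ} {m : ℝ → ℕ} {ρ g : ℝ} (h1 : ∀ g ∈ Z, 1 ≤ m g) (hρ : 0 ≤ ρ)
    (hg : g ∈ Z) (hk : kk Z m ρ g = 1) : m g = 1 ∧ ∀ g' ∈ Z, g' ≠ g → ρ < |g' - g| := by
  have h2 := kk_pos h1 hρ hg
  have h3 := h1 g hg
  refine ⟨by omega, fun g' hg' hne => ?_⟩
  by_contra hcon
  push Not at hcon
  have h4 : m g + m g' ≤ kk Z m ρ g := by
    unfold kk
    rw [← Finset.sum_pair hne.symm]
    apply Finset.sum_le_sum_of_subset_of_nonneg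
    · intro x hx
      rw [Finset.mem_insert, Finset.mem_singleton] at hx
      rw [Finset.mem_filter]
      rcases hx with rfl | rfl
      · exact ⟨hg, by simpa using hρ⟩
      · exact ⟨hg', hcon⟩
    · intro _ _ _
      exact Nat.zero_le _
  have h5 := h1 g' hg'
  omega

/-- the mass at the simple isolated zeros -/
lemma SG_one {Z : Finset ℝ} {m : ℝ → ℕ} {ρ τ H : ℝ} {S : Finset ℕ} {r : ℕ → ℂ}
    (h1 : ∀ g ∈ Z, 1 ≤ m g) (hρ : 0 ≤ ρ) :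
    2 * SG Z m τ H S r (fun _ => 1) - SG Z m τ H S r (fun g => (kk Z m ρ g : ℝ)) ≤
      SG Z m τ H S r (fun g => if kk Z m ρ g = 1 then 1 else 0) := by
  unfold SG
  rw [Finset.mul_sum, ← Finset.sum_sub_distrib]
  apply Finset.sum_le_sum
  intro g hg
  have a1 : 0 ≤ (m g : ℝ) * (om τ H g * ‖RP S r g‖ ^ 2) :=
    mul_nonneg (Nat.cast_nonneg _) (mul_nonneg (om_pos τ H g).le (sq_nonneg _))
  have a2 : 1 ≤ kk Z m ρ g := (h1 g hg).trans (kk_pos h1 hρ hg)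
  have a3 : (2 : ℝ) - (kk Z m ρ g : ℝ) ≤ if kk Z m ρ g = 1 then 1 else 0 := by
    split_ifs with h
    · rw [h]; norm_num
    · have : 2 ≤ kk Z m ρ g := by omega
      have : (2 : ℝ) ≤ (kk Z m ρ g : ℝ) := by exact_mod_cast this
      linarith
  have a4 := mul_le_mul_of_nonneg_left a3 a1
  calc 2 * ((m g : ℝ) * (om τ H g * ‖RP S r g‖ ^ 2 * 1)) -
        (m g : ℝ) * (om τ H g * ‖RP S r g‖ ^ 2 * (kk Z m ρ g : ℝ)) =
        (m g : ℝ) * (om τ H g * ‖RP S r g‖ ^ 2) * (2 - (kk Z m ρ g : ℝ)) := by ring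
    _ ≤ _ := a4
    _ = _ := by ring

/-- the primes up to `y` -/
noncomputable def pr (y : ℝ) : Finset ℕ := (Finset.range (⌊y⌋₊ + 1)).filter Nat.Prime

lemma mem_pr {y : ℝ} (hy : 0 ≤ y) {p : ℕ} : p ∈ pr y ↔ p.Prime ∧ (p : ℝ) ≤ y := by
  unfold pr
  rw [Finset.mem_filter, Finset.mem_range, Nat.lt_succ_iff, Nat.le_floor_iff hy]
  tauto

lemma pr_card {y : ℝ} (hy : 0 ≤ y) : ((pr y).card : ℝ) ≤ y := by
  have h : pr y ⊆ Finset.Icc 1 ⌊y⌋₊ := by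
    intro p hp
    rw [mem_pr hy] at hp
    rw [Finset.mem_Icc]
    exact ⟨hp.1.one_lt.le, Nat.le_floor hp.2⟩
  have h2 := Finset.card_le_card h
  rw [Nat.card_Icc, Nat.add_sub_cancel] at h2
  exact (Nat.cast_le.2 h2).trans (Nat.floor_le hy)

lemma pr_prod {y : ℝ} (hy : 0 ≤ y) (D : ℕ) :
    ((∏ p ∈ pr y, p ^ D : ℕ) : ℝ) ≤ Real.exp (Real.log 4 * y * D) := by
  have h1 : (∏ p ∈ pr y, p ^ D : ℕ) = (primorial ⌊y⌋₊) ^ D := by
    rw [Finset.prod_pow]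
    rfl
  rw [h1]
  have h2 := primorial_le_four_pow ⌊y⌋₊
  have h3 : ((primorial ⌊y⌋₊ : ℕ) : ℝ) ≤ (4 : ℝ) ^ ⌊y⌋₊ := by exact_mod_cast h2
  have h4 : (4 : ℝ) ^ ⌊y⌋₊ ≤ Real.exp (Real.log 4 * y) := by
    rw [← Real.rpow_natCast, Real.rpow_def_of_pos (by norm_num)]
    apply Real.exp_le_exp.2
    exact mul_le_mul_of_nonneg_left (Nat.floor_le hy) (Real.log_nonneg (by norm_num))
  push_cast
  calc ((primorial ⌊y⌋₊ : ℕ) : ℝ) ^ D ≤ (Real.exp (Real.log 4 * y)) ^ D :=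
        pow_le_pow_left₀ (Nat.cast_nonneg _) (h3.trans h4) D
    _ = Real.exp (Real.log 4 * y * D) := by
        rw [← Real.exp_nat_mul]
        congr 1
        ring

/-- on the unit circle -/
lemma half_norm_le {z : ℂ} (hz : ‖z‖ = 1) : ‖(1 + z) / 2‖ ≤ 1 := by
  rw [norm_div]
  have := norm_add_le 1 z
  rw [hz, norm_one] at this
  rw [div_le_one (by simp)]
  simp only [Complex.norm_ofNat]
  linarith

lemma half_norm_sq {z : ℂ} (hz : ‖z‖ = 1) : ‖(1 + z) / 2‖ ^ 2 = 1 - ‖z - 1‖ ^ 2 / 4 := by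
  have h := parallelogram_law_with_norm ℝ z 1
  rw [hz, norm_one] at h
  rw [norm_div, div_pow, add_comm]
  simp only [Complex.norm_ofNat]
  nlinarith

lemma half_pow_le {z : ℂ} (hz : ‖z‖ = 1) {ε : ℝ} (hε : 0 ≤ ε) (hb : ε < ‖z - 1‖) (D : ℕ) :
    ‖((1 + z) / 2) ^ D‖ ^ 2 ≤ Real.exp (-(ε ^ 2 / 4 * D)) := by
  rw [norm_pow, ← pow_mul, mul_comm D 2, pow_mul, half_norm_sq hz]
  have h1 : 1 - ‖z - 1‖ ^ 2 / 4 ≤ Real.exp (-(ε ^ 2 / 4)) := by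
    have h2 := Real.add_one_le_exp (-(ε ^ 2 / 4))
    have h3 : ε ^ 2 ≤ ‖z - 1‖ ^ 2 := pow_le_pow_left₀ hε hb.le 2
    linarith
  have h0 : 0 ≤ 1 - ‖z - 1‖ ^ 2 / 4 := by
    rw [← half_norm_sq hz]
    exact sq_nonneg _
  calc (1 - ‖z - 1‖ ^ 2 / 4) ^ D ≤ (Real.exp (-(ε ^ 2 / 4))) ^ D := pow_le_pow_left₀ h0 h1 D
    _ = _ := by
        rw [← Real.exp_nat_mul]
        congr 1
        ring

end Pool.Agent.N802
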