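import Pool.Agent.N802.Blk4

/-!
# Products of Dirichlet polynomials in the powers of single primes
-/

open Complex Filter Topology Set MeasureTheory

namespace Pool.Agent.N802

open TC

/-- one factor -/
noncomputable def fac (D : ℕ) (b : ℕ → ℂ) (q : ℕ) (t : ℝ) : ℂ :=
  ∑ a ∈ Finset.range (D + 1), b a * mn (q ^ a) 1 t

lemma prod_poly (D : ℕ) (b : ℕ → ℕ → ℂ) (P : Finset ℕ) (hP : ∀ p ∈ P, p.Prime) :
    ∃ (S : Finset ℕ) (r : ℕ → ℂ),
      (∀ k ∈ S, 1 ≤ k ∧ k ≤ ∏ p ∈ P, p ^ D ∧ ∀ p : ℕ, p.Prime → p ∣ k → p ∈ P) ∧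
      (∀ t : ℝ, RP S r t = ∏ p ∈ P, fac D (b p) p t) ∧
      w1 S r = ∏ p ∈ P, ∑ a ∈ Finset.range (D + 1), ‖b p a‖ ^ 2 := by
  classical
  induction P using Finset.induction_on with
  | empty =>
    refine ⟨{1}, fun _ => 1, ?_, ?_, ?_⟩
    · intro k hk
      rw [Finset.mem_singleton] at hk
      subst hk
      refine ⟨le_refl _, by simp, fun p hp hpk => ?_⟩
      exact absurd (Nat.dvd_one.1 hpk) hp.one_lt.ne'
    · intro t
      simp [RP, TP, mn]
    · simp [w1]
  | insert q P hq ih =>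
    obtain ⟨S, r, hS, hR, hw⟩ := ih fun p hp => hP p (Finset.mem_insert_of_mem hp)
    have hqp : q.Prime := hP q (Finset.mem_insert_self _ _)
    have hqk : ∀ k ∈ S, ¬ q ∣ k := fun k hk h => hq ((hS k hk).2.2 q hqp h)
    have hfac : ∀ k ∈ S, ∀ a : ℕ, (k * q ^ a).factorization q = a := by
      intro k hk a
      have hk0 : k ≠ 0 := by have := (hS k hk).1; omega
      rw [Nat.factorization_mul hk0 (pow_ne_zero _ hqp.ne_zero), Finsupp.add_apply,
        Nat.factorization_eq_zero_of_not_dvd (hqk k hk), hqp.factorization_pow]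
      simp
    have hinj : Set.InjOn (fun x : ℕ × ℕ => x.1 * q ^ x.2) (S ×ˢ Finset.range (D + 1) : Finset (ℕ × ℕ)) := by
      rintro ⟨k, a⟩ h1 ⟨k', a'⟩ h2 h
      simp only [Finset.coe_product, Set.mem_prod, Finset.mem_coe] at h1 h2
      simp only at h
      have e1 := hfac k h1.1 a
      have e2 := hfac k' h2.1 a'
      rw [h, e2] at e1
      subst e1
      have := Nat.eq_of_mul_eq_mul_right (pow_pos hqp.pos a') h
      rw [this]
    set r' : ℕ → ℂ := fun n => r (n / q ^ (n.factorization q)) * b q (n.factorization q) with hr'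
    have hrr : ∀ k ∈ S, ∀ a : ℕ, r' (k * q ^ a) = r k * b q a := by
      intro k hk a
      rw [hr']
      simp only
      rw [hfac k hk a, Nat.mul_div_cancel _ (pow_pos hqp.pos a)]
    refine ⟨(S ×ˢ Finset.range (D + 1)).image (fun x => x.1 * q ^ x.2), r', ?_, ?_, ?_⟩
    · intro n hn
      rw [Finset.mem_image] at hn
      obtain ⟨⟨k, a⟩, h1, rfl⟩ := hn
      rw [Finset.mem_product, Finset.mem_range] at h1
      obtain ⟨h1, h2⟩ := h1
      obtain ⟨h3, h4, h5⟩ := hS k h1
      simp only at h1 h2 h3 h4 h5 ⊢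
      refine ⟨?_, ?_, ?_⟩
      · exact Nat.one_le_iff_ne_zero.2 (mul_ne_zero (by omega) (pow_ne_zero _ hqp.ne_zero))
      · rw [Finset.prod_insert hq, mul_comm]
        exact Nat.mul_le_mul (Nat.pow_le_pow_right hqp.pos (by omega)) h4
      · intro p hp hpk
        rw [hp.dvd_mul] at hpk
        rcases hpk with h | h
        · exact Finset.mem_insert_of_mem (h5 p hp h)
        · rw [(Nat.prime_dvd_prime_iff_eq hp hqp).1 (hp.dvd_of_dvd_pow h)]
          exact Finset.mem_insert_self _ _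
    · intro t
      rw [Finset.prod_insert hq, ← hR t]
      unfold RP TP fac
      rw [Finset.sum_image hinj, Finset.sum_product, Finset.sum_mul_sum, Finset.sum_comm]
      apply Finset.sum_congr rfl
      intro a _
      apply Finset.sum_congr rfl
      intro k hk
      simp only
      rw [hrr k hk a]
      have hk0 : 0 < k := (hS k hk).1
      have h := mn_mul (a := k) (b := 1) (a' := q ^ a) (b' := 1) hk0 one_pos
        (pow_pos hqp.pos a) one_pos t
      rw [mul_one] at h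
      rw [← h]
      ring
    · rw [Finset.prod_insert hq, ← hw]
      unfold w1
      rw [Finset.sum_image hinj, Finset.sum_product, Finset.sum_mul_sum, Finset.sum_comm]
      apply Finset.sum_congr rfl
      intro a _
      apply Finset.sum_congr rfl
      intro k hk
      simp only
      rw [hrr k hk a, norm_mul, mul_pow, mul_comm]

/-- the coefficients of `((1 + e ^ (iθ) z) / 2) ^ D` -/
noncomputable def bc (D : ℕ) (θ : ℝ) (a : ℕ) : ℂ := (D.choose a : ℂ) * cexp (I * θ) ^ a / 2 ^ D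

lemma mn_pow {q : ℕ} (hq : 0 < q) (a : ℕ) (t : ℝ) : mn (q ^ a) 1 t = mn q 1 t ^ a := by
  induction a with
  | zero => simp [mn]
  | succ a ih =>
    have h := mn_mul (a := q ^ a) (b := 1) (a' := q) (b' := 1) (pow_pos hq a) one_pos hq one_pos t
    rw [mul_one] at h
    rw [pow_succ, pow_succ, ← h, ih]

lemma fac_bc (D : ℕ) (θ : ℝ) {q : ℕ} (hq : 0 < q) (t : ℝ) :
    fac D (bc D θ) q t = ((1 + cexp (I * θ) * mn q 1 t) / 2) ^ D := by
  unfold fac bc
  rw [div_pow, add_comm (1 : ℂ) (cexp (I * θ) * mn q 1 t), add_pow, Finset.sum_div]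
  apply Finset.sum_congr rfl
  intro a _
  rw [mn_pow hq, one_pow, mul_one, mul_pow]
  ring

lemma bc_sum (D : ℕ) (θ : ℝ) :
    1 / ((D : ℝ) + 1) ≤ ∑ a ∈ Finset.range (D + 1), ‖bc D θ a‖ ^ 2 := by
  have h1 : ∀ a, ‖bc D θ a‖ = (D.choose a : ℝ) / 2 ^ D := by
    intro a
    unfold bc
    rw [norm_div, norm_mul, norm_pow, mul_comm I, Complex.norm_exp_ofReal_mul_I, one_pow, mul_one,
      norm_pow]
    simp
  have h2 : ∑ a ∈ Finset.range (D + 1), ‖bc D θ a‖ = 1 := by
    simp_rw [h1]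
    rw [← Finset.sum_div, ← Nat.cast_sum, Nat.sum_range_choose]
    simp
  have h3 := sq_sum_le_card_mul_sum_sq (s := Finset.range (D + 1)) (f := fun a => ‖bc D θ a‖)
  rw [h2, Finset.card_range] at h3
  rw [div_le_iff₀ (by positivity), mul_comm]
  push_cast at h3
  linarith

lemma bc_sum_le (D : ℕ) (θ : ℝ) : ∑ a ∈ Finset.range (D + 1), ‖bc D θ a‖ ^ 2 ≤ 1 := by
  have h1 : ∀ a, ‖bc D θ a‖ = (D.choose a : ℝ) / 2 ^ D := by
    intro a
    unfold bc
    rw [norm_div, norm_mul, norm_pow, mul_comm I, Complex.norm_exp_ofReal_mul_I, one_pow, mul_one,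
      norm_pow]
    simp
  have h2 : ∑ a ∈ Finset.range (D + 1), ‖bc D θ a‖ = 1 := by
    simp_rw [h1]
    rw [← Finset.sum_div, ← Nat.cast_sum, Nat.sum_range_choose]
    simp
  rw [← h2]
  apply Finset.sum_le_sum
  intro a ha
  have h3 : ‖bc D θ a‖ ≤ 1 := by
    rw [← h2]
    exact Finset.single_le_sum (f := fun a => ‖bc D θ a‖) (fun _ _ => norm_nonneg _) ha
  nlinarith [norm_nonneg (bc D θ a)]

end Pool.Agent.N802
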