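import Pool.Agent.W460.TCRK
import Pool.Agent.W198.TC.DMcore

/-!
# Trigonometric polynomials with frequencies `log (b / a)`
-/

open Complex Filter Topology Set MeasureTheory

namespace Pool.Agent.N802

open TC (om gau om_pos om_cont om_integrable om_integral lam)

/-- `(b / a) ^ (i t)` -/
noncomputable def mn (a b : ℕ) (t : ℝ) : ℂ :=
  cexp (((t * (Real.log b - Real.log a) : ℝ) : ℂ) * I)

/-- a trigonometric polynomial -/
noncomputable def TP {ι : Type*} (S : Finset ι) (c : ι → ℂ) (a b : ι → ℕ) (t : ℝ) : ℂ :=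
  ∑ x ∈ S, c x * mn (a x) (b x) t

/-- the sum of the absolute values of the coefficients -/
noncomputable def n1 {ι : Type*} (S : Finset ι) (c : ι → ℂ) : ℝ := ∑ x ∈ S, ‖c x‖

lemma n1_nonneg {ι : Type*} (S : Finset ι) (c : ι → ℂ) : 0 ≤ n1 S c :=
  Finset.sum_nonneg fun _ _ => norm_nonneg _

lemma mn_norm (a b : ℕ) (t : ℝ) : ‖mn a b t‖ = 1 := by
  unfold mn
  rw [Complex.norm_exp_ofReal_mul_I]

lemma mn_cont (a b : ℕ) : Continuous (mn a b) := by
  unfold mn
  fun_prop

lemma TP_cont {ι : Type*} (S : Finset ι) (c : ι → ℂ) (a b : ι → ℕ) : Continuous (TP S c a b) := by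
  unfold TP
  exact continuous_finsetSum _ fun x _ => continuous_const.mul (mn_cont _ _)

lemma TP_norm_le {ι : Type*} (S : Finset ι) (c : ι → ℂ) (a b : ι → ℕ) (t : ℝ) :
    ‖TP S c a b t‖ ≤ n1 S c := by
  unfold TP n1
  refine (norm_sum_le _ _).trans (Finset.sum_le_sum fun x _ => ?_)
  rw [norm_mul, mn_norm, mul_one]

lemma mn_mul {a b a' b' : ℕ} (ha : 0 < a) (hb : 0 < b) (ha' : 0 < a') (hb' : 0 < b') (t : ℝ) :
    mn a b t * mn a' b' t = mn (a * a') (b * b') t := by
  unfold mn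
  rw [← Complex.exp_add]
  congr 1
  have h1 : Real.log ((a * a' : ℕ) : ℝ) = Real.log a + Real.log a' := by
    push_cast
    exact Real.log_mul (by exact_mod_cast ha.ne') (by exact_mod_cast ha'.ne')
  have h2 : Real.log ((b * b' : ℕ) : ℝ) = Real.log b + Real.log b' := by
    push_cast
    exact Real.log_mul (by exact_mod_cast hb.ne') (by exact_mod_cast hb'.ne')
  rw [h1, h2]
  push_cast
  ring

lemma mn_conj (a b : ℕ) (t : ℝ) : (starRingEnd ℂ) (mn a b t) = mn b a t := by
  unfold mn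
  rw [← Complex.exp_conj, map_mul, Complex.conj_ofReal, Complex.conj_I]
  congr 1
  push_cast
  ring

lemma TP_conj {ι : Type*} (S : Finset ι) (c : ι → ℂ) (a b : ι → ℕ) (t : ℝ) :
    (starRingEnd ℂ) (TP S c a b t) = TP S (fun x => (starRingEnd ℂ) (c x)) b a t := by
  unfold TP
  rw [map_sum]
  refine Finset.sum_congr rfl fun x _ => ?_
  rw [map_mul, mn_conj]

lemma TP_mul {ι κ : Type*} (S : Finset ι) (c : ι → ℂ) (a b : ι → ℕ) (S' : Finset κ) (c' : κ → ℂ)
    (a' b' : κ → ℕ) (ha : ∀ x ∈ S, 0 < a x) (hb : ∀ x ∈ S, 0 < b x) (ha' : ∀ x ∈ S', 0 < a' x)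
    (hb' : ∀ x ∈ S', 0 < b' x) (t : ℝ) :
    TP S c a b t * TP S' c' a' b' t =
      TP (S ×ˢ S') (fun x => c x.1 * c' x.2) (fun x => a x.1 * a' x.2)
        (fun x => b x.1 * b' x.2) t := by
  unfold TP
  rw [Finset.sum_mul_sum, Finset.sum_product]
  refine Finset.sum_congr rfl fun x hx => Finset.sum_congr rfl fun y hy => ?_
  simp only
  rw [← mn_mul (ha x hx) (hb x hx) (ha' y hy) (hb' y hy) t]
  ring

lemma n1_mul {ι κ : Type*} (S : Finset ι) (c : ι → ℂ) (S' : Finset κ) (c' : κ → ℂ) :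
    n1 (S ×ˢ S') (fun x => c x.1 * c' x.2) = n1 S c * n1 S' c' := by
  unfold n1
  rw [Finset.sum_mul_sum, Finset.sum_product]
  refine Finset.sum_congr rfl fun x hx => Finset.sum_congr rfl fun y hy => ?_
  simp only [norm_mul]

/-- the distance between two different frequencies -/
lemma log_sub_ge {a b : ℕ} (ha : 0 < a) (hab : a < b) :
    1 / (2 * (a : ℝ)) ≤ Real.log b - Real.log a := by
  have ha' : (0 : ℝ) < a := by exact_mod_cast ha
  have ha1 : (1 : ℝ) ≤ a := by exact_mod_cast ha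
  have hb' : (a : ℝ) + 1 ≤ b := by exact_mod_cast hab
  have hb0 : (0 : ℝ) < b := by linarith
  rw [← Real.log_div hb0.ne' ha'.ne']
  have h1 : 1 - ((b : ℝ) / a)⁻¹ ≤ Real.log ((b : ℝ) / a) :=
    Real.one_sub_inv_le_log_of_pos (by positivity)
  refine le_trans ?_ h1
  rw [inv_div]
  have h2 : (a : ℝ) / b ≤ a / (a + 1) := by gcongr
  have h3 : 1 - (a : ℝ) / (a + 1) = 1 / (a + 1) := by field_simp; ring
  have h4 : 1 / (2 * (a : ℝ)) ≤ 1 / (a + 1) := by
    apply one_div_le_one_div_of_le (by positivity)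
    linarith
  linarith

lemma log_sub_sq {a b : ℕ} {Y : ℝ} (ha : 0 < a) (hb : 0 < b) (hab : a ≠ b)
    (hY : (min a b : ℕ) ≤ Y) : 1 / (4 * Y ^ 2) ≤ (Real.log b - Real.log a) ^ 2 := by
  rcases lt_or_gt_of_ne hab with h | h
  · have h1 := log_sub_ge ha h
    rw [min_eq_left h.le] at hY
    have ha' : (0 : ℝ) < a := by exact_mod_cast ha
    have h2 : 1 / (2 * Y) ≤ Real.log b - Real.log a := by
      refine le_trans ?_ h1
      apply one_div_le_one_div_of_le (by positivity)
      linarith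
    have hY0 : 0 < Y := by linarith
    calc 1 / (4 * Y ^ 2) = (1 / (2 * Y)) ^ 2 := by field_simp; norm_num
      _ ≤ _ := pow_le_pow_left₀ (by positivity) h2 2
  · have h1 := log_sub_ge hb h
    rw [min_eq_right h.le] at hY
    have hb' : (0 : ℝ) < b := by exact_mod_cast hb
    have h2 : 1 / (2 * Y) ≤ Real.log a - Real.log b := by
      refine le_trans ?_ h1
      apply one_div_le_one_div_of_le (by positivity)
      linarith
    have hY0 : 0 < Y := by linarith
    have e : (Real.log b - Real.log a) ^ 2 = (Real.log a - Real.log b) ^ 2 := by ring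
    rw [e]
    calc 1 / (4 * Y ^ 2) = (1 / (2 * Y)) ^ 2 := by field_simp; norm_num
      _ ≤ _ := pow_le_pow_left₀ (by positivity) h2 2

lemma om_TP_integrable {ι : Type*} (S : Finset ι) (c : ι → ℂ) (a b : ι → ℕ) (τ H : ℝ)
    (hH : 0 < H) : Integrable (fun t : ℝ => (om τ H t : ℂ) * TP S c a b t) := by
  have h1 := (om_integrable τ H hH).mul_const (n1 S c)
  refine h1.mono' ?_ (Eventually.of_forall fun t => ?_)
  · have h2 := om_cont τ H
    have h3 := TP_cont S c a b
    exact ((Complex.continuous_ofReal.comp h2).mul h3).aestronglyMeasurable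
  · rw [norm_mul, Complex.norm_real, Real.norm_eq_abs, abs_of_pos (om_pos τ H t)]
    exact mul_le_mul_of_nonneg_left (TP_norm_le S c a b t) (om_pos τ H t).le

/-- the mean value of a trigonometric polynomial with respect to the Gaussian weight -/
lemma om_TP {ι : Type*} (S : Finset ι) (c : ι → ℂ) (a b : ι → ℕ) (τ H Y : ℝ)
    (hH : 0 < H) (ha : ∀ x ∈ S, 0 < a x) (hb : ∀ x ∈ S, 0 < b x)
    (hY : ∀ x ∈ S, (min (a x) (b x) : ℕ) ≤ Y) :
    ‖(∫ t : ℝ, (om τ H t : ℂ) * TP S c a b t) - ((Real.sqrt (2 * Real.pi) * H : ℝ) : ℂ) *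
      ∑ x ∈ S.filter (fun x => a x = b x), c x‖ ≤
    Real.sqrt (2 * Real.pi) * H * (n1 S c * Real.exp (-(H ^ 2) / (8 * Y ^ 2))) := by
  have hW : 0 ≤ Real.sqrt (2 * Real.pi) * H := by positivity
  have e1 : ∫ t : ℝ, (om τ H t : ℂ) * TP S c a b t =
      ∑ x ∈ S, c x * (((Real.sqrt (2 * Real.pi) * H *
        Real.exp (-(H ^ 2 * (Real.log (b x) - Real.log (a x)) ^ 2) / 2) : ℝ) : ℂ) *
        cexp (((τ * (Real.log (b x) - Real.log (a x)) : ℝ) : ℂ) * I)) := by
    have e2 : ∀ t : ℝ, (om τ H t : ℂ) * TP S c a b t = ∑ x ∈ S, c x * ((om τ H t : ℂ) *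
        cexp (((t * (Real.log (b x) - Real.log (a x)) : ℝ) : ℂ) * I)) := by
      intro t
      unfold TP mn
      rw [Finset.mul_sum]
      refine Finset.sum_congr rfl fun x _ => ?_
      ring
    simp_rw [e2]
    rw [integral_finsetSum _ fun x _ => ((gau τ H _ hH).1).const_mul _]
    refine Finset.sum_congr rfl fun x _ => ?_
    rw [integral_const_mul, (gau τ H _ hH).2]
  rw [e1, Finset.sum_filter, Finset.mul_sum, ← Finset.sum_sub_distrib]
  unfold n1
  rw [Finset.sum_mul, Finset.mul_sum]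
  refine (norm_sum_le _ _).trans (Finset.sum_le_sum fun x hx => ?_)
  split_ifs with hab
  · rw [hab, sub_self]
    simp only [ne_eq, OfNat.ofNat_ne_zero, not_false_eq_true, zero_pow, mul_zero, neg_zero,
      zero_div, Real.exp_zero, mul_one, ofReal_zero, zero_mul, Complex.exp_zero]
    rw [mul_comm (c x), sub_self, norm_zero]
    positivity
  · rw [mul_zero, sub_zero, norm_mul, norm_mul, Complex.norm_exp_ofReal_mul_I, mul_one,
      Complex.norm_real, Real.norm_eq_abs, abs_of_nonneg (by positivity)]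
    have h3 := log_sub_sq (ha x hx) (hb x hx) hab (hY x hx)
    have h4 : Real.exp (-(H ^ 2 * (Real.log (b x) - Real.log (a x)) ^ 2) / 2) ≤
        Real.exp (-(H ^ 2) / (8 * Y ^ 2)) := by
      apply Real.exp_le_exp.mpr
      have h5 := mul_le_mul_of_nonneg_left h3 (sq_nonneg H)
      have h6 : H ^ 2 * (1 / (4 * Y ^ 2)) = 2 * (H ^ 2 / (8 * Y ^ 2)) := by
        rcases eq_or_ne Y 0 with rfl | hY0
        · simp
        · field_simp; norm_num
      rw [neg_div, neg_div]
      linarith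
    calc ‖c x‖ * (Real.sqrt (2 * Real.pi) * H *
        Real.exp (-(H ^ 2 * (Real.log (b x) - Real.log (a x)) ^ 2) / 2)) ≤
        ‖c x‖ * (Real.sqrt (2 * Real.pi) * H * Real.exp (-(H ^ 2) / (8 * Y ^ 2))) := by gcongr
      _ = _ := by ring

end Pool.Agent.N802
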